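import Pool.Agent.Helper24.K1.Basic

/-! ### LOGM: the function `log |(t + 1)/(t - 1)| / conj t` -/

noncomputable section

namespace Pool.Agent.Helper24.K1

open Complex MeasureTheory Set Filter Topology
open scoped ComplexConjugate PeriodPair

theorem GG_neg (t : ℂ) : GG (-t) = GG t := by
  unfold GG
  have h1 : ‖-t + 1‖ = ‖t - 1‖ := by rw [← norm_neg]; congr 1; ring
  have h2 : ‖-t - 1‖ = ‖t + 1‖ := by rw [← norm_neg]; congr 1; ring
  rw [h1, h2, ← inv_div ‖t + 1‖ ‖t - 1‖, Real.log_inv, map_neg]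
  push_cast
  rw [neg_div_neg_eq]

theorem sqrt_sq (q : ℂ) : (q ^ ((1 : ℂ) / 2)) ^ 2 = q := by
  have h := Complex.cpow_nat_inv_pow q (n := 2) (by norm_num)
  have h2 : ((1 : ℂ) / 2) = ((2 : ℕ) : ℂ)⁻¹ := by norm_num
  rw [h2]; exact h

theorem gq_of_sq {t q : ℂ} (h : t ^ 2 = q) : gq q = GG t := by
  unfold gq
  have h1 : (q ^ ((1 : ℂ) / 2)) ^ 2 = t ^ 2 := by rw [sqrt_sq, h]
  rcases sq_eq_sq_iff_eq_or_eq_neg.1 h1 with h2 | h2
  · rw [h2]
  · rw [h2, GG_neg]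

theorem GG_measurable : Measurable GG := by
  unfold GG
  have h1 : Measurable fun t : ℂ => Real.log (‖t + 1‖ / ‖t - 1‖) := by fun_prop
  exact (Complex.measurable_ofReal.comp h1).div (Complex.continuous_conj.measurable)

theorem gq_measurable : Measurable gq := by
  unfold gq
  exact GG_measurable.comp (measurable_id.pow_const _)

theorem GG_re (t : ℂ) :
    (GG t).re = Real.log (‖t + 1‖ / ‖t - 1‖) * (t.re / normSq t) := by
  unfold GG
  rw [Complex.div_re]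
  simp [Complex.normSq_conj]
  ring

theorem norm_add_sq (t : ℂ) : ‖t + 1‖ ^ 2 = ‖t - 1‖ ^ 2 + 4 * t.re := by
  rw [← Complex.normSq_eq_norm_sq, ← Complex.normSq_eq_norm_sq, Complex.normSq_apply,
    Complex.normSq_apply]
  simp
  ring

theorem GG_re_nonneg (t : ℂ) : 0 ≤ (GG t).re := by
  rw [GG_re]
  have h := norm_add_sq t
  have hn : 0 ≤ normSq t := Complex.normSq_nonneg t
  rcases le_total 0 t.re with h0 | h0
  · refine mul_nonneg ?_ (div_nonneg h0 hn)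
    rcases eq_or_lt_of_le (norm_nonneg (t - 1)) with h1 | h1
    · rw [← h1]; simp
    · apply Real.log_nonneg
      rw [le_div_iff₀ h1, one_mul]
      exact le_of_sq_le_sq (by linarith) (norm_nonneg _)
  · refine mul_nonneg_of_nonpos_of_nonpos ?_ (div_nonpos_of_nonpos_of_nonneg h0 hn)
    apply Real.log_nonpos (by positivity)
    rcases eq_or_lt_of_le (norm_nonneg (t - 1)) with h1 | h1
    · rw [← h1]; simp
    · rw [div_le_iff₀ h1, one_mul]
      exact le_of_sq_le_sq (by linarith) (norm_nonneg _)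

theorem GG_re_pos {t : ℂ} (h0 : t.re ≠ 0) (h1 : t ≠ 1) (h2 : t ≠ -1) : 0 < (GG t).re := by
  rw [GG_re]
  have h := norm_add_sq t
  have ht : t ≠ 0 := by rintro rfl; simp at h0
  have hn : 0 < normSq t := Complex.normSq_pos.2 ht
  have hp1 : 0 < ‖t - 1‖ := norm_pos_iff.2 (sub_ne_zero.2 h1)
  have hp2 : 0 < ‖t + 1‖ := norm_pos_iff.2 (by
    intro h3; apply h2; linear_combination h3)
  rcases lt_or_gt_of_ne h0 with h3 | h3
  · refine mul_pos_of_neg_of_neg ?_ (div_neg_of_neg_of_pos h3 hn)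
    apply Real.log_neg (by positivity)
    rw [div_lt_one hp1]
    exact lt_of_pow_lt_pow_left₀ 2 hp1.le (by linarith)
  · refine mul_pos ?_ (div_pos h3 hn)
    apply Real.log_pos
    rw [one_lt_div hp1]
    exact lt_of_pow_lt_pow_left₀ 2 hp2.le (by linarith)

theorem gq_re_nonneg (q : ℂ) : 0 ≤ (gq q).re := GG_re_nonneg _

theorem gq_re_pos {q : ℂ} (h1 : q ≠ 1) (h2 : 0 < q.re) : 0 < (gq q).re := by
  have h3 := sqrt_sq q
  set t := q ^ ((1 : ℂ) / 2) with ht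
  rw [gq_of_sq h3]
  refine GG_re_pos ?_ ?_ ?_
  · intro h4
    rw [← h3, pow_two, Complex.mul_re, h4] at h2
    nlinarith [mul_self_nonneg t.im]
  · intro h4; apply h1; rw [← h3, h4]; norm_num
  · intro h4; apply h1; rw [← h3, h4]; norm_num

theorem GG_continuousAt {t : ℂ} (h0 : t ≠ 0) (h1 : t ≠ 1) (h2 : t ≠ -1) :
    ContinuousAt GG t := by
  unfold GG
  have hp1 : ‖t - 1‖ ≠ 0 := norm_ne_zero_iff.2 (sub_ne_zero.2 h1)
  have hp2 : ‖t + 1‖ ≠ 0 := norm_ne_zero_iff.2 (by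
    intro h3; apply h2; linear_combination h3)
  have h3 : ContinuousAt (fun t : ℂ => Real.log (‖t + 1‖ / ‖t - 1‖)) t := by
    apply ContinuousAt.log
    · exact ContinuousAt.div (by fun_prop) (by fun_prop) hp1
    · exact div_ne_zero hp2 hp1
  refine ContinuousAt.div ?_ (Complex.continuous_conj.continuousAt) ?_
  · exact Complex.continuous_ofReal.continuousAt.comp h3
  · simpa using h0

theorem gq_continuousAt {q : ℂ} (h0 : q ≠ 0) (h1 : q ≠ 1) : ContinuousAt gq q := by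
  have aux : ∀ t : ℂ, t ^ 2 = q → t ≠ 0 ∧ t ≠ 1 ∧ t ≠ -1 := by
    intro t ht
    refine ⟨?_, ?_, ?_⟩
    · rintro rfl; apply h0; rw [← ht]; norm_num
    · rintro rfl; apply h1; rw [← ht]; norm_num
    · rintro rfl; apply h1; rw [← ht]; norm_num
  by_cases hs : q ∈ slitPlane
  · obtain ⟨a1, a2, a3⟩ := aux _ (sqrt_sq q)
    have hc : ContinuousAt (fun q : ℂ => q ^ ((1 : ℂ) / 2)) q :=
      continuousAt_cpow_const hs
    exact ContinuousAt.comp (f := fun q : ℂ => q ^ ((1 : ℂ) / 2)) (g := GG)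
      (GG_continuousAt a1 a2 a3) hc
  · have hs' : -q ∈ slitPlane := by
      rw [Complex.mem_slitPlane_iff] at hs ⊢
      push Not at hs
      obtain ⟨b1, b2⟩ := hs
      left
      have : q.re ≠ 0 := by
        intro h; apply h0; exact Complex.ext h b2
      have h3 : q.re < 0 := lt_of_le_of_ne b1 this
      simp [h3]
    have hsq : ∀ q : ℂ, (I * (-q) ^ ((1 : ℂ) / 2)) ^ 2 = q := by
      intro q; rw [mul_pow, sqrt_sq, I_sq]; ring
    have heq : gq = fun q : ℂ => GG (I * (-q) ^ ((1 : ℂ) / 2)) := by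
      funext q; exact gq_of_sq (hsq q)
    obtain ⟨a1, a2, a3⟩ := aux _ (hsq q)
    rw [heq]
    have hc1 : ContinuousAt (fun q : ℂ => (-q) ^ ((1 : ℂ) / 2)) q :=
      ContinuousAt.comp (f := fun q : ℂ => -q) (g := fun q : ℂ => q ^ ((1 : ℂ) / 2))
        (continuousAt_cpow_const hs') (by fun_prop)
    have hc : ContinuousAt (fun q : ℂ => I * (-q) ^ ((1 : ℂ) / 2)) q :=
      continuousAt_const.mul hc1
    exact ContinuousAt.comp (f := fun q : ℂ => I * (-q) ^ ((1 : ℂ) / 2)) (g := GG)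
      (GG_continuousAt a1 a2 a3) hc

theorem abs_log_one_add {x : ℂ} (hx : ‖x‖ ≤ 1 / 2) : |Real.log ‖1 + x‖| ≤ 2 * ‖x‖ := by
  have h1 : ‖1 + x‖ ≤ 1 + ‖x‖ := by
    calc ‖1 + x‖ ≤ ‖(1 : ℂ)‖ + ‖x‖ := norm_add_le _ _
      _ = 1 + ‖x‖ := by simp
  have h2 : 1 - ‖x‖ ≤ ‖1 + x‖ := by
    have := norm_sub_norm_le (1 : ℂ) (-x)
    simp at this
    linarith
  have hn := norm_nonneg x
  have h3 : 0 < 1 - ‖x‖ := by linarith
  have h4 : 0 < ‖1 + x‖ := by linarith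
  rw [abs_le]
  constructor
  · have h5 : Real.log (1 - ‖x‖) ≤ Real.log ‖1 + x‖ := Real.log_le_log h3 h2
    have h6 : 1 - (1 - ‖x‖)⁻¹ ≤ Real.log (1 - ‖x‖) := Real.one_sub_inv_le_log_of_pos h3
    have h7 : (1 - ‖x‖)⁻¹ ≤ 1 + 2 * ‖x‖ := by
      rw [inv_le_iff_one_le_mul₀ h3]
      nlinarith
    linarith
  · have h5 : Real.log ‖1 + x‖ ≤ ‖1 + x‖ - 1 := Real.log_le_sub_one_of_pos h4
    linarith

theorem norm_GG (t : ℂ) : ‖GG t‖ = |Real.log (‖t + 1‖ / ‖t - 1‖)| / ‖t‖ := by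
  unfold GG
  rw [norm_div, Complex.norm_real, Real.norm_eq_abs, Complex.norm_conj]

theorem GG_bound_small {t : ℂ} (ht : ‖t‖ ≤ 1 / 2) : ‖GG t‖ ≤ 4 := by
  rw [norm_GG]
  rcases eq_or_lt_of_le (norm_nonneg t) with h0 | h0
  · rw [← h0]; simp
  rw [div_le_iff₀ h0]
  have h1 := abs_log_one_add ht
  have h2 := abs_log_one_add (x := -t) (by simpa using ht)
  have e1 : ‖t - 1‖ = ‖1 + -t‖ := by rw [← norm_neg]; congr 1; ring
  have e2 : ‖t + 1‖ = ‖1 + t‖ := by rw [add_comm]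
  have hp1 : ‖1 + t‖ ≠ 0 := by
    have := norm_sub_norm_le (1 : ℂ) (-t)
    simp at this
    intro h; rw [h] at this; linarith
  have hp2 : ‖1 + -t‖ ≠ 0 := by
    have := norm_sub_norm_le (1 : ℂ) t
    rw [← sub_eq_add_neg]
    simp only [norm_one] at this
    intro h; rw [h] at this; linarith
  rw [e1, e2, Real.log_div hp1 hp2]
  rw [norm_neg] at h2
  calc |Real.log ‖1 + t‖ - Real.log ‖1 + -t‖| ≤ |Real.log ‖1 + t‖| + |Real.log ‖1 + -t‖| :=
        abs_sub _ _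
    _ ≤ 4 * ‖t‖ := by linarith

theorem GG_bound_big {t : ℂ} (ht : 2 ≤ ‖t‖) : ‖GG t‖ ≤ 4 := by
  rw [norm_GG]
  have h0 : 0 < ‖t‖ := by linarith
  rw [div_le_iff₀ h0]
  have a1 : ‖t‖ - 1 ≤ ‖t - 1‖ := by
    have := norm_sub_norm_le t 1; simpa using this
  have a2 : ‖t‖ - 1 ≤ ‖t + 1‖ := by
    have := norm_sub_norm_le t (-1); simpa using this
  have a3 : ‖t - 1‖ ≤ ‖t‖ + 1 := by
    have := norm_sub_le t 1; simpa using this
  have a4 : ‖t + 1‖ ≤ ‖t‖ + 1 := by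
    have := norm_add_le t 1; simpa using this
  have p1 : 0 < ‖t - 1‖ := by linarith
  have p2 : 0 < ‖t + 1‖ := by linarith
  have b1 : ‖t + 1‖ / ‖t - 1‖ ≤ 3 := by
    rw [div_le_iff₀ p1]; linarith
  have b2 : ‖t - 1‖ / ‖t + 1‖ ≤ 3 := by
    rw [div_le_iff₀ p2]; linarith
  have c1 : Real.log (‖t + 1‖ / ‖t - 1‖) ≤ 2 :=
    (Real.log_le_sub_one_of_pos (by positivity)).trans (by linarith)
  have c2 : Real.log (‖t - 1‖ / ‖t + 1‖) ≤ 2 :=
    (Real.log_le_sub_one_of_pos (by positivity)).trans (by linarith)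
  rw [← inv_div, Real.log_inv] at c2
  rw [abs_le]
  constructor <;> linarith

theorem GG_bound_mid {t : ℂ} (h1 : 1 / 2 ≤ ‖t‖) (h2 : ‖t‖ ≤ 2) (h3 : t ^ 2 ≠ 1) :
    ‖GG t‖ ≤ 12 * ‖t ^ 2 - 1‖ ^ (-(1 / 2) : ℝ) := by
  rw [norm_GG]
  have h0 : 0 < ‖t‖ := by linarith
  have a3 : ‖t - 1‖ ≤ 3 := by
    have := norm_sub_le t 1; simp at this; linarith
  have a4 : ‖t + 1‖ ≤ 3 := by
    have := norm_add_le t 1; simp at this; linarith
  have hprod : ‖t ^ 2 - 1‖ = ‖t + 1‖ * ‖t - 1‖ := by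
    rw [← norm_mul]; congr 1; ring
  have p0 : 0 < ‖t ^ 2 - 1‖ := norm_pos_iff.2 (sub_ne_zero.2 h3)
  have p1 : 0 < ‖t - 1‖ := by
    rcases eq_or_lt_of_le (norm_nonneg (t - 1)) with h | h
    · rw [← h] at hprod; simp at hprod; rw [hprod] at p0; simp at p0
    · exact h
  have p2 : 0 < ‖t + 1‖ := by
    rcases eq_or_lt_of_le (norm_nonneg (t + 1)) with h | h
    · rw [← h] at hprod; simp at hprod; rw [hprod] at p0; simp at p0
    · exact h
  set P := ‖t ^ 2 - 1‖ with hP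
  set r := P ^ (-(1 / 2) : ℝ) with hr
  have hr0 : 0 < r := Real.rpow_pos_of_pos p0 _
  have hrP : r ^ 2 * P = 1 := by
    rw [hr, ← Real.rpow_natCast, ← Real.rpow_mul p0.le]
    have h5 : (-(1 / 2) : ℝ) * ((2 : ℕ) : ℝ) = -1 := by norm_num
    rw [h5, Real.rpow_neg_one]
    exact inv_mul_cancel₀ p0.ne'
  have key : ∀ x : ℝ, 0 < x → x * P ≤ 9 → Real.log x ≤ 6 * r := by
    intro x hx hxP
    have hx1 : x ≤ (3 * r) ^ 2 := by
      have h6 : x * P ≤ (3 * r) ^ 2 * P := by nlinarith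
      exact le_of_mul_le_mul_right h6 p0
    have hx2 : Real.log x ≤ Real.log ((3 * r) ^ 2) := Real.log_le_log hx hx1
    rw [Real.log_pow] at hx2
    have hx3 : Real.log (3 * r) ≤ 3 * r - 1 := Real.log_le_sub_one_of_pos (by positivity)
    push_cast at hx2
    linarith
  have b1 : Real.log (‖t + 1‖ / ‖t - 1‖) ≤ 6 * r := by
    apply key _ (by positivity)
    rw [hprod]
    have : ‖t + 1‖ / ‖t - 1‖ * (‖t + 1‖ * ‖t - 1‖) = ‖t + 1‖ ^ 2 := by
      field_simp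
    rw [this]; nlinarith
  have b2 : Real.log (‖t - 1‖ / ‖t + 1‖) ≤ 6 * r := by
    apply key _ (by positivity)
    rw [hprod]
    have : ‖t - 1‖ / ‖t + 1‖ * (‖t + 1‖ * ‖t - 1‖) = ‖t - 1‖ ^ 2 := by
      field_simp
    rw [this]; nlinarith
  rw [← inv_div, Real.log_inv] at b2
  have b3 : |Real.log (‖t + 1‖ / ‖t - 1‖)| ≤ 6 * r := by
    rw [abs_le]; constructor <;> linarith
  rw [div_le_iff₀ h0]
  nlinarith

theorem gq_bound : ∃ C : ℝ, 0 < C ∧ ∀ q : ℂ, q ≠ 1 →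
    ‖gq q‖ ≤ C * (1 + ‖q - 1‖ ^ (-(1 / 2) : ℝ)) := by
  refine ⟨12, by norm_num, fun q hq => ?_⟩
  have h3 := sqrt_sq q
  set t := q ^ ((1 : ℂ) / 2) with ht
  rw [gq_of_sq h3]
  have hr : 0 ≤ ‖q - 1‖ ^ (-(1 / 2) : ℝ) := by positivity
  rcases le_total ‖t‖ (1 / 2) with h1 | h1
  · have := GG_bound_small h1; linarith
  rcases le_total ‖t‖ 2 with h2 | h2
  · have := GG_bound_mid h1 h2 (by rw [h3]; exact hq)
    rw [h3] at this; linarith
  · have := GG_bound_big h2; linarith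

end Pool.Agent.Helper24.K1
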