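import Pool.Agent.Helper24.K1.Ell

/-! Null sets. -/

noncomputable section

namespace Pool.Agent.Helper24.K1

open Complex MeasureTheory Set Filter Topology
open scoped ComplexConjugate PeriodPair

theorem coord_injective (L : PeriodPair) :
    Function.Injective (fun p : ℝ × ℝ => (p.1 * L.ω₁ + p.2 * L.ω₂ : ℂ)) := by
  rintro ⟨a, b⟩ ⟨c, d⟩ h
  have hi := L.indep
  rw [LinearIndependent.pair_iff] at hi
  obtain ⟨h1, h2⟩ := hi (a - c) (b - d) (by
    simp only at h
    simp only [Complex.real_smul]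
    push_cast
    linear_combination h)
  ext
  · simpa using sub_eq_zero.mp h1
  · simpa using sub_eq_zero.mp h2

theorem ae_not_mem (L : PeriodPair) {S : Set ℂ} (hS : S.Countable) :
    ∀ᵐ p : ℝ × ℝ, (p.1 * L.ω₁ + p.2 * L.ω₂ : ℂ) ∉ S := by
  have hc : ((fun p : ℝ × ℝ => (p.1 * L.ω₁ + p.2 * L.ω₂ : ℂ)) ⁻¹' S).Countable :=
    hS.preimage (coord_injective L)
  have h0 := hc.measure_zero (volume : Measure (ℝ × ℝ))
  rw [ae_iff]
  convert h0 using 2
  ext p
  simp

theorem countable_lattice (L : PeriodPair) : (L.lattice : Set ℂ).Countable := by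
  have : (L.lattice : Set ℂ) ⊆ Set.range (fun p : ℤ × ℤ => (p.1 * L.ω₁ + p.2 * L.ω₂ : ℂ)) := by
    intro z hz
    obtain ⟨m, n, h⟩ := PeriodPair.mem_lattice.mp hz
    exact ⟨(m, n), h⟩
  exact (countable_range _).mono this

theorem countable_fiber (L : PeriodPair) (c : ℂ) : {z | ℘[L] z = c}.Countable := by
  by_cases h : ∃ w, w ∉ L.lattice ∧ ℘[L] w = c
  · obtain ⟨w, hw, hwc⟩ := h
    have hsub : {z | ℘[L] z = c} ⊆ (L.lattice : Set ℂ) ∪
        ((fun l => l + w) '' (L.lattice : Set ℂ) ∪ (fun l => l - w) '' (L.lattice : Set ℂ)) := by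
      intro z hz
      by_cases hzl : z ∈ L.lattice
      · exact Or.inl hzl
      · right
        have h1 : ℘[L] z = ℘[L] w := by rw [hwc]; exact hz
        rcases (P_eq_iff L hzl hw).mp h1 with h2 | h2
        · exact Or.inl ⟨z - w, h2, by simp⟩
        · exact Or.inr ⟨z + w, h2, by simp⟩
    have hL := countable_lattice L
    exact (hL.union ((hL.image _).union (hL.image _))).mono hsub
  · push Not at h
    refine (countable_lattice L).mono ?_
    intro z hz
    by_contra hzl
    exact h z hzl hz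

end Pool.Agent.Helper24.K1
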