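import Pool.Agent.Helper24.K1.Basic

/-! Averages over a torus and over its cover by a sublattice torus agree; measurability of `℘`. -/

noncomputable section

namespace Pool.Agent.Helper24.K1

open Complex MeasureTheory Set Filter Topology
open scoped ComplexConjugate PeriodPair
open MeasureTheory.Measure

theorem measurable_P (L : PeriodPair) : Measurable ℘[L] := by
  have hc : (L.lattice : Set ℂ).Countable := by
    rw [Set.countable_coe_iff.symm]
    exact (L.latticeEquivProd.toEquiv).countable_iff.2 inferInstance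
  refine measurable_of_measurable_on_compl_countable (L.lattice : Set ℂ) hc ?_
  exact (continuousOn_iff_continuous_domRestrict.mp
    (L.differentiableOn_weierstrassP.continuousOn)).measurable

/-- the square as a product of half-open intervals -/
lemma restrict_sq : (volume : Measure (ℝ × ℝ)).restrict sq =
    (volume.restrict (Ioc (0 : ℝ) (0 + 1))).prod (volume.restrict (Ioc (0 : ℝ) (0 + 1))) := by
  rw [sq, Measure.volume_eq_prod, ← Measure.prod_restrict, zero_add,
    restrict_Ioc_eq_restrict_Icc]

lemma mp_mk : MeasurePreserving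
    (Prod.map ((↑) : ℝ → UnitAddCircle) ((↑) : ℝ → UnitAddCircle))
    ((volume : Measure (ℝ × ℝ)).restrict sq) (volume : Measure (UnitAddCircle × UnitAddCircle)) := by
  rw [restrict_sq]
  exact (UnitAddCircle.measurePreserving_mk 0).prod (UnitAddCircle.measurePreserving_mk 0)

/-- endomorphism of the 2-torus given by an integer matrix -/
def torHom (a b c d : ℤ) : UnitAddCircle × UnitAddCircle →+ UnitAddCircle × UnitAddCircle where
  toFun p := (a • p.1 + b • p.2, c • p.1 + d • p.2)
  map_zero' := by simp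
  map_add' p q := by
    simp only [Prod.fst_add, Prod.snd_add, smul_add, Prod.mk_add_mk, Prod.mk.injEq]
    constructor <;> abel

lemma torHom_cont (a b c d : ℤ) : Continuous (torHom a b c d) := by
  change Continuous fun p : UnitAddCircle × UnitAddCircle => (a • p.1 + b • p.2, c • p.1 + d • p.2)
  fun_prop

lemma torHom_mk (a b c d : ℤ) (x y : ℝ) :
    torHom a b c d ((x : UnitAddCircle), (y : UnitAddCircle)) =
      (((a * x + b * y : ℝ) : UnitAddCircle), ((c * x + d * y : ℝ) : UnitAddCircle)) := by
  change (a • (x : UnitAddCircle) + b • (y : UnitAddCircle),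
    c • (x : UnitAddCircle) + d • (y : UnitAddCircle)) = _
  rw [← AddCircle.coe_zsmul, ← AddCircle.coe_zsmul, ← AddCircle.coe_zsmul, ← AddCircle.coe_zsmul,
    ← AddCircle.coe_add, ← AddCircle.coe_add]
  simp only [zsmul_eq_mul]

lemma torHom_surj {a b c d : ℤ} (h : a * d - b * c ≠ 0) :
    Function.Surjective (torHom a b c d) := by
  rintro ⟨u, v⟩
  obtain ⟨x, rfl⟩ := QuotientAddGroup.mk_surjective u
  obtain ⟨y, rfl⟩ := QuotientAddGroup.mk_surjective v
  have hD : ((a : ℝ) * d - b * c) ≠ 0 := by exact_mod_cast h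
  refine ⟨(((d * x - b * y) / (a * d - b * c) : ℝ), ((a * y - c * x) / (a * d - b * c) : ℝ)), ?_⟩
  rw [torHom_mk]
  have h1 : (a : ℝ) * ((d * x - b * y) / (a * d - b * c)) +
      b * ((a * y - c * x) / (a * d - b * c)) = x := by
    rw [eq_comm, ← sub_eq_zero]
    have : x = (a * d - b * c) * x / (a * d - b * c) := by rw [mul_div_cancel_left₀ _ hD]
    nth_rewrite 1 [this]
    ring
  have h2 : (c : ℝ) * ((d * x - b * y) / (a * d - b * c)) +
      d * ((a * y - c * x) / (a * d - b * c)) = y := by
    rw [eq_comm, ← sub_eq_zero]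
    have : y = (a * d - b * c) * y / (a * d - b * c) := by rw [mul_div_cancel_left₀ _ hD]
    nth_rewrite 1 [this]
    ring
  rw [h1, h2]

theorem avg_eq_avg {L₁ L : PeriodPair} (hL : L₁.lattice ≤ L.lattice) {F : ℂ → ℂ}
    (hF : Measurable F) (hper : ∀ l ∈ L.lattice, ∀ z, F (z + l) = F z) :
    avg L₁ F = avg L F := by
  obtain ⟨a, c, hac⟩ := PeriodPair.mem_lattice.1 (hL L₁.ω₁_mem_lattice)
  obtain ⟨b, d, hbd⟩ := PeriodPair.mem_lattice.1 (hL L₁.ω₂_mem_lattice)
  -- determinant
  have hdet : a * d - b * c ≠ 0 := by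
    intro h0
    have hli := LinearIndependent.pair_iff.mp L₁.indep
    have hR : ((a : ℝ) * d - b * c) = 0 := by exact_mod_cast h0
    have hC : ((a : ℂ) * d - b * c) = 0 := by exact_mod_cast h0
    have e1 := hli (d : ℝ) (-(c : ℝ)) (by
      simp only [Complex.real_smul, Complex.ofReal_neg, Complex.ofReal_intCast]
      rw [← hac, ← hbd]; linear_combination L.ω₁ * hC)
    have e2 := hli (b : ℝ) (-(a : ℝ)) (by
      simp only [Complex.real_smul, Complex.ofReal_neg, Complex.ofReal_intCast]
      rw [← hac, ← hbd]; linear_combination (-L.ω₂) * hC)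
    have hb : (b : ℝ) = 0 := e2.1
    have hd : (d : ℝ) = 0 := e1.1
    have : L₁.ω₂ = 0 := by
      rw [← hbd]
      have : (b : ℂ) = 0 := by exact_mod_cast hb
      have : (d : ℂ) = 0 := by exact_mod_cast hd
      simp [*]
    have := hli 0 1 (by simp [this])
    exact one_ne_zero this.2
  -- descend to the torus
  let s : UnitAddCircle → ℝ := fun u => (AddCircle.equivIoc (1 : ℝ) 0 u : ℝ)
  have hs : Measurable s :=
    measurable_subtype_coe.comp (AddCircle.measurableEquivIoc (1 : ℝ) 0).measurable
  have hsx : ∀ x : ℝ, ∃ n : ℤ, s (x : UnitAddCircle) = x + n := by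
    intro x
    have h1 : ((s (x : UnitAddCircle) : ℝ) : UnitAddCircle) = x :=
      (AddCircle.equivIoc (1 : ℝ) 0).symm_apply_apply _
    have h2 : ((s (x : UnitAddCircle) - x : ℝ) : UnitAddCircle) = 0 := by
      rw [AddCircle.coe_sub, h1, sub_self]
    obtain ⟨n, hn⟩ := (AddCircle.coe_eq_zero_iff (1 : ℝ)).1 h2
    refine ⟨n, ?_⟩
    simp only [zsmul_eq_mul, mul_one] at hn
    linarith
  let G : UnitAddCircle × UnitAddCircle → ℂ := fun p => F (s p.1 * L.ω₁ + s p.2 * L.ω₂)
  have hG : Measurable G := by
    apply hF.comp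
    have h1 : Measurable fun p : UnitAddCircle × UnitAddCircle => ((s p.1 : ℝ) : ℂ) :=
      Complex.measurable_ofReal.comp (hs.comp measurable_fst)
    have h2 : Measurable fun p : UnitAddCircle × UnitAddCircle => ((s p.2 : ℝ) : ℂ) :=
      Complex.measurable_ofReal.comp (hs.comp measurable_snd)
    exact (h1.mul_const _).add (h2.mul_const _)
  have hGmk : ∀ x y : ℝ, G ((x : UnitAddCircle), (y : UnitAddCircle)) =
      F (x * L.ω₁ + y * L.ω₂) := by
    intro x y
    obtain ⟨m, hm⟩ := hsx x
    obtain ⟨n, hn⟩ := hsx y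
    change F (s x * L.ω₁ + s y * L.ω₂) = _
    rw [hm, hn, ← hper ((m : ℂ) * L.ω₁ + n * L.ω₂) (PeriodPair.mem_lattice.2 ⟨m, n, rfl⟩)
      (x * L.ω₁ + y * L.ω₂)]
    congr 1
    push_cast
    ring
  have mp := mp_mk
  have hA1 : IsAddHaarMeasure (volume : Measure UnitAddCircle) :=
    inferInstanceAs (IsAddHaarMeasure (volume : Measure (AddCircle (1 : ℝ))))
  have hA : IsAddHaarMeasure (volume : Measure (UnitAddCircle × UnitAddCircle)) := by
    rw [Measure.volume_eq_prod]
    exact Measure.prod.instIsAddHaarMeasure _ _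
  have hmpA : MeasurePreserving (torHom a b c d) volume volume :=
    AddMonoidHom.measurePreserving (torHom_cont a b c d) (torHom_surj hdet) rfl
  have key : ∀ H : UnitAddCircle × UnitAddCircle → ℂ, Measurable H →
      ∫ p in sq, H ((p.1 : UnitAddCircle), (p.2 : UnitAddCircle)) = ∫ q, H q := by
    intro H hH
    rw [← mp.map_eq, integral_map mp.measurable.aemeasurable hH.aestronglyMeasurable]
    rfl
  have e1 : avg L F = ∫ q, G q := by
    rw [← key G hG]
    simp only [avg, hGmk]
  have e2 : avg L₁ F = ∫ q, G (torHom a b c d q) := by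
    rw [← key (fun q => G (torHom a b c d q)) (hG.comp (torHom_cont a b c d).measurable)]
    simp only [avg, torHom_mk, hGmk]
    congr 1
    ext p
    congr 1
    rw [← hac, ← hbd]
    push_cast
    ring
  rw [e1, e2, ← integral_map (torHom_cont a b c d).measurable.aemeasurable
    (by rw [hmpA.map_eq]; exact hG.aestronglyMeasurable), hmpA.map_eq]

end Pool.Agent.Helper24.K1
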