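import Pool.Agent.Helper24.K1.Lim
import Pool.Agent.Helper24.K1.LogM
import Pool.Agent.Helper24.K1.NullSets
import Pool.Agent.Helper24.K1.Tor

/-! K1 module AVG: positivity and continuity of the average `AA`. -/

noncomputable section

namespace Pool.Agent.Helper24.K1

open Complex MeasureTheory Set Filter Topology
open scoped ComplexConjugate PeriodPair

/-- distance to the end points of the unit interval, to the power `-1/2` -/
def ddh (x : ℝ) : ℝ := (min x (1 - x)) ^ (-(1 / 2) : ℝ)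

theorem measurable_ddh : Measurable ddh := by
  unfold ddh
  fun_prop

theorem integrable_ddh : IntegrableOn ddh (Ioo 0 1) := by
  have h1 : IntegrableOn (fun x : ℝ => x ^ (-(1 / 2) : ℝ)) (Ioo 0 1) := by
    have h := intervalIntegral.intervalIntegrable_rpow' (a := 0) (b := 1) (r := -(1 / 2))
      (by norm_num)
    rw [intervalIntegrable_iff_integrableOn_Ioo_of_le zero_le_one] at h
    exact h
  have h2 : IntegrableOn (fun x : ℝ => (1 - x) ^ (-(1 / 2) : ℝ)) (Ioo 0 1) := by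
    have h := intervalIntegral.intervalIntegrable_rpow' (a := 0) (b := 1) (r := -(1 / 2))
      (by norm_num)
    have h' := (h.comp_sub_left 1).symm
    simp only [sub_zero, sub_self] at h'
    rw [intervalIntegrable_iff_integrableOn_Ioo_of_le zero_le_one] at h'
    exact h'
  have h3 := h1.add h2
  refine Integrable.mono' h3 measurable_ddh.aestronglyMeasurable ?_
  filter_upwards [ae_restrict_mem measurableSet_Ioo] with x hx
  have hx0 : 0 < x := hx.1
  have hx1 : 0 < 1 - x := by linarith [hx.2]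
  have hm : 0 < min x (1 - x) := lt_min hx0 hx1
  have hnn : ‖ddh x‖ = ddh x := Real.norm_of_nonneg (Real.rpow_nonneg hm.le _)
  rw [hnn]
  unfold ddh
  simp only [Pi.add_apply]
  rcases min_choice x (1 - x) with h | h
  · rw [h]
    have := Real.rpow_nonneg hx1.le (-(1 / 2) : ℝ)
    linarith
  · rw [h]
    have := Real.rpow_nonneg hx0.le (-(1 / 2) : ℝ)
    linarith

theorem restrict_sq_Ioo : (volume : Measure (ℝ × ℝ)).restrict sq =
    (volume : Measure (ℝ × ℝ)).restrict (Ioo (0 : ℝ) 1 ×ˢ Ioo (0 : ℝ) 1) := by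
  have h1 : (volume : Measure (ℝ × ℝ)) = (volume : Measure ℝ).prod (volume : Measure ℝ) := rfl
  have h2 : (volume : Measure ℝ).restrict (Icc (0 : ℝ) 1) =
      (volume : Measure ℝ).restrict (Ioo (0 : ℝ) 1) :=
    Measure.restrict_congr_set Ioo_ae_eq_Icc.symm
  rw [h1, ← Measure.prod_restrict, ← Measure.prod_restrict, h2]

theorem integrable_dom (A B : ℝ) : Integrable (fun p : ℝ × ℝ => A + B * (ddh p.1 * ddh p.2))
    ((volume : Measure (ℝ × ℝ)).restrict sq) := by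
  rw [restrict_sq_Ioo]
  have h1 : (volume : Measure (ℝ × ℝ)) = (volume : Measure ℝ).prod (volume : Measure ℝ) := rfl
  have h2 : Integrable (fun p : ℝ × ℝ => ddh p.1 * ddh p.2)
      ((volume : Measure (ℝ × ℝ)).restrict (Ioo (0 : ℝ) 1 ×ˢ Ioo (0 : ℝ) 1)) := by
    rw [h1, ← Measure.prod_restrict]
    exact integrable_ddh.mul_prod integrable_ddh
  have h3 : Integrable (fun _ : ℝ × ℝ => A)
      ((volume : Measure (ℝ × ℝ)).restrict (Ioo (0 : ℝ) 1 ×ˢ Ioo (0 : ℝ) 1)) := by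
    have : IsFiniteMeasure
        ((volume : Measure (ℝ × ℝ)).restrict (Ioo (0 : ℝ) 1 ×ˢ Ioo (0 : ℝ) 1)) := by
      rw [h1, ← Measure.prod_restrict]
      infer_instance
    exact integrable_const A
  exact h3.add (h2.const_mul B)

/-- algebraic part of the bound -/
theorem qq_sub_one {L : PeriodPair} {b z : ℂ} (h : xx L z ≠ lam L) :
    qq L b z - 1 = (lam L - b) / (xx L z - lam L) := by
  unfold qq
  have h' : xx L z - lam L ≠ 0 := sub_ne_zero.mpr h
  field_simp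
  ring

theorem qq_ne_one {L : PeriodPair} {b : ℂ} (hb : lam L ≠ b) (z : ℂ) : qq L b z ≠ 1 := by
  by_cases h : xx L z = lam L
  · unfold qq
    rw [h, sub_self, div_zero]
    exact zero_ne_one
  · intro h1
    have h2 := qq_sub_one (b := b) h
    rw [h1, sub_self] at h2
    rcases div_eq_zero_iff.mp h2.symm with h3 | h3
    · exact hb (sub_eq_zero.mp h3)
    · exact h (sub_eq_zero.mp h3)

theorem gq_qq_bound {L : PeriodPair} {b z : ℂ} {C K M x y : ℝ} (hb : lam L ≠ b)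
    (hC : ∀ q : ℂ, q ≠ 1 → ‖gq q‖ ≤ C * (1 + ‖q - 1‖ ^ (-(1 / 2) : ℝ)))
    (hC0 : 0 < C)
    (hx : x ∈ Ioo (0 : ℝ) 1) (hy : y ∈ Ioo (0 : ℝ) 1)
    (hK : ‖℘[L] z‖ ≤ K / (max (min x (1 - x)) (min y (1 - y))) ^ 2) (hK0 : 0 < K)
    (hM : (K / ‖del L‖ + ‖e1 L‖ / ‖del L‖ + ‖lam L‖) / ‖lam L - b‖ ≤ M) :
    ‖gq (qq L b z)‖ ≤ 2 * C + (C * M ^ (1 / 2 : ℝ)) * (ddh x * ddh y) := by
  have hx0 : 0 < min x (1 - x) := lt_min hx.1 (by linarith [hx.2])
  have hy0 : 0 < min y (1 - y) := lt_min hy.1 (by linarith [hy.2])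
  have hx1 : min x (1 - x) ≤ 1 := le_trans (min_le_left _ _) hx.2.le
  have hy1 : min y (1 - y) ≤ 1 := le_trans (min_le_left _ _) hy.2.le
  set a := min x (1 - x) with ha
  set c := min y (1 - y) with hc
  have hdel : 0 < ‖del L‖ := norm_pos_iff.mpr (del_ne L)
  have hlb : 0 < ‖lam L - b‖ := norm_pos_iff.mpr (sub_ne_zero.mpr hb)
  have hM0 : 0 ≤ M := le_trans (by positivity) hM
  have hdd : 0 ≤ ddh x * ddh y := by
    unfold ddh
    rw [← ha, ← hc]
    positivity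
  by_cases h : xx L z = lam L
  · have hq : qq L b z = 0 := by unfold qq; rw [h, sub_self, div_zero]
    rw [hq]
    have h1 := hC 0 zero_ne_one
    have h2 : ‖(0 : ℂ) - 1‖ = 1 := by simp
    rw [h2, Real.one_rpow] at h1
    have : 0 ≤ (C * M ^ (1 / 2 : ℝ)) * (ddh x * ddh y) := by positivity
    linarith
  · have h1 := hC _ (qq_ne_one hb z)
    rw [qq_sub_one h] at h1
    have hxl : 0 < ‖xx L z - lam L‖ := norm_pos_iff.mpr (sub_ne_zero.mpr h)
    have h2 : ‖(lam L - b) / (xx L z - lam L)‖ ^ (-(1 / 2) : ℝ) =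
        (‖xx L z - lam L‖ / ‖lam L - b‖) ^ (1 / 2 : ℝ) := by
      rw [norm_div, Real.rpow_neg (by positivity), ← Real.inv_rpow (by positivity), inv_div]
    rw [h2] at h1
    have h3 : ‖℘[L] z‖ ≤ K / (a * c) := by
      refine hK.trans ?_
      apply div_le_div_of_nonneg_left hK0.le (by positivity)
      have h4 : a ≤ max a c := le_max_left _ _
      have h5 : c ≤ max a c := le_max_right _ _
      calc a * c ≤ max a c * max a c := mul_le_mul h4 h5 hy0.le (hx0.le.trans h4)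
        _ = (max a c) ^ 2 := by ring
    have hac : a * c ≤ 1 := mul_le_one₀ hx1 hy0.le hy1
    have hac0 : 0 < a * c := by positivity
    have h4 : ‖xx L z - lam L‖ ≤
        (K / ‖del L‖ + ‖e1 L‖ / ‖del L‖ + ‖lam L‖) / (a * c) := by
      have h5 : ‖xx L z‖ ≤ (K / (a * c) + ‖e1 L‖) / ‖del L‖ := by
        unfold xx
        rw [norm_div]
        apply div_le_div_of_nonneg_right _ hdel.le
        exact (norm_sub_le _ _).trans (by linarith)
      have h6 : ‖xx L z - lam L‖ ≤ (K / (a * c) + ‖e1 L‖) / ‖del L‖ + ‖lam L‖ :=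
        (norm_sub_le _ _).trans (by linarith)
      refine h6.trans ?_
      have h7 : ∀ t : ℝ, 0 ≤ t → t ≤ t / (a * c) := by
        intro t ht
        rw [le_div_iff₀ hac0]
        nlinarith
      have h8 := h7 (‖e1 L‖ / ‖del L‖) (by positivity)
      have h9 := h7 ‖lam L‖ (norm_nonneg _)
      have h10 : (K / (a * c) + ‖e1 L‖) / ‖del L‖ = K / ‖del L‖ / (a * c) + ‖e1 L‖ / ‖del L‖ := by
        field_simp
      rw [h10, add_div, add_div]
      linarith
    have h5 : ‖xx L z - lam L‖ / ‖lam L - b‖ ≤ M / (a * c) := by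
      calc ‖xx L z - lam L‖ / ‖lam L - b‖
          ≤ ((K / ‖del L‖ + ‖e1 L‖ / ‖del L‖ + ‖lam L‖) / (a * c)) / ‖lam L - b‖ := by
            apply div_le_div_of_nonneg_right h4 hlb.le
        _ = ((K / ‖del L‖ + ‖e1 L‖ / ‖del L‖ + ‖lam L‖) / ‖lam L - b‖) / (a * c) := by
            field_simp
        _ ≤ M / (a * c) := div_le_div_of_nonneg_right hM hac0.le
    have h6 : (‖xx L z - lam L‖ / ‖lam L - b‖) ^ (1 / 2 : ℝ) ≤
        M ^ (1 / 2 : ℝ) * (ddh x * ddh y) := by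
      calc (‖xx L z - lam L‖ / ‖lam L - b‖) ^ (1 / 2 : ℝ) ≤ (M / (a * c)) ^ (1 / 2 : ℝ) :=
            Real.rpow_le_rpow (by positivity) h5 (by norm_num)
        _ = M ^ (1 / 2 : ℝ) * (ddh x * ddh y) := by
            unfold ddh
            rw [← ha, ← hc, Real.div_rpow hM0 hac0.le, Real.mul_rpow hx0.le hy0.le,
              Real.rpow_neg hx0.le, Real.rpow_neg hy0.le, div_eq_mul_inv, mul_inv]
    calc ‖gq (qq L b z)‖ ≤ C * (1 + (‖xx L z - lam L‖ / ‖lam L - b‖) ^ (1 / 2 : ℝ)) := h1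
      _ ≤ C * (1 + M ^ (1 / 2 : ℝ) * (ddh x * ddh y)) := by
          apply mul_le_mul_of_nonneg_left _ hC0.le
          linarith
      _ ≤ 2 * C + (C * M ^ (1 / 2 : ℝ)) * (ddh x * ddh y) := by nlinarith


theorem measurable_gq_qq (L : PeriodPair) (b ω₁ ω₂ : ℂ) :
    Measurable fun p : ℝ × ℝ => gq (qq L b (p.1 * ω₁ + p.2 * ω₂)) := by
  have h1 : Measurable fun p : ℝ × ℝ => ((p.1 : ℂ) * ω₁ + (p.2 : ℂ) * ω₂) := by fun_prop
  have h2 : Measurable fun p : ℝ × ℝ => ℘[L] ((p.1 : ℂ) * ω₁ + (p.2 : ℂ) * ω₂) :=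
    (measurable_P L).comp h1
  have h3 : Measurable fun p : ℝ × ℝ => xx L ((p.1 : ℂ) * ω₁ + (p.2 : ℂ) * ω₂) := by
    unfold xx
    exact (h2.sub_const _).div_const _
  have h4 : Measurable fun p : ℝ × ℝ => qq L b ((p.1 : ℂ) * ω₁ + (p.2 : ℂ) * ω₂) := by
    unfold qq
    exact (h3.sub_const _).div (h3.sub_const _)
  exact gq_measurable.comp h4

section seq

variable {Ln : ℕ → PeriodPair} {L : PeriodPair}

/-- uniform domination of the integrands -/
theorem gq_qq_dom {b : ℂ} (h₁ : Tendsto (fun n => (Ln n).ω₁) atTop (𝓝 L.ω₁))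
    (h₂ : Tendsto (fun n => (Ln n).ω₂) atTop (𝓝 L.ω₂)) (h : lam L ≠ b) :
    ∃ A B : ℝ, ∀ᶠ n in atTop, ∀ x ∈ Ioo (0 : ℝ) 1, ∀ y ∈ Ioo (0 : ℝ) 1,
      ‖gq (qq (Ln n) b (x * (Ln n).ω₁ + y * (Ln n).ω₂))‖ ≤ A + B * (ddh x * ddh y) := by
  obtain ⟨C, hC0, hC⟩ := gq_bound
  obtain ⟨K, hK0, hK⟩ := P_bound h₁ h₂
  have hd := del_tendsto h₁ h₂
  have hl := lam_tendsto h₁ h₂
  have he := e1_tendsto h₁ h₂
  have hdel : ‖del L‖ ≠ 0 := norm_ne_zero_iff.mpr (del_ne L)
  have hlb : ‖lam L - b‖ ≠ 0 := norm_ne_zero_iff.mpr (sub_ne_zero.mpr h)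
  have hT : Tendsto (fun n => (K / ‖del (Ln n)‖ + ‖e1 (Ln n)‖ / ‖del (Ln n)‖ + ‖lam (Ln n)‖) /
      ‖lam (Ln n) - b‖) atTop
      (𝓝 ((K / ‖del L‖ + ‖e1 L‖ / ‖del L‖ + ‖lam L‖) / ‖lam L - b‖)) :=
    (((tendsto_const_nhds.div hd.norm hdel).add (he.norm.div hd.norm hdel)).add hl.norm).div
      (hl.sub_const b).norm hlb
  have hE1 := hT.eventually (gt_mem_nhds (lt_add_one _))
  have hE2 : ∀ᶠ n in atTop, lam (Ln n) ≠ b := hl.eventually_ne h
  refine ⟨2 * C, C * ((K / ‖del L‖ + ‖e1 L‖ / ‖del L‖ + ‖lam L‖) / ‖lam L - b‖ + 1) ^ (1 / 2 : ℝ),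
    ?_⟩
  filter_upwards [hE1, hE2, hK] with n h1 h2 h3 x hx y hy
  exact gq_qq_bound h2 hC hC0 hx hy (h3 x hx y hy) hK0 h1.le

end seq

/-- the points to avoid -/
def bad (L : PeriodPair) (b : ℂ) : Set ℂ :=
  (L.lattice : Set ℂ) ∪ ({z | xx L z = b} ∪ {z | xx L z = lam L})

theorem countable_bad (L : PeriodPair) (b : ℂ) : (bad L b).Countable := by
  have h : ∀ c : ℂ, {z | xx L z = c}.Countable := by
    intro c
    refine (countable_fiber L (c * del L + e1 L)).mono ?_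
    intro z hz
    change xx L z = c at hz
    change ℘[L] z = c * del L + e1 L
    unfold xx at hz
    rw [div_eq_iff (del_ne L)] at hz
    rw [← hz]
    ring
  exact (countable_lattice L).union ((h _).union (h _))

theorem qq_pointwise {Ln : ℕ → PeriodPair} {L : PeriodPair} {b : ℂ}
    (h₁ : Tendsto (fun n => (Ln n).ω₁) atTop (𝓝 L.ω₁))
    (h₂ : Tendsto (fun n => (Ln n).ω₂) atTop (𝓝 L.ω₂)) (h : lam L ≠ b) {x y : ℝ}
    (hxy : (x * L.ω₁ + y * L.ω₂ : ℂ) ∉ bad L b) :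
    Tendsto (fun n => gq (qq (Ln n) b (x * (Ln n).ω₁ + y * (Ln n).ω₂))) atTop
      (𝓝 (gq (qq L b (x * L.ω₁ + y * L.ω₂)))) := by
  have hb1 : (x * L.ω₁ + y * L.ω₂ : ℂ) ∉ L.lattice := fun hh => hxy (Or.inl hh)
  have hb2 : xx L (x * L.ω₁ + y * L.ω₂) ≠ b := fun hh => hxy (Or.inr (Or.inl hh))
  have hb3 : xx L (x * L.ω₁ + y * L.ω₂) ≠ lam L := fun hh => hxy (Or.inr (Or.inr hh))
  have hP := P_tendsto h₁ h₂ (x := x) (y := y) (by
    rintro ⟨⟨m, hm⟩, ⟨n, hn⟩⟩
    apply hb1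
    rw [PeriodPair.mem_lattice]
    refine ⟨m, n, ?_⟩
    rw [hm, hn]
    push_cast
    rfl)
  have hx : Tendsto (fun n => xx (Ln n) (x * (Ln n).ω₁ + y * (Ln n).ω₂)) atTop
      (𝓝 (xx L (x * L.ω₁ + y * L.ω₂))) :=
    (hP.sub (e1_tendsto h₁ h₂)).div (del_tendsto h₁ h₂) (del_ne L)
  have hq : Tendsto (fun n => qq (Ln n) b (x * (Ln n).ω₁ + y * (Ln n).ω₂)) atTop
      (𝓝 (qq L b (x * L.ω₁ + y * L.ω₂))) :=
    (hx.sub_const b).div (hx.sub (lam_tendsto h₁ h₂)) (sub_ne_zero.mpr hb3)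
  have h0 : qq L b (x * L.ω₁ + y * L.ω₂) ≠ 0 := by
    unfold qq
    exact div_ne_zero (sub_ne_zero.mpr hb2) (sub_ne_zero.mpr hb3)
  exact (gq_continuousAt h0 (qq_ne_one h _)).tendsto.comp hq

theorem AA_tendsto {Ln : ℕ → PeriodPair} {L : PeriodPair} {b : ℂ}
    (h₁ : Tendsto (fun n => (Ln n).ω₁) atTop (𝓝 L.ω₁))
    (h₂ : Tendsto (fun n => (Ln n).ω₂) atTop (𝓝 L.ω₂)) (h : lam L ≠ b) :
    Tendsto (fun n => AA (Ln n) b) atTop (𝓝 (AA L b)) := by
  obtain ⟨A, B, hAB⟩ := gq_qq_dom h₁ h₂ h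
  unfold AA avg
  refine tendsto_integral_filter_of_dominated_convergence
    (fun p : ℝ × ℝ => A + B * (ddh p.1 * ddh p.2)) ?_ ?_ (integrable_dom A B) ?_
  · exact Eventually.of_forall fun n => (measurable_gq_qq (Ln n) b _ _).aestronglyMeasurable
  · filter_upwards [hAB] with n hn
    rw [restrict_sq_Ioo]
    filter_upwards [ae_restrict_mem (measurableSet_Ioo.prod measurableSet_Ioo)] with p hp
    exact hn p.1 hp.1 p.2 hp.2
  · filter_upwards [ae_restrict_of_ae (ae_not_mem L (countable_bad L b))] with p hp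
    exact qq_pointwise h₁ h₂ h hp

theorem eventually_qq {L : PeriodPair} {b : ℂ} :
    ∀ᶠ z in 𝓝[≠] (0 : ℂ), 0 < (qq L b z).re := by
  have h1 : Tendsto ℘[L] (𝓝[≠] (0 : ℂ)) (Bornology.cobounded ℂ) := by
    apply tendsto_cobounded_of_meromorphicOrderAt_neg
    rw [L.order_weierstrassP 0 (zero_mem _)]
    decide
  have h2 : Tendsto (fun u : ℂ => ((u - e1 L) / del L - b) / ((u - e1 L) / del L - lam L))
      (Bornology.cobounded ℂ) (𝓝 1) := by
    have hinv : Tendsto (fun u : ℂ => u⁻¹) (Bornology.cobounded ℂ) (𝓝 0) := tendsto_inv₀_cobounded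
    have h3 : Tendsto (fun u : ℂ => ((1 - e1 L * u⁻¹) / del L - b * u⁻¹) /
        ((1 - e1 L * u⁻¹) / del L - lam L * u⁻¹)) (Bornology.cobounded ℂ)
        (𝓝 (((1 - e1 L * 0) / del L - b * 0) / ((1 - e1 L * 0) / del L - lam L * 0))) := by
      refine Tendsto.div ?_ ?_ ?_
      · exact ((tendsto_const_nhds.sub (hinv.const_mul _)).div_const _).sub (hinv.const_mul _)
      · exact ((tendsto_const_nhds.sub (hinv.const_mul _)).div_const _).sub (hinv.const_mul _)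
      · simp [del_ne L]
    have h4 : ((1 - e1 L * 0) / del L - b * 0) / ((1 - e1 L * 0) / del L - lam L * 0) = 1 := by
      have := del_ne L
      simp only [mul_zero, sub_zero]
      exact div_self (div_ne_zero one_ne_zero this)
    rw [h4] at h3
    refine h3.congr' ?_
    have h5 : ∀ᶠ u : ℂ in Bornology.cobounded ℂ, u ≠ 0 := by
      exact Bornology.eventually_ne_cobounded 0
    filter_upwards [h5] with u hu
    have e : ∀ c : ℂ, (1 - e1 L * u⁻¹) / del L - c * u⁻¹ = u⁻¹ * ((u - e1 L) / del L - c) := by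
      intro c
      have := del_ne L
      field_simp
    rw [e b, e (lam L), mul_div_mul_left _ _ (inv_ne_zero hu)]
  have h3 := h2.comp h1
  have h4 : Tendsto (fun z => (qq L b z).re) (𝓝[≠] (0 : ℂ)) (𝓝 1) := by
    exact (Complex.continuous_re.tendsto (1 : ℂ)).comp h3
  exact h4.eventually (lt_mem_nhds one_pos)

theorem AA_re_pos {L : PeriodPair} {b : ℂ} (h : lam L ≠ b) : 0 < (AA L b).re := by
  obtain ⟨A, B, hAB⟩ := gq_qq_dom (Ln := fun _ => L) (L := L) tendsto_const_nhds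
    tendsto_const_nhds h
  have hAB' := (eventually_const.mp hAB)
  have hint : Integrable (fun p : ℝ × ℝ => gq (qq L b (p.1 * L.ω₁ + p.2 * L.ω₂)))
      ((volume : Measure (ℝ × ℝ)).restrict sq) := by
    refine Integrable.mono' (integrable_dom A B)
      (measurable_gq_qq L b _ _).aestronglyMeasurable ?_
    rw [restrict_sq_Ioo]
    filter_upwards [ae_restrict_mem (measurableSet_Ioo.prod measurableSet_Ioo)] with p hp
    exact hAB' p.1 hp.1 p.2 hp.2
  have hre : (AA L b).re =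
      ∫ p in Ioo (0 : ℝ) 1 ×ˢ Ioo (0 : ℝ) 1, (gq (qq L b (p.1 * L.ω₁ + p.2 * L.ω₂))).re := by
    unfold AA avg
    rw [← restrict_sq_Ioo]
    exact (Complex.reCLM.integral_comp_comm hint).symm
  rw [hre]
  rw [restrict_sq_Ioo] at hint
  have hint' : Integrable (fun p : ℝ × ℝ => (gq (qq L b (p.1 * L.ω₁ + p.2 * L.ω₂))).re)
      ((volume : Measure (ℝ × ℝ)).restrict (Ioo (0 : ℝ) 1 ×ˢ Ioo (0 : ℝ) 1)) := hint.re
  rw [integral_pos_iff_support_of_nonneg (fun p => gq_re_nonneg _) hint']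
  obtain ⟨V, hV, hVo, hV0⟩ : ∃ V : Set ℂ, (∀ z ∈ V, z ≠ 0 → 0 < (qq L b z).re) ∧ IsOpen V ∧
      (0 : ℂ) ∈ V := by
    have := eventually_qq (L := L) (b := b)
    rw [eventually_nhdsWithin_iff] at this
    obtain ⟨V, h1, h2, h3⟩ := eventually_nhds_iff.mp this
    exact ⟨V, fun z hz hz0 => h1 z hz hz0, h2, h3⟩
  have hφ : Continuous fun p : ℝ × ℝ => ((p.1 : ℂ) * L.ω₁ + (p.2 : ℂ) * L.ω₂) := by fun_prop
  set W : Set (ℝ × ℝ) := (fun p : ℝ × ℝ => ((p.1 : ℂ) * L.ω₁ + (p.2 : ℂ) * L.ω₂)) ⁻¹' V ∩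
    (Ioo (0 : ℝ) 1 ×ˢ Ioo (0 : ℝ) 1) with hW
  have hWo : IsOpen W := (hVo.preimage hφ).inter (isOpen_Ioo.prod isOpen_Ioo)
  have hWn : W.Nonempty := by
    have hcl : ((0 : ℝ), (0 : ℝ)) ∈ closure (Ioo (0 : ℝ) 1 ×ˢ Ioo (0 : ℝ) 1) := by
      rw [closure_prod_eq, closure_Ioo zero_ne_one]
      simp
    rw [mem_closure_iff] at hcl
    exact hcl _ (hVo.preimage hφ) (by simpa using hV0)
  have hsub : W ⊆ Function.support (fun p : ℝ × ℝ =>
      (gq (qq L b (p.1 * L.ω₁ + p.2 * L.ω₂))).re) := by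
    intro p hp
    rw [Function.mem_support]
    apply ne_of_gt
    apply gq_re_pos (qq_ne_one h _)
    apply hV _ hp.1
    intro h0
    have h1 := (LinearIndependent.pair_iff.mp L.indep) p.1 p.2 (by
      simpa [Complex.real_smul] using h0)
    exact absurd h1.1 (ne_of_gt hp.2.1.1)
  calc (0 : ENNReal) < volume W := hWo.measure_pos volume hWn
    _ = ((volume : Measure (ℝ × ℝ)).restrict (Ioo (0 : ℝ) 1 ×ˢ Ioo (0 : ℝ) 1)) W := by
        rw [Measure.restrict_apply hWo.measurableSet, hW, inter_assoc, inter_self]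
    _ ≤ _ := measure_mono hsub

end Pool.Agent.Helper24.K1
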