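import Pool.Agent.Helper24.K1.Defs

/-! Definitions for the main element of `K₁(E₁ × E₂)` (used only in proofs). -/

noncomputable section

namespace Pool.Agent.Helper24.K1

open Complex MeasureTheory Set Filter Topology
open scoped ComplexConjugate PeriodPair

/-- values of `℘` at the half periods -/
def e1 (L : PeriodPair) : ℂ := ℘[L] (L.ω₁ / 2)
def e2 (L : PeriodPair) : ℂ := ℘[L] (L.ω₂ / 2)
def e3 (L : PeriodPair) : ℂ := ℘[L] ((L.ω₁ + L.ω₂) / 2)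
def del (L : PeriodPair) : ℂ := e2 L - e1 L
/-- Legendre parameter -/
def lam (L : PeriodPair) : ℂ := (e3 L - e1 L) / del L
/-- Legendre coordinate -/
def xx (L : PeriodPair) (z : ℂ) : ℂ := (℘[L] z - e1 L) / del L

def qq (L : PeriodPair) (b z : ℂ) : ℂ := (xx L z - b) / (xx L z - lam L)

/-- the curve `x₁(z) = x₂(w)` in `ℂ²` -/
def ZZ (L L₂ : PeriodPair) : Set (ℂ × ℂ) :=
  {p | (p.1 ∈ L.lattice ∧ p.2 ∈ L₂.lattice) ∨
    (p.1 ∉ L.lattice ∧ p.2 ∉ L₂.lattice ∧ xx L p.1 = xx L₂ p.2)}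

/-- the function `(w - y)/(w + y)` -/
def ff (κ : ℂ) (L L₂ : PeriodPair) (p : ℂ × ℂ) : ℂ :=
  (κ * ℘'[L₂] p.2 - ℘'[L] p.1) / (κ * ℘'[L₂] p.2 + ℘'[L] p.1)

def mainT (κ : ℂ) (L L₂ : PeriodPair) : Term := ⟨1, ZZ L L₂, ff κ L L₂⟩

/-- `log |(t + 1)/(t - 1)| / conj t` -/
def GG (t : ℂ) : ℂ := (Real.log (‖t + 1‖ / ‖t - 1‖) : ℂ) / conj t

/-- `GG t` as a function of `q = t ^ 2` -/
def gq (q : ℂ) : ℂ := GG (q ^ ((1 : ℂ) / 2))

/-- unit square -/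
abbrev sq : Set (ℝ × ℝ) := Icc (0 : ℝ) 1 ×ˢ Icc (0 : ℝ) 1

/-- average over `ℂ / L` -/
def avg (L : PeriodPair) (F : ℂ → ℂ) : ℂ := ∫ p in sq, F (p.1 * L.ω₁ + p.2 * L.ω₂)

def AA (L : PeriodPair) (b : ℂ) : ℂ := avg L fun z => gq (qq L b z)

end Pool.Agent.Helper24.K1
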