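import Pool.Agent.Helper24.K1.LCdef

/-! Local branches of `U₁(z)^m₁ = U₂(w)^m₂`. -/

noncomputable section

namespace Pool.Agent.Helper24.K1

open Complex MeasureTheory Set Filter Topology
open scoped ComplexConjugate

theorem isBranches_empty {Z : Set (ℂ × ℂ)} {p : ℂ × ℂ} (h : ∀ᶠ q in 𝓝 p, q ∉ Z) :
    IsBranches Z p (Fin.elim0 : Fin 0 → ℂ → ℂ × ℂ) where
  analytic i := i.elim0
  base i := i.elim0
  inj i := i.elim0
  mem i := i.elim0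
  cover _ _ := h.mono fun _ hq hqZ => absurd hqZ hq

namespace LC

variable {z₀ : ℂ} {U V : ℂ → ℂ}

lemma tendstoU (h : LC z₀ U V) : Tendsto U (𝓝 z₀) (𝓝 0) := by
  have := h.anU.continuousAt.tendsto
  rwa [h.U0] at this

lemma tendstoV (h : LC z₀ U V) : Tendsto V (𝓝 0) (𝓝 z₀) := by
  have := h.anV.continuousAt.tendsto
  rwa [h.V0] at this

/-- `V ∘ (c s ^ m)` is analytic at `0` with value `z₀`. -/
lemma analyticComp (h : LC z₀ U V) {g : ℂ → ℂ} (hg : AnalyticAt ℂ g 0) (g0 : g 0 = 0) :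
    AnalyticAt ℂ (fun s => V (g s)) 0 := by
  have : AnalyticAt ℂ V (g 0) := by rw [g0]; exact h.anV
  exact this.comp hg

/-- local injectivity of `V` -/
lemma injV (h : LC z₀ U V) {f g : ℂ × ℂ → ℂ} (hf : Tendsto f (𝓝 (0, 0)) (𝓝 0))
    (hg : Tendsto g (𝓝 (0, 0)) (𝓝 0)) :
    ∀ᶠ q : ℂ × ℂ in 𝓝 (0, 0), V (f q) = V (g q) → f q = g q := by
  filter_upwards [hf.eventually h.UV, hg.eventually h.UV] with q h1 h2 h3
  rw [← h1, ← h2, h3]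

end LC

lemma tendsto_fst_pow {m : ℕ} (hm : m ≠ 0) :
    Tendsto (fun q : ℂ × ℂ => q.1 ^ m) (𝓝 (0, 0)) (𝓝 0) := by
  have : ContinuousAt (fun q : ℂ × ℂ => q.1 ^ m) (0, 0) := by fun_prop
  simpa [ContinuousAt, hm] using this

lemma tendsto_snd_pow {m : ℕ} (hm : m ≠ 0) :
    Tendsto (fun q : ℂ × ℂ => q.2 ^ m) (𝓝 (0, 0)) (𝓝 0) := by
  have : ContinuousAt (fun q : ℂ × ℂ => q.2 ^ m) (0, 0) := by fun_prop
  simpa [ContinuousAt, hm] using this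

theorem isBranches_one {Z : Set (ℂ × ℂ)} {p : ℂ × ℂ} {U₁ V₁ U₂ V₂ : ℂ → ℂ} {m₁ m₂ : ℕ}
    (hm : (m₁ = 1 ∧ m₂ = 1) ∨ (m₁ = 1 ∧ m₂ = 2) ∨ (m₁ = 2 ∧ m₂ = 1))
    (h₁ : LC p.1 U₁ V₁) (h₂ : LC p.2 U₂ V₂)
    (hZ : ∀ᶠ q in 𝓝 p, q ∈ Z ↔ U₁ q.1 ^ m₁ = U₂ q.2 ^ m₂) :
    IsBranches Z p (fun (_ : Fin 1) (s : ℂ) => (V₁ (s ^ m₂), V₂ (s ^ m₁))) := by
  have hm₁ : m₁ ≠ 0 := by omega
  have hm₂ : m₂ ≠ 0 := by omega
  have a₁ : AnalyticAt ℂ (fun s : ℂ => V₁ (s ^ m₂)) 0 :=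
    h₁.analyticComp (by fun_prop) (by simp [hm₂])
  have a₂ : AnalyticAt ℂ (fun s : ℂ => V₂ (s ^ m₁)) 0 :=
    h₂.analyticComp (by fun_prop) (by simp [hm₁])
  have p₁ : Tendsto (fun s : ℂ => s ^ m₂) (𝓝 0) (𝓝 0) := by
    have : ContinuousAt (fun s : ℂ => s ^ m₂) 0 := by fun_prop
    simpa [ContinuousAt, hm₂] using this
  have p₂ : Tendsto (fun s : ℂ => s ^ m₁) (𝓝 0) (𝓝 0) := by
    have : ContinuousAt (fun s : ℂ => s ^ m₁) 0 := by fun_prop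
    simpa [ContinuousAt, hm₁] using this
  refine ⟨fun _ => a₁.prod a₂, fun _ => ?_, fun i j => ?_, fun _ => ?_, fun W hW => ?_⟩
  · ext1 <;> simp [hm₁, hm₂, h₁.V0, h₂.V0]
  · have hij : i = j := Subsingleton.elim _ _
    filter_upwards [h₁.injV (tendsto_fst_pow hm₂) (tendsto_snd_pow hm₂),
      h₂.injV (tendsto_fst_pow hm₁) (tendsto_snd_pow hm₁)] with q i₁ i₂ hq
    rw [Prod.mk.injEq] at hq
    refine Or.inl ⟨hij, ?_⟩
    have e₁ := i₁ hq.1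
    have e₂ := i₂ hq.2
    rcases hm with ⟨rfl, rfl⟩ | ⟨rfl, rfl⟩ | ⟨rfl, rfl⟩
    · simpa using e₁
    · simpa using e₂
    · simpa using e₁
  · have hγ : Tendsto (fun s : ℂ => (V₁ (s ^ m₂), V₂ (s ^ m₁))) (𝓝 0) (𝓝 p) :=
      (h₁.tendstoV.comp p₁).prodMk_nhds (h₂.tendstoV.comp p₂)
    filter_upwards [hγ.eventually hZ, p₁.eventually h₁.UV, p₂.eventually h₂.UV] with s hs e₁ e₂
    rw [hs, e₁, e₂, ← pow_mul, ← pow_mul, mul_comm]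
  · have t₁ : Tendsto (fun q : ℂ × ℂ => U₁ q.1) (𝓝 p) (𝓝 0) :=
      h₁.tendstoU.comp continuous_fst.continuousAt
    have t₂ : Tendsto (fun q : ℂ × ℂ => U₂ q.2) (𝓝 p) (𝓝 0) :=
      h₂.tendstoU.comp continuous_snd.continuousAt
    have v₁ : ∀ᶠ q : ℂ × ℂ in 𝓝 p, V₁ (U₁ q.1) = q.1 :=
      (continuous_fst.continuousAt (x := p)).eventually h₁.VU
    have v₂ : ∀ᶠ q : ℂ × ℂ in 𝓝 p, V₂ (U₂ q.2) = q.2 :=
      (continuous_snd.continuousAt (x := p)).eventually h₂.VU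
    filter_upwards [hZ, t₁.eventually hW, t₂.eventually hW, v₁, v₂] with q hq w₁ w₂ e₁ e₂ hqZ
    have hU := hq.1 hqZ
    refine ⟨0, ?_⟩
    rcases hm with ⟨rfl, rfl⟩ | ⟨rfl, rfl⟩ | ⟨rfl, rfl⟩
    · refine ⟨U₁ q.1, w₁, ?_⟩
      rw [pow_one, pow_one] at hU
      ext1
      · simpa using e₁
      · simp only [pow_one]
        rw [hU, e₂]
    · refine ⟨U₂ q.2, w₂, ?_⟩
      rw [pow_one] at hU
      ext1
      · simp only
        rw [← hU, e₁]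
      · simpa using e₂
    · refine ⟨U₁ q.1, w₁, ?_⟩
      rw [pow_one] at hU
      ext1
      · simpa using e₁
      · simp only
        rw [hU, e₂]

theorem isBranches_two {Z : Set (ℂ × ℂ)} {p : ℂ × ℂ} {U₁ V₁ U₂ V₂ : ℂ → ℂ}
    (h₁ : LC p.1 U₁ V₁) (h₂ : LC p.2 U₂ V₂)
    (hZ : ∀ᶠ q in 𝓝 p, q ∈ Z ↔ U₁ q.1 ^ 2 = U₂ q.2 ^ 2) :
    IsBranches Z p (fun (i : Fin 2) (s : ℂ) => (V₁ s, V₂ ((-1) ^ (i : ℕ) * s))) := by
  have lin : ∀ i : Fin 2, Tendsto (fun s : ℂ => (-1) ^ (i : ℕ) * s) (𝓝 0) (𝓝 0) := by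
    intro i
    have : ContinuousAt (fun s : ℂ => (-1) ^ (i : ℕ) * s) 0 := by fun_prop
    simpa [ContinuousAt] using this
  have tf : Tendsto (fun q : ℂ × ℂ => q.1) (𝓝 (0, 0)) (𝓝 0) :=
    (continuous_fst.continuousAt (x := ((0 : ℂ), (0 : ℂ))))
  have ts : Tendsto (fun q : ℂ × ℂ => q.2) (𝓝 (0, 0)) (𝓝 0) :=
    (continuous_snd.continuousAt (x := ((0 : ℂ), (0 : ℂ))))
  have sq1 : ∀ i : Fin 2, ((-1 : ℂ) ^ (i : ℕ)) ^ 2 = 1 := by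
    intro i
    rw [← pow_mul, mul_comm, pow_mul]
    simp
  refine ⟨fun i => h₁.anV.prod (h₂.analyticComp (by fun_prop) (by simp)), fun i => ?_,
    fun i j => ?_, fun i => ?_, fun W hW => ?_⟩
  · ext1 <;> simp [h₁.V0, h₂.V0]
  · filter_upwards [h₁.injV tf ts, h₂.injV ((lin i).comp tf) ((lin j).comp ts)] with q i₁ i₂ hq
    rw [Prod.mk.injEq] at hq
    have e₁ := i₁ hq.1
    have e₂ := i₂ hq.2
    simp only [Function.comp] at e₂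
    by_cases hij : i = j
    · exact Or.inl ⟨hij, e₁⟩
    · right
      rw [e₁] at e₂ ⊢
      have : q.2 = 0 := by
        fin_cases i <;> fin_cases j <;> simp at hij e₂ <;>
        first
        | (have h2 : (2 : ℂ) * q.2 = 0 := by linear_combination e₂
           simpa using h2)
        | (have h2 : (2 : ℂ) * q.2 = 0 := by linear_combination -e₂
           simpa using h2)
      exact ⟨this, this⟩
  · have hγ : Tendsto (fun s : ℂ => (V₁ s, V₂ ((-1) ^ (i : ℕ) * s))) (𝓝 0) (𝓝 p) :=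
      h₁.tendstoV.prodMk_nhds (h₂.tendstoV.comp (lin i))
    filter_upwards [hγ.eventually hZ, h₁.UV, (lin i).eventually h₂.UV] with s hs e₁ e₂
    rw [hs, e₁, e₂, mul_pow, sq1, one_mul]
  · have t₁ : Tendsto (fun q : ℂ × ℂ => U₁ q.1) (𝓝 p) (𝓝 0) :=
      h₁.tendstoU.comp continuous_fst.continuousAt
    have v₁ : ∀ᶠ q : ℂ × ℂ in 𝓝 p, V₁ (U₁ q.1) = q.1 :=
      (continuous_fst.continuousAt (x := p)).eventually h₁.VU
    have v₂ : ∀ᶠ q : ℂ × ℂ in 𝓝 p, V₂ (U₂ q.2) = q.2 :=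
      (continuous_snd.continuousAt (x := p)).eventually h₂.VU
    filter_upwards [hZ, t₁.eventually hW, v₁, v₂] with q hq w₁ e₁ e₂ hqZ
    rcases sq_eq_sq_iff_eq_or_eq_neg.1 (hq.1 hqZ) with hU | hU
    · refine ⟨0, U₁ q.1, w₁, ?_⟩
      ext1
      · exact e₁
      · simp only [Fin.val_zero, pow_zero, one_mul]
        rw [hU, e₂]
    · refine ⟨1, U₁ q.1, w₁, ?_⟩
      ext1
      · exact e₁
      · simp only [Fin.val_one, pow_one]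
        rw [hU, neg_one_mul, neg_neg, e₂]

end Pool.Agent.Helper24.K1
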