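import Pool.Agent.Helper24.K1.Basic

/-! Continuity of the Weierstrass function in the lattice, and a uniform bound (module CON). -/

noncomputable section

namespace Pool.Agent.Helper24.K1

open Complex MeasureTheory Set Filter Topology
open scoped ComplexConjugate PeriodPair

namespace ConP

/-- `max |a| |b|` -/
def nn (a b : ℝ) : ℝ := max |a| |b|

lemma nn_nonneg (a b : ℝ) : 0 ≤ nn a b := le_trans (abs_nonneg a) (le_max_left _ _)

/-- Two sided comparison of `‖a ω₁ + b ω₂‖` with `max |a| |b|`. -/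
def Cmp (c C : ℝ) (w₁ w₂ : ℂ) : Prop :=
  ∀ a b : ℝ, c * nn a b ≤ ‖(a : ℂ) * w₁ + b * w₂‖ ∧ ‖(a : ℂ) * w₁ + b * w₂‖ ≤ C * nn a b

lemma area_ne (L : PeriodPair) : (conj L.ω₁ * L.ω₂).im ≠ 0 := by
  intro h
  have hi := LinearIndependent.pair_iff.mp L.indep (conj L.ω₁ * L.ω₂).re (-(normSq L.ω₁)) (by
    have h1 : conj L.ω₁ * L.ω₂ = ((conj L.ω₁ * L.ω₂).re : ℂ) := by
      apply Complex.ext <;> simp [h]
    have h2 : ((normSq L.ω₁ : ℝ) : ℂ) = conj L.ω₁ * L.ω₁ := by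
      rw [normSq_eq_conj_mul_self]
    rw [real_smul, real_smul, ofReal_neg, h2, ← h1]
    ring)
  have h3 : L.ω₁ = 0 := by
    have := hi.2
    rwa [neg_eq_zero, map_eq_zero] at this
  have h4 := LinearIndependent.pair_iff.mp L.indep 1 0 (by simp [h3])
  exact one_ne_zero h4.1

lemma cmp_of {w₁ w₂ : ℂ} {D B : ℝ} (hB : 0 < B) (h1 : ‖w₁‖ ≤ B) (h2 : ‖w₂‖ ≤ B)
    (hDw : D ≤ |(conj w₁ * w₂).im|) : Cmp (D / B) (2 * B) w₁ w₂ := by
  intro a b
  constructor
  · rw [div_mul_eq_mul_div, div_le_iff₀ hB]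
    set z : ℂ := (a : ℂ) * w₁ + b * w₂ with hz
    have e1 : (conj w₁ * z).im = b * (conj w₁ * w₂).im := by
      rw [hz]; simp; ring
    have e2 : (conj w₂ * z).im = -(a * (conj w₁ * w₂).im) := by
      rw [hz]; simp; ring
    have b1 : |b| * D ≤ ‖z‖ * B := by
      calc |b| * D ≤ |b| * |(conj w₁ * w₂).im| := by gcongr
        _ = |(conj w₁ * z).im| := by rw [e1, abs_mul]
        _ ≤ ‖conj w₁ * z‖ := abs_im_le_norm _
        _ = ‖w₁‖ * ‖z‖ := by rw [norm_mul, RCLike.norm_conj]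
        _ ≤ ‖z‖ * B := by rw [mul_comm]; gcongr
    have b2 : |a| * D ≤ ‖z‖ * B := by
      calc |a| * D ≤ |a| * |(conj w₁ * w₂).im| := by gcongr
        _ = |(conj w₂ * z).im| := by rw [e2, abs_neg, abs_mul]
        _ ≤ ‖conj w₂ * z‖ := abs_im_le_norm _
        _ = ‖w₂‖ * ‖z‖ := by rw [norm_mul, RCLike.norm_conj]
        _ ≤ ‖z‖ * B := by rw [mul_comm]; gcongr
    unfold nn
    rcases max_cases |a| |b| with ⟨h, _⟩ | ⟨h, _⟩ <;> rw [h, mul_comm] <;> assumption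
  · calc ‖(a : ℂ) * w₁ + b * w₂‖ ≤ ‖(a : ℂ) * w₁‖ + ‖(b : ℂ) * w₂‖ := norm_add_le _ _
      _ = |a| * ‖w₁‖ + |b| * ‖w₂‖ := by simp
      _ ≤ nn a b * B + nn a b * B := by
        unfold nn
        gcongr
        · exact le_max_left _ _
        · exact le_max_right _ _
      _ = 2 * B * nn a b := by ring

/-- uniform comparison constants for a convergent sequence of period pairs -/
lemma exists_cmp {Ln : ℕ → PeriodPair} {L : PeriodPair}
    (h₁ : Tendsto (fun n => (Ln n).ω₁) atTop (𝓝 L.ω₁))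
    (h₂ : Tendsto (fun n => (Ln n).ω₂) atTop (𝓝 L.ω₂)) :
    ∃ c C : ℝ, 0 < c ∧ 0 < C ∧ Cmp c C L.ω₁ L.ω₂ ∧ ∀ᶠ n in atTop, Cmp c C (Ln n).ω₁ (Ln n).ω₂ := by
  set D : ℝ := |(conj L.ω₁ * L.ω₂).im| / 2 with hD
  have hD0 : 0 < D := by
    have := abs_pos.2 (area_ne L)
    positivity
  set B : ℝ := max ‖L.ω₁‖ ‖L.ω₂‖ + 1 with hB
  have hB0 : 0 < B := by
    have := le_trans (norm_nonneg L.ω₁) (le_max_left ‖L.ω₁‖ ‖L.ω₂‖)
    positivity
  refine ⟨D / B, 2 * B, by positivity, by positivity, cmp_of hB0 ?_ ?_ ?_, ?_⟩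
  · rw [hB]; have := le_max_left ‖L.ω₁‖ ‖L.ω₂‖; linarith
  · rw [hB]; have := le_max_right ‖L.ω₁‖ ‖L.ω₂‖; linarith
  · rw [hD]; have := abs_nonneg (conj L.ω₁ * L.ω₂).im; linarith
  · have t1 : ∀ᶠ n in atTop, ‖(Ln n).ω₁‖ ≤ B := by
      have := h₁.norm.eventually_lt_const (u := B)
        (by rw [hB]; have := le_max_left ‖L.ω₁‖ ‖L.ω₂‖; linarith)
      exact this.mono fun n hn => hn.le
    have t2 : ∀ᶠ n in atTop, ‖(Ln n).ω₂‖ ≤ B := by
      have := h₂.norm.eventually_lt_const (u := B)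
        (by rw [hB]; have := le_max_right ‖L.ω₁‖ ‖L.ω₂‖; linarith)
      exact this.mono fun n hn => hn.le
    have t3 : ∀ᶠ n in atTop, D ≤ |(conj (Ln n).ω₁ * (Ln n).ω₂).im| := by
      have hc : Tendsto (fun n => |(conj (Ln n).ω₁ * (Ln n).ω₂).im|) atTop
          (𝓝 |(conj L.ω₁ * L.ω₂).im|) :=
        ((continuous_im.tendsto _).comp
          (((continuous_conj.tendsto _).comp h₁).mul h₂)).abs
      have := hc.eventually_const_lt (u := D) (by
        rw [hD]; have := abs_pos.2 (area_ne L); linarith)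
      exact this.mono fun n hn => hn.le
    filter_upwards [t1, t2, t3] with n a1 a2 a3 using cmp_of hB0 a1 a2 a3

/-- the lattice point `m ω₁ + n ω₂` -/
def pt (L : PeriodPair) (p : ℤ × ℤ) : ℂ := p.1 * L.ω₁ + p.2 * L.ω₂

lemma pt_eq (L : PeriodPair) (p : ℤ × ℤ) : (L.latticeEquivProd.symm p : ℂ) = pt L p :=
  L.latticeEquiv_symm_apply p

/-- the terms of the series of `℘` without the term at zero -/
def tm (L : PeriodPair) (z : ℂ) (p : ℤ × ℤ) : ℂ :=
  if p = 0 then 0 else 1 / (z - pt L p) ^ 2 - 1 / (pt L p) ^ 2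

lemma P_eq (L : PeriodPair) (z : ℂ) : ℘[L] z = ∑' p, tm L z p + 1 / z ^ 2 := by
  have h := L.weierstrassPExcept_add 0 z
  rw [← h]
  simp only [ZeroMemClass.coe_zero, sub_zero, ne_eq, OfNat.ofNat_ne_zero, not_false_eq_true,
    zero_pow, div_zero]
  congr 1
  unfold PeriodPair.weierstrassPExcept
  rw [← L.latticeEquivProd.symm.toEquiv.tsum_eq]
  refine tsum_congr fun p => ?_
  simp only [LinearEquiv.coe_toEquiv, pt_eq, tm]
  have : (pt L p = 0) ↔ p = 0 := by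
    rw [← pt_eq, ZeroMemClass.coe_eq_zero, LinearEquiv.map_eq_zero_iff]
  simp only [this]

/-- the norm of an index -/
def N (p : ℤ × ℤ) : ℝ := nn p.1 p.2

lemma one_le_N {p : ℤ × ℤ} (hp : p ≠ 0) : 1 ≤ N p := by
  unfold N nn
  rcases p with ⟨m, n⟩
  have : m ≠ 0 ∨ n ≠ 0 := by
    by_contra h
    push Not at h
    exact hp (by rw [h.1, h.2]; rfl)
  rcases this with h | h
  · exact le_max_of_le_left (by exact_mod_cast Int.one_le_abs h)
  · exact le_max_of_le_right (by exact_mod_cast Int.one_le_abs h)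

lemma summable_N : Summable fun p : ℤ × ℤ => N p ^ (-3 : ℝ) := by
  have h := EisensteinSeries.summable_one_div_norm_rpow (k := 3) (by norm_num)
  rw [← (finTwoArrowEquiv _).symm.summable_iff] at h
  refine h.congr fun p => ?_
  simp only [Function.comp_apply, finTwoArrowEquiv_symm_apply]
  congr 1
  simp only [N, nn, EisensteinSeries.norm_eq_max_natAbs]
  simp

lemma tm_bound {L : PeriodPair} {c C : ℝ} (hc : 0 < c) (hC : 0 < C) (h : Cmp c C L.ω₁ L.ω₂)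
    {x y : ℝ} (hx : |x| ≤ 1 / 2) (hy : |y| ≤ 1 / 2) (p : ℤ × ℤ) :
    ‖tm L (x * L.ω₁ + y * L.ω₂) p‖ ≤ 5 * C ^ 2 / c ^ 4 * N p ^ (-3 : ℝ) := by
  unfold tm
  split_ifs with hp
  · rw [norm_zero]
    have := nn_nonneg p.1 p.2
    unfold N
    positivity
  · have hN := one_le_N hp
    have hN0 : 0 < N p := by linarith
    set z : ℂ := x * L.ω₁ + y * L.ω₂ with hz
    set l : ℂ := pt L p with hl
    have z1 : ‖z‖ ≤ C / 2 := by
      refine (h x y).2.trans ?_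
      have : nn x y ≤ 1 / 2 := max_le hx hy
      calc C * nn x y ≤ C * (1 / 2) := by gcongr
        _ = C / 2 := by ring
    have l1 : c * N p ≤ ‖l‖ := by
      have := (h p.1 p.2).1
      rw [hl, pt]
      exact_mod_cast this
    have l2 : ‖l‖ ≤ C * N p := by
      have := (h p.1 p.2).2
      rw [hl, pt]
      exact_mod_cast this
    have zl : c * (N p / 2) ≤ ‖z - l‖ := by
      have h1 := (h (x - p.1) (y - p.2)).1
      have h2 : ((x - p.1 : ℝ) : ℂ) * L.ω₁ + ((y - p.2 : ℝ) : ℂ) * L.ω₂ = z - l := by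
        rw [hz, hl, pt]; push_cast; ring
      rw [h2] at h1
      refine le_trans ?_ h1
      have h3 : N p / 2 ≤ nn (x - p.1) (y - p.2) := by
        unfold N nn at *
        rcases max_cases |(p.1 : ℝ)| |(p.2 : ℝ)| with ⟨h, _⟩ | ⟨h, _⟩
        · rw [h] at hN ⊢
          refine le_max_of_le_left ?_
          have := abs_sub_abs_le_abs_sub (p.1 : ℝ) x
          rw [abs_sub_comm] at this
          linarith
        · rw [h] at hN ⊢
          refine le_max_of_le_right ?_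
          have := abs_sub_abs_le_abs_sub (p.2 : ℝ) y
          rw [abs_sub_comm] at this
          linarith
      gcongr
    have hl0 : l ≠ 0 := by
      intro h0
      rw [h0, norm_zero] at l1
      have : 0 < c * N p := by positivity
      linarith
    have hzl0 : z - l ≠ 0 := by
      intro h0
      rw [h0, norm_zero] at zl
      have : 0 < c * (N p / 2) := by positivity
      linarith
    have e : 1 / (z - l) ^ 2 - 1 / l ^ 2 = z * (2 * l - z) / ((z - l) ^ 2 * l ^ 2) := by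
      field_simp
      ring
    rw [e, norm_div, norm_mul, norm_mul, norm_pow, norm_pow]
    have n1 : ‖2 * l - z‖ ≤ 5 / 2 * C * N p := by
      calc ‖2 * l - z‖ ≤ ‖2 * l‖ + ‖z‖ := norm_sub_le _ _
        _ = 2 * ‖l‖ + ‖z‖ := by simp
        _ ≤ 2 * (C * N p) + C / 2 := by gcongr
        _ ≤ 2 * (C * N p) + C / 2 * N p := by
          have : C / 2 * 1 ≤ C / 2 * N p := by gcongr
          linarith
        _ = 5 / 2 * C * N p := by ring
    calc ‖z‖ * ‖2 * l - z‖ / (‖z - l‖ ^ 2 * ‖l‖ ^ 2)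
        ≤ (C / 2) * (5 / 2 * C * N p) / ((c * (N p / 2)) ^ 2 * (c * N p) ^ 2) := by gcongr
      _ = 5 * C ^ 2 / c ^ 4 * (N p ^ 3)⁻¹ := by field_simp
      _ = 5 * C ^ 2 / c ^ 4 * N p ^ (-3 : ℝ) := by
        rw [Real.rpow_neg hN0.le]
        norm_cast

lemma P_le {L : PeriodPair} {c C : ℝ} (hc : 0 < c) (hC : 0 < C) (h : Cmp c C L.ω₁ L.ω₂)
    {x y : ℝ} (hx : |x| ≤ 1 / 2) (hy : |y| ≤ 1 / 2) (h0 : 0 < nn x y) :
    ‖℘[L] (x * L.ω₁ + y * L.ω₂)‖ ≤
      (5 * C ^ 2 / c ^ 4 * ∑' p, N p ^ (-3 : ℝ) + 1 / c ^ 2) / nn x y ^ 2 := by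
  rw [P_eq]
  have hs := summable_N.mul_left (5 * C ^ 2 / c ^ 4)
  have b1 : ‖∑' p, tm L (x * L.ω₁ + y * L.ω₂) p‖ ≤ 5 * C ^ 2 / c ^ 4 * ∑' p, N p ^ (-3 : ℝ) := by
    rw [← tsum_mul_left]
    exact tsum_of_norm_bounded hs.hasSum fun p => tm_bound hc hC h hx hy p
  have hn1 : nn x y ≤ 1 := le_trans (max_le hx hy) (by norm_num)
  have b2 : ‖1 / ((x : ℂ) * L.ω₁ + y * L.ω₂) ^ 2‖ ≤ 1 / c ^ 2 / nn x y ^ 2 := by
    rw [norm_div, norm_one, norm_pow, div_div, ← mul_pow]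
    have := (h x y).1
    gcongr
  have hA : 0 ≤ 5 * C ^ 2 / c ^ 4 * ∑' p, N p ^ (-3 : ℝ) := (norm_nonneg _).trans b1
  calc _ ≤ _ := norm_add_le _ _
    _ ≤ 5 * C ^ 2 / c ^ 4 * ∑' p, N p ^ (-3 : ℝ) + 1 / c ^ 2 / nn x y ^ 2 := add_le_add b1 b2
    _ ≤ (5 * C ^ 2 / c ^ 4 * ∑' p, N p ^ (-3 : ℝ)) / nn x y ^ 2 + 1 / c ^ 2 / nn x y ^ 2 := by
      gcongr
      rw [le_div_iff₀ (by positivity)]
      calc _ ≤ (5 * C ^ 2 / c ^ 4 * ∑' p, N p ^ (-3 : ℝ)) * 1 := by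
            gcongr
            exact pow_le_one₀ h0.le hn1
        _ = _ := mul_one _
    _ = _ := by rw [← add_div]

lemma tendsto_small {Ln : ℕ → PeriodPair} {L : PeriodPair}
    (h₁ : Tendsto (fun n => (Ln n).ω₁) atTop (𝓝 L.ω₁))
    (h₂ : Tendsto (fun n => (Ln n).ω₂) atTop (𝓝 L.ω₂)) {x y : ℝ}
    (hx : |x| ≤ 1 / 2) (hy : |y| ≤ 1 / 2) (h0 : 0 < nn x y) :
    Tendsto (fun n => ℘[Ln n] (x * (Ln n).ω₁ + y * (Ln n).ω₂)) atTop
      (𝓝 (℘[L] (x * L.ω₁ + y * L.ω₂))) := by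
  obtain ⟨c, C, hc, hC, hL, hLn⟩ := exists_cmp h₁ h₂
  have hz : Tendsto (fun n => (x : ℂ) * (Ln n).ω₁ + y * (Ln n).ω₂) atTop
      (𝓝 (x * L.ω₁ + y * L.ω₂)) := (h₁.const_mul _).add (h₂.const_mul _)
  simp_rw [P_eq]
  apply Tendsto.add
  · apply tendsto_tsum_of_dominated_convergence
      (summable_N.mul_left (5 * C ^ 2 / c ^ 4))
    · intro p
      unfold tm
      by_cases hp : p = 0
      · simp [hp]
      · simp only [hp, if_false]
        have hpt : Tendsto (fun n => pt (Ln n) p) atTop (𝓝 (pt L p)) :=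
          (h₁.const_mul _).add (h₂.const_mul _)
        have hN := one_le_N hp
        have l0 : pt L p ≠ 0 := by
          intro h
          have := (hL p.1 p.2).1
          have h' : ((p.1 : ℝ) : ℂ) * L.ω₁ + ((p.2 : ℝ) : ℂ) * L.ω₂ = pt L p := by
            rw [pt]; push_cast; rfl
          rw [h', h, norm_zero] at this
          have h2 : 0 < c * N p := by positivity
          unfold N at h2
          linarith
        have zl0 : (x : ℂ) * L.ω₁ + y * L.ω₂ - pt L p ≠ 0 := by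
          intro h
          have := (hL (x - p.1) (y - p.2)).1
          have h' : ((x - p.1 : ℝ) : ℂ) * L.ω₁ + ((y - p.2 : ℝ) : ℂ) * L.ω₂ =
              (x : ℂ) * L.ω₁ + y * L.ω₂ - pt L p := by
            rw [pt]; push_cast; ring
          rw [h', h, norm_zero] at this
          have h3 : 0 < nn (x - p.1) (y - p.2) := by
            unfold N nn at *
            rcases max_cases |(p.1 : ℝ)| |(p.2 : ℝ)| with ⟨h, _⟩ | ⟨h, _⟩
            · rw [h] at hN
              refine lt_max_of_lt_left ?_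
              have := abs_sub_abs_le_abs_sub (p.1 : ℝ) x
              rw [abs_sub_comm] at this
              linarith
            · rw [h] at hN
              refine lt_max_of_lt_right ?_
              have := abs_sub_abs_le_abs_sub (p.2 : ℝ) y
              rw [abs_sub_comm] at this
              linarith
          have h4 : 0 < c * nn (x - p.1) (y - p.2) := by positivity
          linarith
        exact (tendsto_const_nhds.div ((hz.sub hpt).pow 2) (pow_ne_zero 2 zl0)).sub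
          (tendsto_const_nhds.div (hpt.pow 2) (pow_ne_zero 2 l0))
    · filter_upwards [hLn] with n hn p
      exact tm_bound hc hC hn hx hy p
  · have z0 : (x : ℂ) * L.ω₁ + y * L.ω₂ ≠ 0 := by
      intro h
      have := (hL x y).1
      rw [h, norm_zero] at this
      have h4 : 0 < c * nn x y := by positivity
      linarith
    exact tendsto_const_nhds.div (hz.pow 2) (pow_ne_zero 2 z0)

lemma P_shift (L : PeriodPair) (x y : ℝ) (m n : ℤ) :
    ℘[L] (x * L.ω₁ + y * L.ω₂) = ℘[L] (((x - m : ℝ) : ℂ) * L.ω₁ + ((y - n : ℝ) : ℂ) * L.ω₂) := by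
  have h := L.weierstrassP_add_coe (((x - m : ℝ) : ℂ) * L.ω₁ + ((y - n : ℝ) : ℂ) * L.ω₂)
    ⟨pt L (m, n), PeriodPair.mem_lattice.2 ⟨m, n, rfl⟩⟩
  rw [← h]
  congr 1
  simp only [pt]
  push_cast
  ring

end ConP

open ConP

theorem P_tendsto {Ln : ℕ → PeriodPair} {L : PeriodPair}
    (h₁ : Tendsto (fun n => (Ln n).ω₁) atTop (𝓝 L.ω₁))
    (h₂ : Tendsto (fun n => (Ln n).ω₂) atTop (𝓝 L.ω₂)) {x y : ℝ}
    (hxy : ¬ ((∃ m : ℤ, x = m) ∧ ∃ n : ℤ, y = n)) :
    Tendsto (fun n => ℘[Ln n] (x * (Ln n).ω₁ + y * (Ln n).ω₂)) atTop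
      (𝓝 (℘[L] (x * L.ω₁ + y * L.ω₂))) := by
  rw [P_shift L x y (round x) (round y)]
  simp_rw [fun n => P_shift (Ln n) x y (round x) (round y)]
  apply tendsto_small h₁ h₂ (abs_sub_round x) (abs_sub_round y)
  unfold nn
  by_contra hn
  rw [not_lt] at hn
  have h1 := (le_max_left _ _).trans hn
  have h2 := (le_max_right _ _).trans hn
  apply hxy
  exact ⟨⟨round x, sub_eq_zero.1 (abs_nonpos_iff.1 h1)⟩, ⟨round y, sub_eq_zero.1 (abs_nonpos_iff.1 h2)⟩⟩

theorem P_bound {Ln : ℕ → PeriodPair} {L : PeriodPair}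
    (h₁ : Tendsto (fun n => (Ln n).ω₁) atTop (𝓝 L.ω₁))
    (h₂ : Tendsto (fun n => (Ln n).ω₂) atTop (𝓝 L.ω₂)) :
    ∃ C : ℝ, 0 < C ∧ ∀ᶠ n in atTop, ∀ x ∈ Ioo (0 : ℝ) 1, ∀ y ∈ Ioo (0 : ℝ) 1,
      ‖℘[Ln n] (x * (Ln n).ω₁ + y * (Ln n).ω₂)‖ ≤
        C / (max (min x (1 - x)) (min y (1 - y))) ^ 2 := by
  obtain ⟨c, C, hc, hC, hL, hLn⟩ := exists_cmp h₁ h₂
  have hS : 0 ≤ ∑' p, N p ^ (-3 : ℝ) :=
    tsum_nonneg fun p => Real.rpow_nonneg (nn_nonneg _ _) _
  refine ⟨5 * C ^ 2 / c ^ 4 * ∑' p, N p ^ (-3 : ℝ) + 1 / c ^ 2, by positivity, ?_⟩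
  have key : ∀ x ∈ Ioo (0 : ℝ) 1, ∃ m : ℤ, |x - m| = min x (1 - x) := by
    intro x hx
    rcases le_total x (1 - x) with h | h
    · exact ⟨0, by rw [min_eq_left h, Int.cast_zero, sub_zero, abs_of_pos hx.1]⟩
    · refine ⟨1, ?_⟩
      rw [min_eq_right h, Int.cast_one, abs_sub_comm, abs_of_pos (by linarith [hx.2])]
  filter_upwards [hLn] with n hn x hx y hy
  obtain ⟨m, hm⟩ := key x hx
  obtain ⟨k, hk⟩ := key y hy
  rw [P_shift (Ln n) x y m k, ← hm, ← hk]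
  have hx2 : |x - m| ≤ 1 / 2 := by
    rw [hm]
    rcases min_cases x (1 - x) with ⟨h, _⟩ | ⟨h, _⟩ <;> rw [h] <;> linarith
  have hy2 : |y - k| ≤ 1 / 2 := by
    rw [hk]
    rcases min_cases y (1 - y) with ⟨h, _⟩ | ⟨h, _⟩ <;> rw [h] <;> linarith
  have h0 : 0 < nn (x - m) (y - k) := by
    unfold nn
    refine lt_max_of_lt_left ?_
    rw [hm]
    exact lt_min hx.1 (by linarith [hx.2])
  exact P_le hc hC hn hx2 hy2 h0

end Pool.Agent.Helper24.K1
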