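import Pool.Agent.Helper24.K1.Basic
import Pool.Agent.Helper21.Reg.Order

/-! # The fibres of the Weierstrass function -/

noncomputable section

namespace Pool.Agent.Helper24.K1

open Complex MeasureTheory Set Filter Topology
open scoped ComplexConjugate PeriodPair
open Pool.Agent.Helper21.Reg (Th Lat Th_eq_zero_iff Th_order Th_analyticAt Th_add_tau
  Th_add_int ee ee_ne_zero ee_add ee_neg mOrd_of_ne Th_differentiable Th_add_one)

/-! ### Liouville for meromorphic elliptic functions -/

lemma liou (L : PeriodPair) {F : ℂ → ℂ} (hm : ∀ z, MeromorphicAt F z)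
    (hp : ∀ l ∈ L.lattice, ∀ z, F (z + l) = F z) (ho : ∀ z, 0 ≤ meromorphicOrderAt F z) :
    ∃ c, ∀ z, ∀ᶠ w in 𝓝[≠] z, F w = c := by
  -- the regularisation
  set G : ℂ → ℂ := fun z => limUnder (𝓝[≠] z) F with hG
  have loc : ∀ z, ∃ g : ℂ → ℂ, AnalyticAt ℂ g z ∧ ∀ᶠ w in 𝓝[≠] z, F w = g w := by
    intro z
    have hcase := ho z
    by_cases htop : meromorphicOrderAt F z = ⊤
    · refine ⟨fun _ => 0, analyticAt_const, ?_⟩
      exact meromorphicOrderAt_eq_top_iff.mp htop
    · obtain ⟨g, hg, hg0, hgF⟩ := (meromorphicOrderAt_ne_top_iff (hm z)).mp htop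
      set n : ℤ := (meromorphicOrderAt F z).untop₀ with hn
      have hn0 : 0 ≤ n := by
        have e : meromorphicOrderAt F z = (n : WithTop ℤ) := (WithTop.coe_untop₀_of_ne_top htop).symm
        rw [e] at hcase
        exact_mod_cast hcase
      refine ⟨fun w => (w - z) ^ n.toNat * g w, ?_, ?_⟩
      · exact ((analyticAt_id.sub analyticAt_const).pow _).mul hg
      · filter_upwards [hgF] with w hw
        rw [hw, smul_eq_mul]
        congr 1
        conv_lhs => rw [← Int.toNat_of_nonneg hn0]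
        exact zpow_natCast _ _
  have hGg : ∀ z (g : ℂ → ℂ), AnalyticAt ℂ g z → (∀ᶠ w in 𝓝[≠] z, F w = g w) →
      ∀ᶠ w in 𝓝 z, G w = g w := by
    intro z g hg hF
    have h1 : ∀ᶠ w in 𝓝[≠] z, ∀ᶠ v in 𝓝 w, F v = g v := by
      rw [eventually_nhdsWithin_iff] at hF ⊢
      obtain ⟨U, hU, hUo, hzU⟩ := eventually_nhds_iff.mp hF
      refine eventually_nhds_iff.mpr ⟨U, ?_, hUo, hzU⟩
      intro w hw hwz
      have : U ∩ {z}ᶜ ∈ 𝓝 w := (hUo.inter isOpen_compl_singleton).mem_nhds ⟨hw, hwz⟩
      filter_upwards [this] with v hv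
      exact hU v hv.1 hv.2
    have hz : G z = g z := by
      have : Tendsto F (𝓝[≠] z) (𝓝 (g z)) :=
        (hg.continuousAt.tendsto.mono_left nhdsWithin_le_nhds).congr'
          (hF.mono fun w hw => hw.symm)
      exact this.limUnder_eq
    have h2 : ∀ᶠ w in 𝓝[≠] z, G w = g w := by
      filter_upwards [h1, (hg.eventually_analyticAt.filter_mono nhdsWithin_le_nhds)] with w hw hgw
      have : Tendsto F (𝓝[≠] w) (𝓝 (g w)) :=
        (hgw.continuousAt.tendsto.mono_left nhdsWithin_le_nhds).congr'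
          ((hw.filter_mono nhdsWithin_le_nhds).mono fun w hw => hw.symm)
      exact this.limUnder_eq
    rw [eventually_nhdsWithin_iff] at h2
    filter_upwards [h2] with w hw
    by_cases hwz : w = z
    · rw [hwz, hz]
    · exact hw hwz
  have hGan : ∀ z, AnalyticAt ℂ G z := by
    intro z
    obtain ⟨g, hg, hF⟩ := loc z
    exact hg.congr ((hGg z g hg hF).mono fun w hw => hw.symm)
  have hGp : ∀ l ∈ L.lattice, ∀ z, G (z + l) = G z := by
    intro l hl z
    obtain ⟨g, hg, hF⟩ := loc z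
    have e1 := (hGg z g hg hF).self_of_nhds
    rw [e1]
    have : Tendsto F (𝓝[≠] (z + l)) (𝓝 (g z)) := by
      have h3 : Tendsto F (𝓝[≠] z) (𝓝 (g z)) :=
        (hg.continuousAt.tendsto.mono_left nhdsWithin_le_nhds).congr'
          (hF.mono fun w hw => hw.symm)
      have h4 : Tendsto (fun w => w - l) (𝓝[≠] (z + l)) (𝓝[≠] z) := by
        refine tendsto_nhdsWithin_iff.mpr ⟨?_, ?_⟩
        · have : Tendsto (fun w : ℂ => w - l) (𝓝 (z + l)) (𝓝 (z + l - l)) :=
            (continuous_id.sub continuous_const).tendsto _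
          rw [add_sub_cancel_right] at this
          exact this.mono_left nhdsWithin_le_nhds
        · filter_upwards [self_mem_nhdsWithin] with w hw h
          apply hw
          rw [mem_singleton_iff] at h ⊢
          rw [← h, sub_add_cancel]
      refine (h3.comp h4).congr fun w => ?_
      simp only [Function.comp]
      conv_rhs => rw [← sub_add_cancel w l]
      exact (hp l hl _).symm
    exact this.limUnder_eq
  have hGd : Differentiable ℂ G := fun z => (hGan z).differentiableAt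
  have hconst := fun x => hGd.apply_eq_apply_of_bounded
    (IsZLattice.isCompact_range_of_periodic L.lattice _
      hGd.continuous fun z w hw ↦ hGp w hw z).isBounded x 0
  refine ⟨G 0, fun z => ?_⟩
  obtain ⟨g, hg, hF⟩ := loc z
  filter_upwards [hF, (hGg z g hg hF).filter_mono nhdsWithin_le_nhds] with w hw1 hw2
  rw [hw1, ← hw2, hconst]

/-! ### frames -/

lemma exists_frame (L : PeriodPair) :
    ∃ u τ : ℂ, u ≠ 0 ∧ 0 < τ.im ∧ ∀ z, z ∈ L.lattice ↔ Lat τ (z / u) := by
  have h1 := L.indep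
  rw [LinearIndependent.pair_iff] at h1
  have hω₁ : L.ω₁ ≠ 0 := by
    intro h
    have := h1 1 0 (by simp [h])
    exact one_ne_zero this.1
  have him : (L.ω₂ / L.ω₁).im ≠ 0 := by
    intro him
    set r : ℝ := (L.ω₂ / L.ω₁).re with hr
    have e : L.ω₂ / L.ω₁ = r := Complex.ext (by simp [hr]) (by simp [him])
    have e2 : L.ω₂ = r * L.ω₁ := by rw [← e]; field_simp
    have := h1 r (-1) (by rw [e2]; simp)
    exact (neg_ne_zero.mpr one_ne_zero) this.2
  rcases lt_or_gt_of_ne him with hneg | hpos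
  · refine ⟨L.ω₁, -(L.ω₂ / L.ω₁), hω₁, by simpa using hneg, fun z => ?_⟩
    rw [PeriodPair.mem_lattice]
    constructor
    · rintro ⟨m, n, h⟩
      exact ⟨m, -n, by rw [← h]; field_simp; push_cast; ring⟩
    · rintro ⟨m, n, h⟩
      refine ⟨m, -n, ?_⟩
      rw [div_eq_iff hω₁] at h
      rw [h]; field_simp; push_cast; ring
  · refine ⟨L.ω₁, L.ω₂ / L.ω₁, hω₁, hpos, fun z => ?_⟩
    rw [PeriodPair.mem_lattice]
    constructor
    · rintro ⟨m, n, h⟩
      exact ⟨m, n, by rw [← h]; field_simp⟩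
    · rintro ⟨m, n, h⟩
      refine ⟨m, n, ?_⟩
      rw [div_eq_iff hω₁] at h
      rw [h]; field_simp

/-! ### order of `℘ - ℘ w` -/

lemma dP_half {L : PeriodPair} {w : ℂ} (h2 : 2 * w ∈ L.lattice) : ℘'[L] w = 0 := by
  have h := L.derivWeierstrassP_add_coe (-w) ⟨2 * w, h2⟩
  have e : -w + 2 * w = w := by ring
  simp only [e, PeriodPair.derivWeierstrassP_neg] at h
  have : (2 : ℂ) * ℘'[L] w = 0 := by linear_combination h
  exact (mul_eq_zero.mp this).resolve_left two_ne_zero

lemma P_periodic {L : PeriodPair} {l : ℂ} (hl : l ∈ L.lattice) (z : ℂ) : ℘[L] (z + l) = ℘[L] z :=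
  L.weierstrassP_add_coe z ⟨l, hl⟩

lemma P_analyticAt {L : PeriodPair} {z : ℂ} (hz : z ∉ L.lattice) : AnalyticAt ℂ ℘[L] z :=
  L.analyticOnNhd_weierstrassP z hz

lemma Psub_analyticAt {L : PeriodPair} {z : ℂ} (hz : z ∉ L.lattice) (c : ℂ) :
    AnalyticAt ℂ (fun z => ℘[L] z - c) z := (P_analyticAt hz).sub analyticAt_const

lemma Psub_order_lattice {L : PeriodPair} {z : ℂ} (hz : z ∈ L.lattice) (c : ℂ) :
    meromorphicOrderAt (fun z => ℘[L] z - c) z = -2 := by
  have h1 := L.order_weierstrassP z hz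
  have e : (fun z => ℘[L] z - c) = ℘[L] + (fun _ => -c) := by funext z; simp [sub_eq_add_neg]
  rw [e, meromorphicOrderAt_add_eq_left_of_lt (MeromorphicAt.const _ _), h1]
  rw [h1]
  refine lt_of_lt_of_le ?_ (AnalyticAt.meromorphicOrderAt_nonneg analyticAt_const)
  norm_cast

lemma Psub_order_ge_one {L : PeriodPair} {z w : ℂ} (hz : z ∉ L.lattice) (h : ℘[L] z = ℘[L] w) :
    (1 : WithTop ℤ) ≤ meromorphicOrderAt (fun z => ℘[L] z - ℘[L] w) z := by
  rw [(Psub_analyticAt hz _).meromorphicOrderAt_eq]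
  have : (1 : ℕ∞) ≤ analyticOrderAt (fun z => ℘[L] z - ℘[L] w) z := by
    rw [Order.one_le_iff_ne_zero]
    exact (Psub_analyticAt hz _).analyticOrderAt_ne_zero.mpr (by simp [h])
  exact ENat.monotone_map_iff.mpr Nat.mono_cast this

lemma Psub_order_ge_two {L : PeriodPair} {z w : ℂ} (hz : z ∉ L.lattice) (h : ℘[L] z = ℘[L] w)
    (h' : ℘'[L] z = 0) :
    (2 : WithTop ℤ) ≤ meromorphicOrderAt (fun z => ℘[L] z - ℘[L] w) z := by
  rw [(Psub_analyticAt hz _).meromorphicOrderAt_eq]
  have : ((2 : ℕ) : ℕ∞) ≤ analyticOrderAt (fun z => ℘[L] z - ℘[L] w) z := by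
    rw [natCast_le_analyticOrderAt_iff_iteratedDeriv_eq_zero (Psub_analyticAt hz _)]
    intro i hi
    interval_cases i
    · simp [h]
    · simp [iteratedDeriv_one, h']
  exact ENat.monotone_map_iff.mpr Nat.mono_cast this


lemma wt_aux {a : WithTop ℤ} {n k : ℤ} (h : ((n : ℤ) : WithTop ℤ) ≤ a) (hk : 0 ≤ n + k) :
    0 ≤ a + ((k : ℤ) : WithTop ℤ) := by
  cases a with
  | top => simp
  | coe a =>
    rw [WithTop.coe_le_coe] at h
    rw [← WithTop.coe_add, ← WithTop.coe_zero, WithTop.coe_le_coe]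
    omega

/-- quotient of theta functions -/
def QQ (τ p v : ℂ) : ℂ := Th τ v ^ 2 * ((Th τ (v - p))⁻¹ * (Th τ (v - -p))⁻¹)

lemma QQ_periodic {τ : ℂ} (hτ : 0 < τ.im) (p : ℂ) {l : ℂ} (hl : Lat τ l) (v : ℂ) :
    QQ τ p (v + l) = QQ τ p v := by
  have h1 : Function.Periodic (QQ τ p) 1 := by
    intro v
    unfold QQ
    rw [show v + 1 - p = v - p + 1 by ring, show v + 1 - -p = v - -p + 1 by ring, Th_add_one,
      Th_add_one, Th_add_one]
  have h2 : Function.Periodic (QQ τ p) τ := by
    intro v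
    unfold QQ
    rw [show v + τ - p = v - p + τ by ring, show v + τ - -p = v - -p + τ by ring,
      Th_add_tau hτ, Th_add_tau hτ, Th_add_tau hτ]
    have e : ee (v - p) * ee (v - -p) = ee v ^ 2 := by
      rw [← ee_add, pow_two, ← ee_add]; ring_nf
    have h1 := ee_ne_zero v
    have h2 := ee_ne_zero (v - p)
    have h3 := ee_ne_zero (v - -p)
    rw [mul_inv, mul_inv, mul_pow]
    have e2 : (-(ee v)⁻¹) ^ 2 * ((-(ee (v - p))⁻¹)⁻¹ * (-(ee (v - -p))⁻¹)⁻¹) = 1 := by
      rw [inv_neg, inv_neg, inv_inv, inv_inv, neg_mul_neg, e]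
      field_simp
    linear_combination (Th τ v ^ 2 * ((Th τ (v - p))⁻¹ * (Th τ (v - -p))⁻¹)) * e2
  obtain ⟨m, n, rfl⟩ := hl
  have h3 := h1.int_mul m
  have h4 := h2.int_mul n
  rw [← add_assoc, h4]
  simpa using h3 v

open Classical in
lemma Thu_order {L : PeriodPair} {u τ : ℂ} (hu : u ≠ 0) (hτ : 0 < τ.im)
    (hlat : ∀ z, z ∈ L.lattice ↔ Lat τ (z / u)) (p z : ℂ) :
    MeromorphicAt (fun z => Th τ (z / u - p / u)) z ∧
    meromorphicOrderAt (fun z => Th τ (z / u - p / u)) z =
      (((if z - p ∈ L.lattice then 1 else 0 : ℤ)) : WithTop ℤ) := by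
  have hg : AnalyticAt ℂ (fun z : ℂ => z / u - p / u) z := by
    have : Differentiable ℂ (fun z : ℂ => z / u - p / u) := by fun_prop
    exact this.analyticAt z
  have hd : deriv (fun z : ℂ => z / u - p / u) z ≠ 0 := by
    have h : HasDerivAt (fun z : ℂ => z / u - p / u) (1 / u) z :=
      ((hasDerivAt_id z).div_const u).sub_const _
    rw [h.deriv]
    exact one_div_ne_zero hu
  refine ⟨?_, ?_⟩
  · exact ((Th_differentiable hτ).comp (by fun_prop : Differentiable ℂ
      (fun z : ℂ => z / u - p / u))).analyticAt z |>.meromorphicAt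
  · have := meromorphicOrderAt_comp_of_deriv_ne_zero (f := Th τ)
      (g := fun z : ℂ => z / u - p / u) hg hd
    have e : (fun z => Th τ (z / u - p / u)) = Th τ ∘ (fun z : ℂ => z / u - p / u) := rfl
    rw [e, this, Th_order hτ, hlat (z - p), sub_div]
    split_ifs <;> simp

open Classical in
/-- The order of `℘ - ℘ w` at `z`. -/
lemma Psub_order {L : PeriodPair} {z w : ℂ} (hz : z ∉ L.lattice) (hw : w ∉ L.lattice) :
    meromorphicOrderAt (fun z => ℘[L] z - ℘[L] w) z =
      (((if z - w ∈ L.lattice then 1 else 0) + (if z + w ∈ L.lattice then 1 else 0) : ℤ)) := by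
  obtain ⟨u, τ, hu, hτ, hlat⟩ := exists_frame L
  set F : ℂ → ℂ := (fun z => ℘[L] z - ℘[L] w) * ((fun z => Th τ (z / u - 0 / u)) ^ 2 *
    ((fun z => Th τ (z / u - w / u))⁻¹ * (fun z => Th τ (z / u - (-w) / u))⁻¹)) with hF
  have hFQ : ∀ z, F z = (℘[L] z - ℘[L] w) * QQ τ (w / u) (z / u) := by
    intro z
    simp [hF, QQ, neg_div]
  have hm0 : ∀ z, MeromorphicAt (fun z => ℘[L] z - ℘[L] w) z := fun z =>
    (L.meromorphic_weierstrassP z).sub (MeromorphicAt.const _ _)
  have hT := Thu_order (L := L) hu hτ hlat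
  have hord : ∀ z, MeromorphicAt F z ∧ meromorphicOrderAt F z =
      meromorphicOrderAt (fun z => ℘[L] z - ℘[L] w) z +
      ((2 * (if z ∈ L.lattice then 1 else 0) - (if z - w ∈ L.lattice then 1 else 0) -
        (if z + w ∈ L.lattice then 1 else 0) : ℤ) : WithTop ℤ) := by
    intro z
    obtain ⟨a1, a2⟩ := hT 0 z
    obtain ⟨b1, b2⟩ := hT w z
    obtain ⟨c1, c2⟩ := hT (-w) z
    refine ⟨(hm0 z).mul ((a1.pow 2).mul (b1.inv.mul c1.inv)), ?_⟩
    rw [hF, meromorphicOrderAt_mul (hm0 z) ((a1.pow 2).mul (b1.inv.mul c1.inv)),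
      meromorphicOrderAt_mul (a1.pow 2) (b1.inv.mul c1.inv),
      meromorphicOrderAt_mul b1.inv c1.inv, meromorphicOrderAt_inv, meromorphicOrderAt_inv,
      meromorphicOrderAt_pow a1, a2, b2, c2, sub_zero, sub_neg_eq_add]
    congr 1
    split_ifs <;> norm_cast
  have hper : ∀ l ∈ L.lattice, ∀ z, F (z + l) = F z := by
    intro l hl z
    rw [hFQ, hFQ, P_periodic hl, add_div, QQ_periodic hτ _ ((hlat l).mp hl)]
  have key : ∀ z, 0 ≤ meromorphicOrderAt F z ∧ (z ∈ L.lattice → meromorphicOrderAt F z = 0) := by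
    intro z
    rw [(hord z).2]
    by_cases h1 : z ∈ L.lattice
    · have h2 : z - w ∉ L.lattice := fun h => hw (by simpa using sub_mem h1 h)
      have h3 : z + w ∉ L.lattice := fun h => hw (by simpa using sub_mem h h1)
      rw [Psub_order_lattice h1]
      simp only [h1, h2, h3, if_true, if_false]
      norm_cast
    · simp only [h1, if_false, false_implies, and_true]
      have hpar : ∀ v, v ∉ L.lattice → ℘[L] v = ℘[L] w → 2 * v ∈ L.lattice →
        (2 : WithTop ℤ) ≤ meromorphicOrderAt (fun z => ℘[L] z - ℘[L] w) v :=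
        fun v hv h h2 => Psub_order_ge_two hv h (dP_half h2)
      have ha : z - w ∈ L.lattice → ℘[L] z = ℘[L] w := by
        intro h
        have := P_periodic h w
        rwa [add_sub_cancel] at this
      have hb : z + w ∈ L.lattice → ℘[L] z = ℘[L] w := by
        intro h
        have := P_periodic h (-w)
        rw [L.weierstrassP_neg] at this
        rw [← this]; congr 1; ring
      have hnn : (0 : WithTop ℤ) ≤ meromorphicOrderAt (fun z => ℘[L] z - ℘[L] w) z :=
        (Psub_analyticAt h1 _).meromorphicOrderAt_nonneg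
      by_cases h2 : z - w ∈ L.lattice <;> by_cases h3 : z + w ∈ L.lattice
      · have h4 : 2 * z ∈ L.lattice := by
          have := add_mem h2 h3
          convert this using 1; ring
        have := hpar z h1 (ha h2) h4
        simp only [h2, h3, if_true]
        exact wt_aux (n := 2) this (by norm_num)
      · have := Psub_order_ge_one h1 (ha h2)
        simp only [h2, h3, if_true, if_false]
        exact wt_aux (n := 1) this (by norm_num)
      · have := Psub_order_ge_one h1 (hb h3)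
        simp only [h2, h3, if_true, if_false]
        exact wt_aux (n := 1) this (by norm_num)
      · simp only [h2, h3, if_false]
        simpa using hnn
  obtain ⟨c, hc⟩ := liou L (fun z => (hord z).1) hper (fun z => (key z).1)
  have hc0 : c ≠ 0 := by
    intro h
    have h0 := (key 0).2 L.lattice.zero_mem
    rw [h] at hc
    rw [meromorphicOrderAt_eq_top_iff.mpr (hc 0)] at h0
    exact absurd h0 (by simp)
  have hz0 : meromorphicOrderAt F z = 0 := by
    have : meromorphicOrderAt F z = meromorphicOrderAt (fun _ : ℂ => c) z :=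
      meromorphicOrderAt_congr (hc z)
    rw [this, mOrd_of_ne analyticAt_const hc0]
  rw [(hord z).2] at hz0
  simp only [hz, if_false] at hz0
  generalize meromorphicOrderAt (fun z => ℘[L] z - ℘[L] w) z = a at hz0 ⊢
  cases a with
  | top => simp at hz0
  | coe a =>
    rw [← WithTop.coe_add, ← WithTop.coe_zero, WithTop.coe_inj] at hz0
    rw [WithTop.coe_inj]
    linarith

/-! ### the fibres -/

theorem P_eq_iff (L : PeriodPair) {z w : ℂ} (hz : z ∉ L.lattice) (hw : w ∉ L.lattice) :
    ℘[L] z = ℘[L] w ↔ z - w ∈ L.lattice ∨ z + w ∈ L.lattice := by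
  classical
  constructor
  · intro h
    by_contra hcon
    push Not at hcon
    have h1 := Psub_order hz hw
    have h2 := Psub_order_ge_one hz h
    rw [h1] at h2
    simp only [hcon.1, hcon.2, if_false] at h2
    norm_cast at h2
  · rintro (h | h)
    · have := P_periodic h w
      rwa [add_sub_cancel] at this
    · have := P_periodic h (-w)
      rw [L.weierstrassP_neg] at this
      rw [← this]; congr 1; ring

theorem dP_eq_zero_iff (L : PeriodPair) {z : ℂ} (hz : z ∉ L.lattice) :
    ℘'[L] z = 0 ↔ 2 * z ∈ L.lattice := by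
  classical
  refine ⟨fun h => ?_, dP_half⟩
  by_contra hcon
  have h1 := Psub_order hz hz
  have h2 := Psub_order_ge_two hz rfl h
  have h3 : z - z ∈ L.lattice := by simp
  have h4 : z + z ∉ L.lattice := by rwa [← two_mul]
  rw [h1] at h2
  simp only [h3, h4, if_true, if_false] at h2
  norm_cast at h2

theorem P_surj (L : PeriodPair) (c : ℂ) : ∃ z, z ∉ L.lattice ∧ ℘[L] z = c := by
  by_contra hcon
  push Not at hcon
  have hm0 : ∀ z, MeromorphicAt (fun z => ℘[L] z - c) z := fun z =>
    (L.meromorphic_weierstrassP z).sub (MeromorphicAt.const _ _)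
  have h1 : ∀ z, z ∉ L.lattice → meromorphicOrderAt (fun z => ℘[L] z - c)⁻¹ z = 0 := by
    intro z hz
    rw [meromorphicOrderAt_inv, mOrd_of_ne (Psub_analyticAt hz c) (sub_ne_zero.mpr (hcon z hz))]
    simp
  have h2 : ∀ z ∈ L.lattice, meromorphicOrderAt (fun z => ℘[L] z - c)⁻¹ z = 2 := by
    intro z hz
    rw [meromorphicOrderAt_inv, Psub_order_lattice hz]
    rfl
  obtain ⟨k, hk⟩ := liou L (F := (fun z => ℘[L] z - c)⁻¹) (fun z => (hm0 z).inv)
    (fun l hl z => by simp only [Pi.inv_apply, P_periodic hl]) (fun z => by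
      by_cases hz : z ∈ L.lattice
      · rw [h2 z hz]; norm_cast
      · rw [h1 z hz])
  have h3 := h2 0 L.lattice.zero_mem
  rw [meromorphicOrderAt_congr (hk 0)] at h3
  by_cases hk0 : k = 0
  · rw [hk0, meromorphicOrderAt_eq_top_iff.mpr (Eventually.of_forall fun _ => rfl)] at h3
    exact absurd h3 (by decide)
  · rw [mOrd_of_ne analyticAt_const hk0] at h3
    exact absurd h3 (by decide)

/-! ### half periods -/

lemma half1 (L : PeriodPair) : L.ω₁ / 2 ∉ L.lattice := L.ω₁_div_two_notMem_lattice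
lemma half2 (L : PeriodPair) : L.ω₂ / 2 ∉ L.lattice := L.ω₂_div_two_notMem_lattice
lemma half3 (L : PeriodPair) : (L.ω₁ + L.ω₂) / 2 ∉ L.lattice := by
  have := (L.mul_ω₁_add_mul_ω₂_mem_lattice (α := 1 / 2) (β := 1 / 2)).not.mpr (by norm_num)
  convert this using 1
  push_cast
  ring_nf
lemma half3' (L : PeriodPair) : (L.ω₁ - L.ω₂) / 2 ∉ L.lattice := by
  intro h
  apply half3 L
  have := add_mem h L.ω₂_mem_lattice
  convert this using 1
  ring

lemma half4 (L : PeriodPair) : L.ω₁ / 2 + L.ω₂ ∉ L.lattice := fun h =>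
  half1 L (by simpa using sub_mem h L.ω₂_mem_lattice)

theorem e12_ne (L : PeriodPair) : e1 L ≠ e2 L := by
  intro h
  rcases (P_eq_iff L (half1 L) (half2 L)).mp h with h | h
  · exact half3' L (by convert h using 1; ring)
  · exact half3 L (by convert h using 1; ring)

theorem e13_ne (L : PeriodPair) : e1 L ≠ e3 L := by
  intro h
  rcases (P_eq_iff L (half1 L) (half3 L)).mp h with h | h
  · exact half2 L (by convert neg_mem h using 1; ring)
  · refine half2 L ?_
    have := sub_mem h L.ω₁_mem_lattice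
    convert this using 1; ring

theorem e23_ne (L : PeriodPair) : e2 L ≠ e3 L := by
  intro h
  rcases (P_eq_iff L (half2 L) (half3 L)).mp h with h | h
  · exact half1 L (by convert neg_mem h using 1; ring)
  · refine half1 L ?_
    have := sub_mem h L.ω₂_mem_lattice
    convert this using 1; ring

theorem del_ne (L : PeriodPair) : del L ≠ 0 := sub_ne_zero.mpr (e12_ne L).symm

theorem lam_ne_zero (L : PeriodPair) : lam L ≠ 0 :=
  div_ne_zero (sub_ne_zero.mpr (e13_ne L).symm) (del_ne L)

theorem lam_ne_one (L : PeriodPair) : lam L ≠ 1 := by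
  intro h
  unfold lam at h
  rw [div_eq_one_iff_eq (del_ne L), del] at h
  exact e23_ne L (by linear_combination -h)

theorem dP_sq (L : PeriodPair) {z : ℂ} (hz : z ∉ L.lattice) :
    ℘'[L] z ^ 2 = 4 * (℘[L] z - e1 L) * (℘[L] z - e2 L) * (℘[L] z - e3 L) := by
  have key : ∀ w, w ∉ L.lattice → 2 * w ∈ L.lattice →
      4 * ℘[L] w ^ 3 - L.g₂ * ℘[L] w - L.g₃ = 0 := by
    intro w hw h2
    rw [← L.derivWeierstrassP_sq w hw, dP_half h2]; simp
  have k1 := key _ (half1 L) (by convert L.ω₁_mem_lattice using 1; ring)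
  have k2 := key _ (half2 L) (by convert L.ω₂_mem_lattice using 1; ring)
  have k3 := key _ (half3 L) (by
    convert add_mem L.ω₁_mem_lattice L.ω₂_mem_lattice using 1; ring)
  rw [L.derivWeierstrassP_sq z hz]
  change 4 * e1 L ^ 3 - L.g₂ * e1 L - L.g₃ = 0 at k1
  change 4 * e2 L ^ 3 - L.g₂ * e2 L - L.g₃ = 0 at k2
  change 4 * e3 L ^ 3 - L.g₂ * e3 L - L.g₃ = 0 at k3
  have h12 := sub_ne_zero.mpr (e12_ne L)
  have h13 := sub_ne_zero.mpr (e13_ne L)
  have h23 := sub_ne_zero.mpr (e23_ne L)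
  generalize e1 L = a at *
  generalize e2 L = b at *
  generalize e3 L = c at *
  generalize ℘[L] z = x at *
  generalize L.g₂ = g at *
  generalize L.g₃ = g' at *
  have q1 : g = 4 * (a ^ 2 + a * b + b ^ 2) := by
    apply mul_left_cancel₀ h12
    linear_combination k2 - k1
  have q2 : g = 4 * (a ^ 2 + a * c + c ^ 2) := by
    apply mul_left_cancel₀ h13
    linear_combination k3 - k1
  have q3 : a + b + c = 0 := by
    apply mul_left_cancel₀ h23
    linear_combination (q2 - q1) / 4
  have ec : c = -a - b := by linear_combination q3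
  have eg' : g' = 4 * a ^ 3 - g * a := by linear_combination -k1
  rw [eg', q1, ec]
  ring

/-- `℘' ^ 2 = 4 δ³ x (x - 1) (x - λ)` -/
theorem dP_sq_xx (L : PeriodPair) {z : ℂ} (hz : z ∉ L.lattice) :
    ℘'[L] z ^ 2 = 4 * del L ^ 3 * (xx L z * (xx L z - 1) * (xx L z - lam L)) := by
  rw [dP_sq L hz]
  have hd := del_ne L
  have h1 : ℘[L] z - e1 L = del L * xx L z := by unfold xx; field_simp
  have h2 : ℘[L] z - e2 L = del L * (xx L z - 1) := by
    rw [mul_sub, ← h1, del]; ring
  have h3 : ℘[L] z - e3 L = del L * (xx L z - lam L) := by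
    have : del L * lam L = e3 L - e1 L := by unfold lam; field_simp
    rw [mul_sub, ← h1, this]; ring
  rw [h1, h2, h3]; ring

end Pool.Agent.Helper24.K1
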