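import Pool.Agent.Helper24.K1.LCdef
import Pool.Agent.Helper24.K1.Ell

/-! Local coordinates on the elliptic curves adapted to the Legendre coordinate. -/

noncomputable section

namespace Pool.Agent.Helper24.K1

open Complex MeasureTheory Set Filter Topology
open scoped ComplexConjugate PeriodPair

theorem exists_LC {U : ℂ → ℂ} {z₀ : ℂ} (hU : AnalyticAt ℂ U z₀) (h0 : U z₀ = 0)
    (h1 : deriv U z₀ ≠ 0) : ∃ V : ℂ → ℂ, LC z₀ U V := by
  have hs := hU.hasStrictDerivAt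
  refine ⟨hs.localInverse _ _ _ h1, hU, ?_, h0, ?_, ?_, ?_⟩
  · rw [← h0]; exact hU.analyticAt_localInverse h1
  · rw [← h0]; exact HasStrictFDerivAt.localInverse_apply_image ..
  · rw [← h0]; exact HasStrictDerivAt.eventually_right_inverse ..
  · exact HasStrictDerivAt.eventually_left_inverse ..

theorem exists_sqrt {g : ℂ → ℂ} {z₀ : ℂ} (hg : AnalyticAt ℂ g z₀)
    (h2 : analyticOrderAt g z₀ = 2) :
    ∃ U : ℂ → ℂ, AnalyticAt ℂ U z₀ ∧ U z₀ = 0 ∧ deriv U z₀ ≠ 0 ∧
      ∀ᶠ z in 𝓝 z₀, g z = U z ^ 2 := by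
  obtain ⟨h, han, hne, heq⟩ := (hg.analyticOrderAt_eq_natCast (n := 2)).mp h2
  obtain ⟨c, hc⟩ := IsAlgClosed.exists_pow_nat_eq (h z₀) (n := 2) (by norm_num)
  have hc0 : c ≠ 0 := by rintro rfl; apply hne; rw [← hc]; norm_num
  set r : ℂ → ℂ := fun z => c * Complex.exp (Complex.log (h z / h z₀) / 2) with hr
  have hquot : AnalyticAt ℂ (fun z => h z / h z₀) z₀ := han.div analyticAt_const hne
  have hlog : AnalyticAt ℂ (fun z => Complex.log (h z / h z₀)) z₀ := by
    refine hquot.clog ?_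
    rw [div_self hne]; exact one_mem_slitPlane
  have hran : AnalyticAt ℂ r z₀ := by
    refine analyticAt_const.mul (AnalyticAt.cexp ?_)
    exact hlog.div analyticAt_const (by norm_num)
  have hr0 : r z₀ = c := by simp [hr, div_self hne]
  have hU : AnalyticAt ℂ (fun z => (z - z₀) * r z) z₀ :=
    (analyticAt_id.sub analyticAt_const).mul hran
  refine ⟨fun z => (z - z₀) * r z, hU, by simp, ?_, ?_⟩
  · have hd : HasDerivAt (fun z => (z - z₀) * r z) (1 * r z₀ + (z₀ - z₀) * deriv r z₀) z₀ :=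
      ((hasDerivAt_id z₀).sub_const z₀).mul hran.differentiableAt.hasDerivAt
    rw [hd.deriv, hr0]; simpa using hc0
  · filter_upwards [heq, han.continuousAt.eventually_ne hne] with z hz hz0
    have : r z ^ 2 = h z := by
      have hq : h z / h z₀ ≠ 0 := div_ne_zero hz0 hne
      calc r z ^ 2 = c ^ 2 * (Complex.exp (Complex.log (h z / h z₀) / 2)) ^ 2 := by
            simp only [hr]; ring
        _ = c ^ 2 * Complex.exp (Complex.log (h z / h z₀)) := by
            rw [← Complex.exp_nat_mul]; congr 2; push_cast; ring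
        _ = h z := by rw [Complex.exp_log hq, hc]; field_simp
    rw [hz, mul_pow, this, smul_eq_mul]

theorem analyticAt_xx (L : PeriodPair) {z₀ : ℂ} (hz : z₀ ∉ L.lattice) :
    AnalyticAt ℂ (xx L) z₀ := by
  have : AnalyticAt ℂ (℘[L]) z₀ := L.analyticOnNhd_weierstrassP z₀ hz
  exact (this.sub analyticAt_const).div analyticAt_const (del_ne L)

theorem deriv_xx (L : PeriodPair) (z : ℂ) : deriv (xx L) z = ℘'[L] z / del L := by
  have h : xx L = fun z => (℘[L] z - e1 L) / del L := rfl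
  rw [h, deriv_div_const, deriv_sub_const, L.deriv_weierstrassP]

theorem xx_local_one (L : PeriodPair) {z₀ : ℂ} (hz : z₀ ∉ L.lattice) (h2 : 2 * z₀ ∉ L.lattice) :
    ∃ U V : ℂ → ℂ, LC z₀ U V ∧ ∀ᶠ z in 𝓝 z₀, xx L z - xx L z₀ = U z := by
  have hU : AnalyticAt ℂ (fun z => xx L z - xx L z₀) z₀ :=
    (analyticAt_xx L hz).sub analyticAt_const
  obtain ⟨V, hV⟩ := exists_LC hU (by simp) (by
    rw [deriv_sub_const, deriv_xx]
    exact div_ne_zero (fun h => h2 ((dP_eq_zero_iff L hz).1 h)) (del_ne L))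
  exact ⟨_, V, hV, Eventually.of_forall fun z => rfl⟩

theorem xx_order_two (L : PeriodPair) {z₀ : ℂ} (hz : z₀ ∉ L.lattice)
    (h2 : 2 * z₀ ∈ L.lattice) : analyticOrderAt (fun z => xx L z - xx L z₀) z₀ = 2 := by
  have han := analyticAt_xx L hz
  have hd0 : ℘'[L] z₀ = 0 := (dP_eq_zero_iff L hz).2 h2
  have hfin : analyticOrderAt (deriv (xx L)) z₀ ≠ ⊤ := by
    intro htop
    rw [analyticOrderAt_eq_top] at htop
    have h1 : ∀ᶠ z in 𝓝 z₀, (2 * z) ∈ ((L.lattice : Set ℂ) \ {2 * z₀})ᶜ :=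
      (continuous_const.mul continuous_id).continuousAt.eventually
        (L.compl_lattice_sdiff_singleton_mem_nhds (2 * z₀))
    have h3 : ∀ᶠ z in 𝓝 z₀, z ∈ (L.lattice : Set ℂ)ᶜ :=
      L.isClosed_lattice.isOpen_compl.mem_nhds hz
    have h4 : ∀ᶠ z in 𝓝 z₀, z = z₀ := by
      filter_upwards [htop, h1, h3] with z hz1 hz2 hz3
      rw [deriv_xx, div_eq_zero_iff] at hz1
      have h5 : ℘'[L] z = 0 := hz1.resolve_right (del_ne L)
      have h6 := (dP_eq_zero_iff L (z := z) hz3).1 h5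
      by_contra hne
      exact hz2 ⟨h6, fun h => hne (by
        have : (2 : ℂ) * z = 2 * z₀ := h
        exact mul_left_cancel₀ two_ne_zero this)⟩
    have h5 : ∀ᶠ z in 𝓝[≠] z₀, z = z₀ := h4.filter_mono nhdsWithin_le_nhds
    obtain ⟨z, hz6, hz7⟩ := (h5.and self_mem_nhdsWithin).exists
    exact hz7 hz6
  have hdel := del_ne L
  have hl0 := lam_ne_zero L
  have hl1 := lam_ne_one L
  have hev : ∀ᶠ z in 𝓝 z₀, (deriv (xx L) ^ 2) z =
      4 * del L * (xx L z * (xx L z - 1) * (xx L z - lam L)) := by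
    have h3 : ∀ᶠ z in 𝓝 z₀, z ∈ (L.lattice : Set ℂ)ᶜ :=
      L.isClosed_lattice.isOpen_compl.mem_nhds hz
    filter_upwards [h3] with z hz3
    have h4 := dP_sq_xx L (z := z) hz3
    simp only [Pi.pow_apply, deriv_xx, div_pow]
    rw [h4]; field_simp
  have hkey : ∃ k : ℂ → ℂ, AnalyticAt ℂ k z₀ ∧ k z₀ ≠ 0 ∧
      ∀ᶠ z in 𝓝 z₀, (deriv (xx L) ^ 2) z = ((fun z => xx L z - xx L z₀) * k) z := by
    have hs := dP_sq_xx L hz
    rw [hd0] at hs
    have h0 : xx L z₀ * (xx L z₀ - 1) * (xx L z₀ - lam L) = 0 := by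
      have h4 : (4 * del L ^ 3 : ℂ) ≠ 0 := mul_ne_zero (by norm_num) (pow_ne_zero 3 hdel)
      have h5 : (4 * del L ^ 3 : ℂ) * (xx L z₀ * (xx L z₀ - 1) * (xx L z₀ - lam L)) = 0 := by
        rw [← hs]; norm_num
      exact (mul_eq_zero.1 h5).resolve_left h4
    have h4 : (4 * del L : ℂ) ≠ 0 := mul_ne_zero (by norm_num) hdel
    rcases mul_eq_zero.1 h0 with h | h
    · rcases mul_eq_zero.1 h with h | h
      · refine ⟨fun z => 4 * del L * ((xx L z - 1) * (xx L z - lam L)),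
          analyticAt_const.mul ((han.sub analyticAt_const).mul (han.sub analyticAt_const)), ?_, ?_⟩
        · simp only [h]
          exact mul_ne_zero h4 (mul_ne_zero (by norm_num) (by simpa using hl0))
        · filter_upwards [hev] with z hz
          rw [hz]; simp only [Pi.mul_apply, h]; ring
      · have h' : xx L z₀ = 1 := sub_eq_zero.1 h
        refine ⟨fun z => 4 * del L * (xx L z * (xx L z - lam L)),
          analyticAt_const.mul (han.mul (han.sub analyticAt_const)), ?_, ?_⟩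
        · simp only [h']
          exact mul_ne_zero h4 (mul_ne_zero one_ne_zero (sub_ne_zero.2 hl1.symm))
        · filter_upwards [hev] with z hz
          rw [hz]; simp only [Pi.mul_apply, h']; ring
    · have h' : xx L z₀ = lam L := sub_eq_zero.1 h
      refine ⟨fun z => 4 * del L * (xx L z * (xx L z - 1)),
        analyticAt_const.mul (han.mul (han.sub analyticAt_const)), ?_, ?_⟩
      · simp only [h']
        exact mul_ne_zero h4 (mul_ne_zero hl0 (sub_ne_zero.2 hl1))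
      · filter_upwards [hev] with z hz
        rw [hz]; simp only [Pi.mul_apply, h']; ring
  obtain ⟨k, hk, hk0, hkeq⟩ := hkey
  have hdan : AnalyticAt ℂ (deriv (xx L)) z₀ := han.deriv
  have h5 := analyticOrderAt_congr hkeq
  have hsub : AnalyticAt ℂ (fun z => xx L z - xx L z₀) z₀ := han.sub analyticAt_const
  rw [analyticOrderAt_pow hdan, analyticOrderAt_mul hsub hk,
    hk.analyticOrderAt_eq_zero.2 hk0, add_zero, ← han.analyticOrderAt_deriv_add_one] at h5
  rw [← han.analyticOrderAt_deriv_add_one]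
  generalize analyticOrderAt (deriv (xx L)) z₀ = m at h5 hfin
  lift m to ℕ using hfin
  have h6 : 2 * m = m + 1 := by
    have h7 : ((2 * m : ℕ) : ℕ∞) = ((m + 1 : ℕ) : ℕ∞) := by
      push_cast
      simpa [two_nsmul, two_mul] using h5
    exact_mod_cast h7
  have h8 : m = 1 := by omega
  subst h8
  norm_num

theorem xx_local_two (L : PeriodPair) {z₀ : ℂ} (hz : z₀ ∉ L.lattice) (h2 : 2 * z₀ ∈ L.lattice) :
    ∃ U V : ℂ → ℂ, LC z₀ U V ∧ ∀ᶠ z in 𝓝 z₀, xx L z - xx L z₀ = U z ^ 2 := by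
  have hg : AnalyticAt ℂ (fun z => xx L z - xx L z₀) z₀ :=
    (analyticAt_xx L hz).sub analyticAt_const
  obtain ⟨U, hU, hU0, hU1, hsq⟩ := exists_sqrt hg (xx_order_two L hz h2)
  obtain ⟨V, hV⟩ := exists_LC hU hU0 hU1
  exact ⟨U, V, hV, hsq⟩

theorem xx_local_inf (L : PeriodPair) {z₀ : ℂ} (hz : z₀ ∈ L.lattice) :
    ∃ U V : ℂ → ℂ, LC z₀ U V ∧ ∀ᶠ z in 𝓝[≠] z₀, xx L z ≠ 0 ∧ (xx L z)⁻¹ = U z ^ 2 := by
  set a : ℂ → ℂ := fun z => (z - z₀) ^ 2 * ℘[L - z₀] z + 1 - (z - z₀) ^ 2 / z₀ ^ 2 with ha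
  have haan : AnalyticAt ℂ a z₀ := by
    have h1 : AnalyticAt ℂ ℘[L - z₀] z₀ := L.analyticOnNhd_weierstrassPExcept z₀ z₀ (by simp)
    have h2 : AnalyticAt ℂ (fun z : ℂ => (z - z₀) ^ 2) z₀ := by fun_prop
    have h3 : AnalyticAt ℂ (fun z : ℂ => (z - z₀) ^ 2 / z₀ ^ 2) z₀ := by
      simp_rw [div_eq_mul_inv]
      exact h2.mul analyticAt_const
    exact ((h2.mul h1).add analyticAt_const).sub h3
  have ha0 : a z₀ = 1 := by simp [ha]
  have haeq : ∀ z, z ≠ z₀ → a z = (z - z₀) ^ 2 * ℘[L] z := by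
    intro z hz'
    have := L.ite_eq_one_sub_sq_mul_weierstrassP z₀ hz z
    rw [if_neg hz'] at this
    rw [ha, this]
  set b : ℂ → ℂ := fun z => a z - e1 L * (z - z₀) ^ 2 with hb
  have hban : AnalyticAt ℂ b z₀ := by
    have h2 : AnalyticAt ℂ (fun z : ℂ => e1 L * (z - z₀) ^ 2) z₀ := by fun_prop
    exact haan.sub h2
  have hb0 : b z₀ = 1 := by simp [hb, ha0]
  have hbne : b z₀ ≠ 0 := by rw [hb0]; exact one_ne_zero
  have hh : AnalyticAt ℂ (fun z => del L / b z) z₀ := analyticAt_const.div hban hbne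
  have hg : AnalyticAt ℂ (fun z => (z - z₀) ^ 2 * (del L / b z)) z₀ := by
    have h2 : AnalyticAt ℂ (fun z : ℂ => (z - z₀) ^ 2) z₀ := by fun_prop
    exact h2.mul hh
  have hord : analyticOrderAt (fun z => (z - z₀) ^ 2 * (del L / b z)) z₀ = 2 := by
    refine (hg.analyticOrderAt_eq_natCast (n := 2)).mpr ⟨fun z => del L / b z, hh, ?_, ?_⟩
    · exact div_ne_zero (del_ne L) hbne
    · exact Eventually.of_forall fun z => by simp
  obtain ⟨U, hU, hU0, hU1, hsq⟩ := exists_sqrt hg hord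
  obtain ⟨V, hV⟩ := exists_LC hU hU0 hU1
  refine ⟨U, V, hV, ?_⟩
  have hev : ∀ᶠ z in 𝓝 z₀, b z ≠ 0 := hban.continuousAt.eventually_ne hbne
  filter_upwards [hsq.filter_mono nhdsWithin_le_nhds, hev.filter_mono nhdsWithin_le_nhds,
    self_mem_nhdsWithin] with z h1 h2 h3
  have h3' : z - z₀ ≠ 0 := sub_ne_zero.2 h3
  have hxx : xx L z = b z / (del L * (z - z₀) ^ 2) := by
    have := haeq z h3
    have hP : ℘[L] z = a z / (z - z₀) ^ 2 := by rw [this]; field_simp
    have hdel := del_ne L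
    simp only [xx, hb, hP]
    field_simp
  have hdel := del_ne L
  refine ⟨?_, ?_⟩
  · rw [hxx]; exact div_ne_zero h2 (mul_ne_zero hdel (pow_ne_zero 2 h3'))
  · rw [← h1, hxx]; field_simp

end Pool.Agent.Helper24.K1
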