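import Pool.Agent.Helper24.K1.Ell
import Pool.Agent.Helper24.K1.Loc
import Pool.Agent.Helper24.K1.Br

/-! Module CYC: the main element lies in `K₁(E₁ × E₂)`. -/

noncomputable section

namespace Pool.Agent.Helper24.K1

open Complex MeasureTheory Set Filter Topology
open scoped ComplexConjugate PeriodPair


/-! ### elementary facts on lattices and the Legendre coordinate -/

lemma cyc_notMem (L : PeriodPair) {z₀ : ℂ} (hz : z₀ ∉ L.lattice) :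
    ∀ᶠ z in 𝓝 z₀, z ∉ L.lattice :=
  L.isClosed_lattice.isOpen_compl.mem_nhds hz

lemma cyc_discrete (L : PeriodPair) (z₀ : ℂ) :
    ∀ᶠ z in 𝓝 z₀, z ∈ L.lattice → z = z₀ := by
  filter_upwards [L.compl_lattice_sdiff_singleton_mem_nhds z₀] with z hz hzl
  by_contra hne
  exact hz ⟨hzl, hne⟩

lemma cyc_xx_analytic (L : PeriodPair) {z₀ : ℂ} (hz : z₀ ∉ L.lattice) :
    AnalyticAt ℂ (xx L) z₀ := by
  have h := L.analyticOnNhd_weierstrassP z₀ hz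
  unfold xx
  exact (h.sub analyticAt_const).div_const

lemma cyc_dP_analytic (L : PeriodPair) {z₀ : ℂ} (hz : z₀ ∉ L.lattice) :
    AnalyticAt ℂ ℘'[L] z₀ := L.analyticOnNhd_derivWeierstrassP z₀ hz

lemma cyc_xx_add (L : PeriodPair) (z : ℂ) {l : ℂ} (hl : l ∈ L.lattice) :
    xx L (z + l) = xx L z := by
  unfold xx
  rw [L.weierstrassP_add_coe z ⟨l, hl⟩]

lemma cyc_xx_eq_iff (L : PeriodPair) {z w : ℂ} (hz : z ∉ L.lattice) (hw : w ∉ L.lattice) :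
    xx L z = xx L w ↔ z - w ∈ L.lattice ∨ z + w ∈ L.lattice := by
  rw [← P_eq_iff L hz hw]
  unfold xx
  rw [div_left_inj' (del_ne L), sub_left_inj]

lemma cyc_two_mem_of_xx (L : PeriodPair) {z h : ℂ} (hz : z ∉ L.lattice) (hh : h ∉ L.lattice)
    (h2 : 2 * h ∈ L.lattice) (he : xx L z = xx L h) : 2 * z ∈ L.lattice := by
  rcases (cyc_xx_eq_iff L hz hh).1 he with h1 | h1
  · have : 2 * z = (z - h) + (z - h) + 2 * h := by ring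
    rw [this]
    exact add_mem (add_mem h1 h1) h2
  · have : 2 * z = (z + h) + (z + h) - 2 * h := by ring
    rw [this]
    exact sub_mem (add_mem h1 h1) h2

lemma cyc_xx_ne_zero (L : PeriodPair) {z : ℂ} (hz : z ∉ L.lattice) (h2 : 2 * z ∉ L.lattice) :
    xx L z ≠ 0 := by
  intro h0
  apply h2
  refine cyc_two_mem_of_xx L hz L.ω₁_div_two_notMem_lattice
    (by rw [mul_div_cancel₀ _ (two_ne_zero' ℂ)]; exact L.ω₁_mem_lattice) ?_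
  rw [h0]
  unfold xx e1
  simp

lemma cyc_xx_ne_one (L : PeriodPair) {z : ℂ} (hz : z ∉ L.lattice) (h2 : 2 * z ∉ L.lattice) :
    xx L z ≠ 1 := by
  intro h0
  apply h2
  refine cyc_two_mem_of_xx L hz L.ω₂_div_two_notMem_lattice
    (by rw [mul_div_cancel₀ _ (two_ne_zero' ℂ)]; exact L.ω₂_mem_lattice) ?_
  rw [h0]
  have : xx L (L.ω₂ / 2) = 1 := by
    have h := del_ne L
    unfold xx
    change (e2 L - e1 L) / del L = 1
    exact div_self h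
  rw [this]

/-- the norm of the numerator of the function -/
lemma cyc_prod {L L₂ : PeriodPair} {κ : ℂ} (hκ : κ ^ 2 = (del L / del L₂) ^ 3) {z w : ℂ}
    (hz : z ∉ L.lattice) (hw : w ∉ L₂.lattice) (he : xx L z = xx L₂ w) :
    (κ * ℘'[L₂] w - ℘'[L] z) * (κ * ℘'[L₂] w + ℘'[L] z) =
      4 * del L ^ 3 * (xx L z * (xx L z - 1) * (lam L - lam L₂)) := by
  have h1 := dP_sq_xx L hz
  have h2 := dP_sq_xx L₂ hw
  rw [← he] at h2
  have h3 := del_ne L₂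
  have h4 : (κ * ℘'[L₂] w - ℘'[L] z) * (κ * ℘'[L₂] w + ℘'[L] z) =
      κ ^ 2 * ℘'[L₂] w ^ 2 - ℘'[L] z ^ 2 := by ring
  rw [h4, h1, h2, hκ]
  field_simp
  ring

lemma cyc_ne {L L₂ : PeriodPair} {κ : ℂ} (hκ : κ ^ 2 = (del L / del L₂) ^ 3)
    (hne : lam L ≠ lam L₂) {z w : ℂ}
    (hz : z ∉ L.lattice) (hw : w ∉ L₂.lattice) (he : xx L z = xx L₂ w) (h0 : xx L z ≠ 0)
    (h1 : xx L z ≠ 1) :
    κ * ℘'[L₂] w - ℘'[L] z ≠ 0 ∧ κ * ℘'[L₂] w + ℘'[L] z ≠ 0 := by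
  have h := cyc_prod hκ hz hw he
  have h2 : 4 * del L ^ 3 * (xx L z * (xx L z - 1) * (lam L - lam L₂)) ≠ 0 := by
    refine mul_ne_zero (mul_ne_zero (by norm_num) (pow_ne_zero _ (del_ne L))) ?_
    exact mul_ne_zero (mul_ne_zero h0 (sub_ne_zero.2 h1)) (sub_ne_zero.2 hne)
  rw [← h] at h2
  exact ⟨left_ne_zero_of_mul h2, right_ne_zero_of_mul h2⟩

/-! ### the two local computations -/

/-- a smooth point of the curve -/
lemma cyc_smooth {L L₂ : PeriodPair} {κ : ℂ} (hκ : κ ^ 2 = (del L / del L₂) ^ 3)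
    (hne : lam L ≠ lam L₂) {z₀ w₀ : ℂ} {U₁ V₁ U₂ V₂ : ℂ → ℂ} {m₁ m₂ : ℕ}
    (hm : (m₁ = 1 ∧ m₂ = 1) ∨ (m₁ = 1 ∧ m₂ = 2) ∨ (m₁ = 2 ∧ m₂ = 1))
    (h₁ : LC z₀ U₁ V₁) (h₂ : LC w₀ U₂ V₂)
    (hZ : ∀ᶠ q in 𝓝 (z₀, w₀), q ∈ ZZ L L₂ ↔ U₁ q.1 ^ m₁ = U₂ q.2 ^ m₂)
    (hz : z₀ ∉ L.lattice) (hw : w₀ ∉ L₂.lattice) (he : xx L z₀ = xx L₂ w₀) (h0 : xx L z₀ ≠ 0)
    (h1 : xx L z₀ ≠ 1) : (mainT κ L L₂).HasDiv (z₀, w₀) 0 := by
  have hm1 : m₁ ≠ 0 := by rcases hm with h | h | h <;> omega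
  have hm2 : m₂ ≠ 0 := by rcases hm with h | h | h <;> omega
  have hA1 : AnalyticAt ℂ (fun s : ℂ => V₁ (s ^ m₂)) 0 := by
    have h3 : AnalyticAt ℂ V₁ ((0 : ℂ) ^ m₂) := by rw [zero_pow hm2]; exact h₁.anV
    exact h3.comp (f := fun s : ℂ => s ^ m₂) (analyticAt_id.pow m₂)
  have hA2 : AnalyticAt ℂ (fun s : ℂ => V₂ (s ^ m₁)) 0 := by
    have h3 : AnalyticAt ℂ V₂ ((0 : ℂ) ^ m₁) := by rw [zero_pow hm1]; exact h₂.anV
    exact h3.comp (f := fun s : ℂ => s ^ m₁) (analyticAt_id.pow m₁)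
  have hV1 : V₁ ((0 : ℂ) ^ m₂) = z₀ := by rw [zero_pow hm2]; exact h₁.V0
  have hV2 : V₂ ((0 : ℂ) ^ m₁) = w₀ := by rw [zero_pow hm1]; exact h₂.V0
  have hP1 : AnalyticAt ℂ (fun s : ℂ => ℘'[L] (V₁ (s ^ m₂))) 0 := by
    have h3 : AnalyticAt ℂ ℘'[L] (V₁ ((0 : ℂ) ^ m₂)) := by rw [hV1]; exact cyc_dP_analytic L hz
    exact h3.comp (f := fun s : ℂ => V₁ (s ^ m₂)) hA1
  have hP2 : AnalyticAt ℂ (fun s : ℂ => ℘'[L₂] (V₂ (s ^ m₁))) 0 := by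
    have h3 : AnalyticAt ℂ ℘'[L₂] (V₂ ((0 : ℂ) ^ m₁)) := by rw [hV2]; exact cyc_dP_analytic L₂ hw
    exact h3.comp (f := fun s : ℂ => V₂ (s ^ m₁)) hA2
  obtain ⟨hn1, hn2⟩ := cyc_ne hκ hne hz hw he h0 h1
  have hF : AnalyticAt ℂ (fun s : ℂ => ff κ L L₂ (V₁ (s ^ m₂), V₂ (s ^ m₁))) 0 := by
    unfold ff
    refine AnalyticAt.div ((analyticAt_const.mul hP2).sub hP1) ((analyticAt_const.mul hP2).add hP1)
      ?_
    simp only [hV1, hV2]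
    exact hn2
  have hF0 : ff κ L L₂ (V₁ ((0 : ℂ) ^ m₂), V₂ ((0 : ℂ) ^ m₁)) ≠ 0 := by
    unfold ff
    simp only [hV1, hV2]
    exact div_ne_zero hn1 hn2
  have hord : meromorphicOrderAt (fun s : ℂ => ff κ L L₂ (V₁ (s ^ m₂), V₂ (s ^ m₁))) 0 = 0 := by
    rw [hF.meromorphicOrderAt_eq, hF.analyticOrderAt_eq_zero.2 hF0]
    rfl
  refine ⟨1, fun _ s => (V₁ (s ^ m₂), V₂ (s ^ m₁)), isBranches_one hm h₁ h₂ hZ, ?_, ?_⟩
  · intro i
    refine ⟨hF.meromorphicAt, ?_⟩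
    change meromorphicOrderAt (fun s : ℂ => ff κ L L₂ (V₁ (s ^ m₂), V₂ (s ^ m₁))) 0 ≠ ⊤
    rw [hord]
    exact WithTop.zero_ne_top
  · rw [Fin.sum_univ_one]
    change 0 = (meromorphicOrderAt (fun s : ℂ => ff κ L L₂ (V₁ (s ^ m₂), V₂ (s ^ m₁))) 0).untop₀
    rw [hord]
    rfl

/-- a node of the curve -/
lemma cyc_node {L L₂ : PeriodPair} {κ : ℂ} (hκ : κ ^ 2 = (del L / del L₂) ^ 3)
    (hne : lam L ≠ lam L₂) {z₀ w₀ : ℂ} {U₁ V₁ U₂ V₂ : ℂ → ℂ}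
    (h₁ : LC z₀ U₁ V₁) (h₂ : LC w₀ U₂ V₂)
    (hZ : ∀ᶠ q in 𝓝 (z₀, w₀), q ∈ ZZ L L₂ ↔ U₁ q.1 ^ 2 = U₂ q.2 ^ 2)
    (hs2 : ∀ᶠ s in 𝓝[≠] (0 : ℂ), V₂ s ∉ L₂.lattice ∧ V₂ (-s) ∉ L₂.lattice ∧
      xx L₂ (V₂ (-s)) = xx L₂ (V₂ s))
    (hs1 : ∀ᶠ s in 𝓝[≠] (0 : ℂ), V₁ s ∉ L.lattice ∧ xx L (V₁ s) = xx L₂ (V₂ s) ∧
      xx L (V₁ s) ≠ 0 ∧ xx L (V₁ s) ≠ 1) : (mainT κ L L₂).HasDiv (z₀, w₀) 0 := by
  -- evenness
  have hneg : AnalyticAt ℂ (fun s : ℂ => V₂ (-s)) 0 := by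
    have h3 : AnalyticAt ℂ V₂ (-(0 : ℂ)) := by rw [neg_zero]; exact h₂.anV
    exact h3.comp (f := fun s : ℂ => -s) analyticAt_id.neg
  have hodd : ∀ᶠ s in 𝓝[≠] (0 : ℂ), ℘'[L₂] (V₂ (-s)) = -℘'[L₂] (V₂ s) := by
    have hd : Tendsto (fun s : ℂ => V₂ s - V₂ (-s)) (𝓝 0) (𝓝 0) := by
      have h3 : ContinuousAt (fun s : ℂ => V₂ s - V₂ (-s)) 0 :=
        h₂.anV.continuousAt.sub hneg.continuousAt
      have h4 := h3.tendsto
      rwa [neg_zero, sub_self] at h4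
    have hd' := (hd.eventually (cyc_discrete L₂ 0)).filter_mono (nhdsWithin_le_nhds (s := {0}ᶜ))
    have hUV := h₂.UV.filter_mono (nhdsWithin_le_nhds (s := {(0 : ℂ)}ᶜ))
    have hUVn : ∀ᶠ s in 𝓝[≠] (0 : ℂ), U₂ (V₂ (-s)) = -s := by
      have h3 : Tendsto (fun s : ℂ => -s) (𝓝 0) (𝓝 0) := by
        have := (continuous_neg (G := ℂ)).tendsto 0
        rwa [neg_zero] at this
      exact (h3.eventually h₂.UV).filter_mono nhdsWithin_le_nhds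
    filter_upwards [hs2, hd', hUV, hUVn, self_mem_nhdsWithin] with s hs hds hu hun hs0
    obtain ⟨ha, hb, hc⟩ := hs
    rcases (cyc_xx_eq_iff L₂ ha hb).1 hc.symm with h3 | h3
    · exfalso
      have h4 : V₂ s = V₂ (-s) := sub_eq_zero.1 (hds h3)
      have h5 : s = -s := by rw [← hun, ← h4, hu]
      exact hs0 (self_eq_neg.1 h5)
    · have h4 : V₂ (-s) = -V₂ s + (V₂ s + V₂ (-s)) := by ring
      rw [h4, L₂.derivWeierstrassP_add_coe _ ⟨_, h3⟩, L₂.derivWeierstrassP_neg]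
  have hne' : ∀ᶠ s in 𝓝[≠] (0 : ℂ), κ * ℘'[L₂] (V₂ s) - ℘'[L] (V₁ s) ≠ 0 ∧
      κ * ℘'[L₂] (V₂ s) + ℘'[L] (V₁ s) ≠ 0 := by
    filter_upwards [hs1, hs2] with s ha hb
    exact cyc_ne hκ hne ha.1 hb.1 ha.2.1 ha.2.2.1 ha.2.2.2
  set F : ℂ → ℂ := fun s => ff κ L L₂ (V₁ s, V₂ s) with hF
  set F' : ℂ → ℂ := fun s => ff κ L L₂ (V₁ s, V₂ (-s)) with hF'
  have hFm : MeromorphicAt F 0 := by
    have a1 : MeromorphicAt (fun s => ℘'[L] (V₁ s)) 0 :=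
      (L.meromorphic_derivWeierstrassP _).comp_analyticAt h₁.anV
    have a2 : MeromorphicAt (fun s => ℘'[L₂] (V₂ s)) 0 :=
      (L₂.meromorphic_derivWeierstrassP _).comp_analyticAt h₂.anV
    exact (((MeromorphicAt.const κ 0).mul a2).sub a1).div
      (((MeromorphicAt.const κ 0).mul a2).add a1)
  have hFF : F' =ᶠ[𝓝[≠] 0] F⁻¹ := by
    filter_upwards [hodd] with s hs
    simp only [hF, hF', ff, Pi.inv_apply, hs]
    rw [inv_div, ← neg_div_neg_eq]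
    congr 1 <;> ring
  have hFm' : MeromorphicAt F' 0 := hFm.inv.congr hFF.symm
  have hF'o : meromorphicOrderAt F' 0 = -meromorphicOrderAt F 0 := by
    rw [meromorphicOrderAt_congr hFF, meromorphicOrderAt_inv]
  have hFt : meromorphicOrderAt F 0 ≠ ⊤ := by
    rw [meromorphicOrderAt_ne_top_iff_eventually_ne_zero hFm]
    filter_upwards [hne'] with s hs
    exact div_ne_zero hs.1 hs.2
  have hFt' : meromorphicOrderAt F' 0 ≠ ⊤ := by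
    rw [meromorphicOrderAt_ne_top_iff_eventually_ne_zero hFm']
    filter_upwards [hne', hFF] with s hs hs'
    rw [hs', Pi.inv_apply]
    exact inv_ne_zero (div_ne_zero hs.1 hs.2)
  refine ⟨2, fun i s => (V₁ s, V₂ ((-1) ^ (i : ℕ) * s)), isBranches_two h₁ h₂ hZ, ?_, ?_⟩
  · intro i
    fin_cases i
    · have h3 : ((mainT κ L L₂).f ∘ fun s : ℂ => (V₁ s, V₂ ((-1) ^ ((0 : Fin 2) : ℕ) * s))) = F := by
        funext s
        simp [hF, mainT]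
      exact ⟨h3 ▸ hFm, h3 ▸ hFt⟩
    · have h3 : ((mainT κ L L₂).f ∘ fun s : ℂ => (V₁ s, V₂ ((-1) ^ ((1 : Fin 2) : ℕ) * s))) = F' := by
        funext s
        simp [hF', mainT]
      exact ⟨h3 ▸ hFm', h3 ▸ hFt'⟩
  · rw [Fin.sum_univ_two]
    have h3 : ((mainT κ L L₂).f ∘ fun s : ℂ => (V₁ s, V₂ ((-1) ^ ((0 : Fin 2) : ℕ) * s))) = F := by
      funext s
      simp [hF, mainT]
    have h4 : ((mainT κ L L₂).f ∘ fun s : ℂ => (V₁ s, V₂ ((-1) ^ ((1 : Fin 2) : ℕ) * s))) = F' := by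
      funext s
      simp [hF', mainT]
    rw [h3, h4, hF'o]
    obtain ⟨m, hm⟩ := WithTop.ne_top_iff_exists.1 hFt
    rw [← hm]
    change (0 : ℤ) = m + (-m)
    ring

/-! ### the four kinds of points -/

/-- finite points which are not on the curve -/
lemma cyc_off_fin {L L₂ : PeriodPair} {z₀ w₀ : ℂ} (hz : z₀ ∉ L.lattice) (hw : w₀ ∉ L₂.lattice)
    (he : xx L z₀ ≠ xx L₂ w₀) : ∀ᶠ q in 𝓝 (z₀, w₀), q ∉ ZZ L L₂ := by
  have h1 : ContinuousAt (fun q : ℂ × ℂ => xx L q.1) (z₀, w₀) :=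
    ContinuousAt.comp (g := xx L) (cyc_xx_analytic L hz).continuousAt continuousAt_fst
  have h2 : ContinuousAt (fun q : ℂ × ℂ => xx L₂ q.2) (z₀, w₀) :=
    ContinuousAt.comp (g := xx L₂) (cyc_xx_analytic L₂ hw).continuousAt continuousAt_snd
  have h3 : ∀ᶠ q in 𝓝 (z₀, w₀), xx L q.1 ≠ xx L₂ q.2 :=
    (h1.ne_iff_eventually_ne h2).1 he
  have h4 : ∀ᶠ q in 𝓝 (z₀, w₀), q.1 ∉ L.lattice :=
    (continuousAt_fst (p := (z₀, w₀))).eventually (cyc_notMem L hz)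
  filter_upwards [h3, h4] with q ha hb hq
  rcases hq with hq | hq
  · exact hb hq.1
  · exact ha hq.2.2

/-- local coordinates at lattice points -/
lemma cyc_inf (L : PeriodPair) {z₀ : ℂ} (hz : z₀ ∈ L.lattice) :
    ∃ U V : ℂ → ℂ, LC z₀ U V ∧ (∀ᶠ z in 𝓝 z₀, (z ∈ L.lattice ↔ U z = 0) ∧ (z ∉ L.lattice →
      xx L z ≠ 0 ∧ (xx L z)⁻¹ = U z ^ 2)) := by
  obtain ⟨U, V, h, hx⟩ := xx_local_inf L hz
  refine ⟨U, V, h, ?_⟩
  rw [eventually_nhdsWithin_iff] at hx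
  have hV : ∀ᶠ z in 𝓝 z₀, V (U z) = z := h.VU
  filter_upwards [hx, hV, cyc_discrete L z₀] with z h1 h2 h3
  refine ⟨⟨fun h4 => ?_, fun h4 => ?_⟩, fun h4 => ?_⟩
  · rw [h3 h4, h.U0]
  · rw [h4, h.V0] at h2
    rw [← h2]; exact hz
  · exact h1 fun h5 => h4 (by rw [mem_singleton_iff.1 h5]; exact hz)

/-- exactly one of the two coordinates is infinite -/
lemma cyc_off_inf_aux {L L₂ : PeriodPair} {z₀ w₀ : ℂ} (hz : z₀ ∈ L.lattice)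
    (hw : w₀ ∉ L₂.lattice) : ∀ᶠ q in 𝓝 (z₀, w₀), q.2 ∉ L₂.lattice ∧
      (q.1 ∉ L.lattice → xx L q.1 ≠ xx L₂ q.2) := by
  obtain ⟨U, V, h, hU⟩ := cyc_inf L hz
  have h1 : ContinuousAt (fun q : ℂ × ℂ => U q.1 ^ 2 * xx L₂ q.2) (z₀, w₀) := by
    refine ContinuousAt.mul (ContinuousAt.pow ?_ 2) ?_
    · exact ContinuousAt.comp (g := U) h.anU.continuousAt continuousAt_fst
    · exact ContinuousAt.comp (g := xx L₂) (cyc_xx_analytic L₂ hw).continuousAt continuousAt_snd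
  have h2 : ∀ᶠ q in 𝓝 (z₀, w₀), U q.1 ^ 2 * xx L₂ q.2 ≠ 1 := by
    refine (h1.ne_iff_eventually_ne continuousAt_const).1 ?_
    simp [h.U0]
  have h3 : ∀ᶠ q in 𝓝 (z₀, w₀), q.2 ∉ L₂.lattice :=
    (continuousAt_snd (p := (z₀, w₀))).eventually (cyc_notMem L₂ hw)
  have h4 := (continuousAt_fst (p := (z₀, w₀))).eventually hU
  filter_upwards [h2, h3, h4] with q ha hb hc
  refine ⟨hb, fun hq he => ha ?_⟩
  obtain ⟨hd, he'⟩ := hc.2 hq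
  rw [← he', ← he]
  exact inv_mul_cancel₀ hd

lemma cyc_off_inf_one {L L₂ : PeriodPair} {z₀ w₀ : ℂ} (hz : z₀ ∈ L.lattice)
    (hw : w₀ ∉ L₂.lattice) : ∀ᶠ q in 𝓝 (z₀, w₀), q ∉ ZZ L L₂ := by
  filter_upwards [cyc_off_inf_aux hz hw] with q hq hZ
  rcases hZ with h | h
  · exact hq.1 h.2
  · exact hq.2 h.1 h.2.2

lemma cyc_off_inf_two {L L₂ : PeriodPair} {z₀ w₀ : ℂ} (hz : z₀ ∉ L.lattice)
    (hw : w₀ ∈ L₂.lattice) : ∀ᶠ q in 𝓝 (z₀, w₀), q ∉ ZZ L L₂ := by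
  have h := cyc_off_inf_aux hw hz
  have hs : Tendsto (fun q : ℂ × ℂ => (q.2, q.1)) (𝓝 (z₀, w₀)) (𝓝 (w₀, z₀)) :=
    (continuous_swap (X := ℂ) (Y := ℂ)).tendsto (z₀, w₀)
  filter_upwards [hs.eventually h] with q hq hZ
  rcases hZ with h | h
  · exact hq.1 h.1
  · exact hq.2 h.2.1 h.2.2.symm

lemma cyc_hasDiv_off {κ : ℂ} {L L₂ : PeriodPair} {p : ℂ × ℂ} (h : ∀ᶠ q in 𝓝 p, q ∉ ZZ L L₂) :
    (mainT κ L L₂).HasDiv p 0 :=
  ⟨0, Fin.elim0, isBranches_empty h, fun i => i.elim0, by simp⟩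

/-- the node over infinity -/
lemma cyc_inf_inf {L L₂ : PeriodPair} {κ : ℂ} (hκ : κ ^ 2 = (del L / del L₂) ^ 3)
    (hne : lam L ≠ lam L₂) {z₀ w₀ : ℂ} (hz : z₀ ∈ L.lattice) (hw : w₀ ∈ L₂.lattice) :
    (mainT κ L L₂).HasDiv (z₀, w₀) 0 := by
  obtain ⟨U₁, V₁, h₁, hU₁⟩ := cyc_inf L hz
  obtain ⟨U₂, V₂, h₂, hU₂⟩ := cyc_inf L₂ hw
  have key : ∀ {M : PeriodPair} {m₀ : ℂ} {U V : ℂ → ℂ}, LC m₀ U V →
      (∀ᶠ z in 𝓝 m₀, (z ∈ M.lattice ↔ U z = 0) ∧ (z ∉ M.lattice →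
      xx M z ≠ 0 ∧ (xx M z)⁻¹ = U z ^ 2)) →
      ∀ᶠ s in 𝓝[≠] (0 : ℂ), V s ∉ M.lattice ∧ xx M (V s) = (s ^ 2)⁻¹ := by
    intro M m₀ U V h hU
    have h3 : Tendsto V (𝓝 0) (𝓝 m₀) := by
      have := h.anV.continuousAt.tendsto
      rwa [h.V0] at this
    have h4 := (h3.eventually hU).filter_mono (nhdsWithin_le_nhds (s := {(0 : ℂ)}ᶜ))
    have h5 := h.UV.filter_mono (nhdsWithin_le_nhds (s := {(0 : ℂ)}ᶜ))
    filter_upwards [h4, h5, self_mem_nhdsWithin] with s ha hb hc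
    have hd : V s ∉ M.lattice := fun hd => hc (by
      have := ha.1.1 hd
      rwa [hb] at this)
    refine ⟨hd, ?_⟩
    have he := (ha.2 hd).2
    rw [hb] at he
    rw [← he, inv_inv]
  have k1 := key h₁ hU₁
  have k2 := key h₂ hU₂
  have hnegt : Tendsto (fun s : ℂ => -s) (𝓝[≠] 0) (𝓝[≠] 0) := by
    refine tendsto_nhdsWithin_iff.2 ⟨?_, ?_⟩
    · have := (continuous_neg (G := ℂ)).tendsto 0
      rw [neg_zero] at this
      exact this.mono_left nhdsWithin_le_nhds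
    · filter_upwards [self_mem_nhdsWithin] with s hs
      simpa using hs
  have k2n := hnegt.eventually k2
  refine cyc_node hκ hne h₁ h₂ ?_ ?_ ?_
  · have h4 := (continuousAt_fst (p := (z₀, w₀))).eventually hU₁
    have h5 := (continuousAt_snd (p := (z₀, w₀))).eventually hU₂
    filter_upwards [h4, h5] with q ha hb
    constructor
    · rintro (h | h)
      · rw [ha.1.1 h.1, hb.1.1 h.2]
      · rw [← (ha.2 h.1).2, ← (hb.2 h.2.1).2, h.2.2]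
    · intro h
      by_cases hq : q.1 ∈ L.lattice
      · left
        refine ⟨hq, hb.1.2 ?_⟩
        rw [ha.1.1 hq] at h
        have h6 : U₂ q.2 ^ 2 = 0 := by rw [← h]; ring
        exact pow_eq_zero_iff (two_ne_zero) |>.1 h6
      · right
        have hq2 : q.2 ∉ L₂.lattice := fun hq2 => hq (ha.1.2 (by
          rw [hb.1.1 hq2] at h
          have h6 : U₁ q.1 ^ 2 = 0 := by rw [h]; ring
          exact pow_eq_zero_iff (two_ne_zero) |>.1 h6))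
        refine ⟨hq, hq2, ?_⟩
        rw [← (ha.2 hq).2, ← (hb.2 hq2).2] at h
        exact inv_injective h
  · filter_upwards [k2, k2n] with s ha hb
    refine ⟨ha.1, hb.1, ?_⟩
    rw [ha.2, hb.2]
    ring
  · have hs1 : ∀ᶠ s in 𝓝[≠] (0 : ℂ), (s ^ 2)⁻¹ ≠ 1 := by
      have : ContinuousAt (fun s : ℂ => s ^ 2) 0 := (continuous_pow 2).continuousAt
      have h3 : ∀ᶠ s in 𝓝 (0 : ℂ), s ^ 2 ≠ 1 :=
        (this.ne_iff_eventually_ne continuousAt_const).1 (by simp)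
      filter_upwards [h3.filter_mono nhdsWithin_le_nhds] with s hs hs'
      exact hs (inv_eq_one.1 hs')
    filter_upwards [k1, k2, hs1, self_mem_nhdsWithin] with s ha hb hc hd
    refine ⟨ha.1, by rw [ha.2, hb.2], ?_, ?_⟩
    · rw [ha.2]
      exact inv_ne_zero (pow_ne_zero _ hd)
    · rw [ha.2]; exact hc

/-- near a finite point of the curve -/
lemma cyc_mem_iff {L L₂ : PeriodPair} {z₀ w₀ : ℂ} {U₁ U₂ : ℂ → ℂ} {m₁ m₂ : ℕ}
    (hz : z₀ ∉ L.lattice) (hw : w₀ ∉ L₂.lattice) (he : xx L z₀ = xx L₂ w₀)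
    (h₁ : ∀ᶠ z in 𝓝 z₀, xx L z - xx L z₀ = U₁ z ^ m₁)
    (h₂ : ∀ᶠ w in 𝓝 w₀, xx L₂ w - xx L₂ w₀ = U₂ w ^ m₂) :
    ∀ᶠ q in 𝓝 (z₀, w₀), q ∈ ZZ L L₂ ↔ U₁ q.1 ^ m₁ = U₂ q.2 ^ m₂ := by
  have a1 := (continuousAt_fst (p := (z₀, w₀))).eventually h₁
  have a2 := (continuousAt_snd (p := (z₀, w₀))).eventually h₂
  have a3 := (continuousAt_fst (p := (z₀, w₀))).eventually (cyc_notMem L hz)
  have a4 := (continuousAt_snd (p := (z₀, w₀))).eventually (cyc_notMem L₂ hw)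
  filter_upwards [a1, a2, a3, a4] with q b1 b2 b3 b4
  rw [← b1, ← b2, he, sub_left_inj]
  constructor
  · rintro (h | h)
    · exact absurd h.1 b3
    · exact h.2.2
  · intro h
    exact Or.inr ⟨b3, b4, h⟩

/-- a finite node -/
lemma cyc_fin_node {L L₂ : PeriodPair} {κ : ℂ} (hκ : κ ^ 2 = (del L / del L₂) ^ 3)
    (hne : lam L ≠ lam L₂) {z₀ w₀ : ℂ} (hz : z₀ ∉ L.lattice) (hw : w₀ ∉ L₂.lattice)
    (he : xx L z₀ = xx L₂ w₀) (hz2 : 2 * z₀ ∈ L.lattice) (hw2 : 2 * w₀ ∈ L₂.lattice) :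
    (mainT κ L L₂).HasDiv (z₀, w₀) 0 := by
  obtain ⟨U₁, V₁, h₁, hU₁⟩ := xx_local_two L hz hz2
  obtain ⟨U₂, V₂, h₂, hU₂⟩ := xx_local_two L₂ hw hw2
  have key : ∀ {M : PeriodPair} {m₀ : ℂ} {U V : ℂ → ℂ}, m₀ ∉ M.lattice → LC m₀ U V →
      (∀ᶠ z in 𝓝 m₀, xx M z - xx M m₀ = U z ^ 2) →
      ∀ᶠ s in 𝓝 (0 : ℂ), V s ∉ M.lattice ∧ xx M (V s) = xx M m₀ + s ^ 2 := by
    intro M m₀ U V hm h hU
    have h3 : Tendsto V (𝓝 0) (𝓝 m₀) := by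
      have := h.anV.continuousAt.tendsto
      rwa [h.V0] at this
    filter_upwards [h3.eventually hU, h3.eventually (cyc_notMem M hm), h.UV] with s ha hb hc
    refine ⟨hb, ?_⟩
    rw [hc] at ha
    rw [← ha]; ring
  have k1 := (key hz h₁ hU₁).filter_mono (nhdsWithin_le_nhds (s := {(0 : ℂ)}ᶜ))
  have k2 := (key hw h₂ hU₂).filter_mono (nhdsWithin_le_nhds (s := {(0 : ℂ)}ᶜ))
  have hnegt : Tendsto (fun s : ℂ => -s) (𝓝 0) (𝓝 0) := by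
    have := (continuous_neg (G := ℂ)).tendsto 0
    rwa [neg_zero] at this
  have k2n := (hnegt.eventually (key hw h₂ hU₂)).filter_mono
    (nhdsWithin_le_nhds (s := {(0 : ℂ)}ᶜ))
  have hc : ∀ c : ℂ, ∀ᶠ s in 𝓝[≠] (0 : ℂ), xx L z₀ + s ^ 2 ≠ c := by
    intro c
    by_cases hx : xx L z₀ = c
    · filter_upwards [self_mem_nhdsWithin] with s hs h
      rw [hx] at h
      exact hs (by simpa using h)
    · have : ContinuousAt (fun s : ℂ => xx L z₀ + s ^ 2) 0 := by fun_prop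
      have h3 : ∀ᶠ s in 𝓝 (0 : ℂ), xx L z₀ + s ^ 2 ≠ c :=
        (this.ne_iff_eventually_ne continuousAt_const).1 (by simpa using hx)
      exact h3.filter_mono nhdsWithin_le_nhds
  refine cyc_node hκ hne h₁ h₂ (cyc_mem_iff hz hw he hU₁ hU₂) ?_ ?_
  · filter_upwards [k2, k2n] with s ha hb
    refine ⟨ha.1, hb.1, ?_⟩
    rw [ha.2, hb.2]; ring
  · filter_upwards [k1, k2, hc 0, hc 1] with s ha hb hc hd
    refine ⟨ha.1, by rw [ha.2, hb.2, he], ?_, ?_⟩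
    · rw [ha.2]; exact hc
    · rw [ha.2]; exact hd

/-- all points -/
lemma cyc_hasDiv {L L₂ : PeriodPair} {κ : ℂ} (hκ : κ ^ 2 = (del L / del L₂) ^ 3)
    (hne : lam L ≠ lam L₂) (p : ℂ × ℂ) : (mainT κ L L₂).HasDiv p 0 := by
  obtain ⟨z₀, w₀⟩ := p
  by_cases hz : z₀ ∈ L.lattice
  · by_cases hw : w₀ ∈ L₂.lattice
    · exact cyc_inf_inf hκ hne hz hw
    · exact cyc_hasDiv_off (cyc_off_inf_one hz hw)
  · by_cases hw : w₀ ∈ L₂.lattice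
    · exact cyc_hasDiv_off (cyc_off_inf_two hz hw)
    · by_cases he : xx L z₀ = xx L₂ w₀
      · by_cases hz2 : 2 * z₀ ∈ L.lattice
        · by_cases hw2 : 2 * w₀ ∈ L₂.lattice
          · exact cyc_fin_node hκ hne hz hw he hz2 hw2
          · obtain ⟨U₁, V₁, h₁, hU₁⟩ := xx_local_two L hz hz2
            obtain ⟨U₂, V₂, h₂, hU₂⟩ := xx_local_one L₂ hw hw2
            refine cyc_smooth (m₁ := 2) (m₂ := 1) hκ hne (Or.inr (Or.inr ⟨rfl, rfl⟩)) h₁ h₂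
              (cyc_mem_iff hz hw he hU₁ (by simpa using hU₂)) hz hw he ?_ ?_
            · rw [he]; exact cyc_xx_ne_zero L₂ hw hw2
            · rw [he]; exact cyc_xx_ne_one L₂ hw hw2
        · have h0 := cyc_xx_ne_zero L hz hz2
          have h1 := cyc_xx_ne_one L hz hz2
          obtain ⟨U₁, V₁, h₁, hU₁⟩ := xx_local_one L hz hz2
          by_cases hw2 : 2 * w₀ ∈ L₂.lattice
          · obtain ⟨U₂, V₂, h₂, hU₂⟩ := xx_local_two L₂ hw hw2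
            exact cyc_smooth (m₁ := 1) (m₂ := 2) hκ hne (Or.inr (Or.inl ⟨rfl, rfl⟩)) h₁ h₂
              (cyc_mem_iff hz hw he (by simpa using hU₁) hU₂) hz hw he h0 h1
          · obtain ⟨U₂, V₂, h₂, hU₂⟩ := xx_local_one L₂ hw hw2
            exact cyc_smooth (m₁ := 1) (m₂ := 1) hκ hne (Or.inl ⟨rfl, rfl⟩) h₁ h₂
              (cyc_mem_iff hz hw he (by simpa using hU₁) (by simpa using hU₂)) hz hw he h0 h1
      · exact cyc_hasDiv_off (cyc_off_fin hz hw he)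

/-! ### CYC : file Cyc.lean (uses ELL, LOC, BR) -/
theorem isK1_main {L₁ L₂ L : PeriodPair} (hL : L₁.lattice ≤ L.lattice) {κ : ℂ}
    (hκ : κ ^ 2 = (del L / del L₂) ^ 3) (hne : lam L ≠ lam L₂) :
    IsK1 L₁ L₂ [mainT κ L L₂] := by
  refine ⟨?_, ?_⟩
  · intro T hT
    rw [List.mem_singleton] at hT
    subst hT
    intro p hp l₁ hl₁ l₂ hl₂
    have hl₁' := hL hl₁
    have hm1 : ∀ z : ℂ, z + l₁ ∈ L.lattice ↔ z ∈ L.lattice := fun z =>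
      ⟨fun h => by simpa using sub_mem h hl₁', fun h => add_mem h hl₁'⟩
    have hm2 : ∀ z : ℂ, z + l₂ ∈ L₂.lattice ↔ z ∈ L₂.lattice := fun z =>
      ⟨fun h => by simpa using sub_mem h hl₂, fun h => add_mem h hl₂⟩
    constructor
    · change p ∈ ZZ L L₂ at hp
      change p + (l₁, l₂) ∈ ZZ L L₂
      rcases hp with hp | hp
      · left
        exact ⟨(hm1 _).2 hp.1, (hm2 _).2 hp.2⟩
      · right
        refine ⟨fun h => hp.1 ((hm1 _).1 h), fun h => hp.2.1 ((hm2 _).1 h), ?_⟩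
        change xx L (p.1 + l₁) = xx L₂ (p.2 + l₂)
        rw [cyc_xx_add L _ hl₁', cyc_xx_add L₂ _ hl₂]
        exact hp.2.2
    · change ff κ L L₂ (p + (l₁, l₂)) = ff κ L L₂ p
      unfold ff
      change (κ * ℘'[L₂] (p.2 + l₂) - ℘'[L] (p.1 + l₁)) / (κ * ℘'[L₂] (p.2 + l₂) + ℘'[L] (p.1 + l₁))
        = _
      rw [L₂.derivWeierstrassP_add_coe _ ⟨l₂, hl₂⟩, L.derivWeierstrassP_add_coe _ ⟨l₁, hl₁'⟩]
  · intro p
    have h := HasBdry.cons (cyc_hasDiv hκ hne p) (HasBdry.nil p)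
    simpa using h

end Pool.Agent.Helper24.K1
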