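import Pool.Agent.Helper24.K1.Defs

/-! Decomposable elements `(E₁ × pt, c)` and `(pt × E₂, c)` of `K₁(E₁ × E₂)`. -/

noncomputable section

namespace Pool.Agent.Helper24.K1

open Complex MeasureTheory Set Filter Topology
open scoped ComplexConjugate

section Aux

variable (L : PeriodPair)

lemma dec_area_pos : 0 < |(conj L.ω₁ * L.ω₂).im| := by
  rw [abs_pos]
  intro h
  have hli := LinearIndependent.pair_iff.mp L.indep
  have hω : L.ω₁ ≠ 0 := by
    intro h0
    have := hli 1 0 (by simp [h0])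
    exact one_ne_zero this.1
  -- `conj ω₁ * ω₂ = r` real, so `|ω₁|² ω₂ = r ω₁`
  have hr : conj L.ω₁ * L.ω₂ = (((conj L.ω₁ * L.ω₂).re : ℝ) : ℂ) := by
    apply Complex.ext
    · simp
    · rw [h]; simp
  set r : ℝ := (conj L.ω₁ * L.ω₂).re
  have h1 : ((Complex.normSq L.ω₁ : ℝ) : ℂ) * L.ω₂ = (r : ℂ) * L.ω₁ := by
    rw [Complex.normSq_eq_conj_mul_self, ← hr]
    ring
  have h2 := hli (-r) (Complex.normSq L.ω₁) (by
    simp only [Complex.real_smul, Complex.ofReal_neg]
    rw [h1]; ring)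
  exact hω (Complex.normSq_eq_zero.1 h2.2)

lemma dec_intE_const {V : Type*} [NormedAddCommGroup V] [NormedSpace ℝ V] [CompleteSpace V]
    {F : ℂ → V} {v : V} (h : ∀ z, F z = v) : intE L F = |(conj L.ω₁ * L.ω₂).im| • v := by
  unfold intE
  congr 1
  simp only [h]
  rw [MeasureTheory.setIntegral_const]
  have : (volume : Measure (ℝ × ℝ)).real (Icc (0 : ℝ) 1 ×ˢ Icc (0 : ℝ) 1) = 1 := by
    rw [MeasureTheory.measureReal_def, Measure.volume_eq_prod, Measure.prod_prod]
    simp
  rw [this, one_smul]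

lemma dec_par_lattice {w : ℂ} : (w ∈ par L ∧ w ∈ L.lattice) ↔ w = 0 := by
  constructor
  · rintro ⟨⟨x, hx, y, hy, rfl⟩, hl⟩
    obtain ⟨m, n, hmn⟩ := PeriodPair.mem_lattice.1 hl
    have hli := LinearIndependent.pair_iff.mp L.indep
    have h := hli (x - m) (y - n) (by
      simp only [Complex.real_smul]
      push_cast
      linear_combination -hmn)
    have hxm : x = m := by linarith [h.1]
    have hyn : y = n := by linarith [h.2]
    have hm : m = 0 := by
      have h1 : (0 : ℝ) ≤ m := hxm ▸ hx.1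
      have h2 : (m : ℝ) < 1 := hxm ▸ hx.2
      have h1' : 0 ≤ m := by exact_mod_cast h1
      have h2' : m < 1 := by exact_mod_cast h2
      omega
    have hn : n = 0 := by
      have h1 : (0 : ℝ) ≤ n := hyn ▸ hy.1
      have h2 : (n : ℝ) < 1 := hyn ▸ hy.2
      have h1' : 0 ≤ n := by exact_mod_cast h1
      have h2' : n < 1 := by exact_mod_cast h2
      omega
    rw [hxm, hyn, hm, hn]
    simp
  · rintro rfl
    exact ⟨⟨0, by simp, 0, by simp, by simp⟩, zero_mem _⟩

lemma dec_par_infinite : (par L).Infinite := by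
  have hli := LinearIndependent.pair_iff.mp L.indep
  have hω : L.ω₁ ≠ 0 := by
    intro h0
    have := hli 1 0 (by simp [h0])
    exact one_ne_zero this.1
  refine Set.infinite_of_injective_forall_mem
    (f := fun n : ℕ => (((1 : ℝ) / (n + 2) : ℝ) : ℂ) * L.ω₁) ?_ ?_
  · intro m n hmn
    have h1 := mul_right_cancel₀ hω hmn
    have h2 : (1 : ℝ) / (m + 2) = 1 / (n + 2) := by exact_mod_cast h1
    have hm : (0 : ℝ) < m + 2 := by positivity
    have hn : (0 : ℝ) < n + 2 := by positivity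
    rw [div_eq_div_iff hm.ne' hn.ne'] at h2
    have h3 : (m : ℝ) = n := by linarith
    exact_mod_cast h3
  · intro n
    refine ⟨1 / ((n : ℝ) + 2), ⟨by positivity, ?_⟩, 0, by simp, by simp⟩
    rw [div_lt_one (by positivity)]
    have : (0 : ℝ) ≤ n := Nat.cast_nonneg n
    linarith

lemma dec_finsum_const {s : Set ℂ} (hs : s.Infinite) (a : ℝ) : ∑ᶠ _w ∈ s, a = 0 := by
  rcases eq_or_ne a 0 with rfl | ha
  · simp
  · apply finsum_mem_eq_zero_of_infinite
    have : Function.support (fun _ : ℂ => a) = Set.univ := by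
      ext x; simp [ha]
    rw [this, Set.inter_univ]
    exact hs

end Aux

/-- a constant function has divisor `0` -/
lemma dec_hasDiv {Z : Set (ℂ × ℂ)} {p : ℂ × ℂ} {k : ℕ} {γ : Fin k → ℂ → ℂ × ℂ}
    (h : IsBranches Z p γ) {c : ℂ} (hc : c ≠ 0) :
    Term.HasDiv ⟨1, Z, fun _ => c⟩ p 0 := by
  have ho : ∀ i, meromorphicOrderAt ((fun _ : ℂ × ℂ => c) ∘ γ i) 0 = 0 := by
    intro i
    have : ((fun _ : ℂ × ℂ => c) ∘ γ i) = fun _ => c := rfl
    classical
    rw [this, meromorphicOrderAt_const, if_neg hc]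
  refine ⟨k, γ, h, fun i => ⟨MeromorphicAt.const c 0, ?_⟩, ?_⟩
  · simp only
    rw [ho i]
    exact WithTop.zero_ne_top
  · simp only [ho]
    simp

lemma dec_isK1 {L₁ L₂ : PeriodPair} {Z : Set (ℂ × ℂ)}
    (hper : ∀ p ∈ Z, ∀ l₁ ∈ L₁.lattice, ∀ l₂ ∈ L₂.lattice, p + (l₁, l₂) ∈ Z)
    (hbr : ∀ p, ∃ (k : ℕ) (γ : Fin k → ℂ → ℂ × ℂ), IsBranches Z p γ) {c : ℂ} (hc : c ≠ 0) :
    IsK1 L₁ L₂ [⟨1, Z, fun _ => c⟩] where
  periodic T hT p hp l₁ h₁ l₂ h₂ := by
    simp only [List.mem_singleton] at hT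
    subst hT
    exact ⟨hper p hp l₁ h₁ l₂ h₂, rfl⟩
  bdry p := by
    obtain ⟨k, γ, h⟩ := hbr p
    have := HasBdry.cons (dec_hasDiv h hc) (HasBdry.nil p)
    simpa using this

lemma dec_branches_empty {Z : Set (ℂ × ℂ)} {p : ℂ × ℂ} (h : ∀ᶠ q in 𝓝 p, q ∉ Z) :
    IsBranches Z p (Fin.elim0 : Fin 0 → ℂ → ℂ × ℂ) where
  analytic i := i.elim0
  base i := i.elim0
  inj i := i.elim0
  mem i := i.elim0
  cover _ _ := h.mono fun _ hq hqZ => absurd hqZ hq

lemma dec_branches_snd (L : PeriodPair) (p : ℂ × ℂ) :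
    ∃ (k : ℕ) (γ : Fin k → ℂ → ℂ × ℂ), IsBranches {q : ℂ × ℂ | q.2 ∈ L.lattice} p γ := by
  have hnb : ∀ᶠ q : ℂ × ℂ in 𝓝 p, q.2 ∈ L.lattice → q.2 = p.2 := by
    have := (continuous_snd.continuousAt (x := p)).eventually
      (L.compl_lattice_sdiff_singleton_mem_nhds p.2)
    filter_upwards [this] with q hq hl
    by_contra hne
    exact hq ⟨hl, hne⟩
  by_cases hp : p.2 ∈ L.lattice
  · refine ⟨1, fun _ s => (p.1 + s, p.2), ⟨fun _ => ?_, fun _ => by simp, fun i j => ?_,
      fun _ => ?_, fun U hU => ?_⟩⟩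
    · exact (analyticAt_const.add analyticAt_id).prod analyticAt_const
    · refine Eventually.of_forall fun q hq => Or.inl ⟨Subsingleton.elim _ _, ?_⟩
      rw [Prod.mk.injEq] at hq
      exact add_left_cancel hq.1
    · exact Eventually.of_forall fun s => hp
    · have hc : Tendsto (fun q : ℂ × ℂ => q.1 - p.1) (𝓝 p) (𝓝 0) := by
        have : ContinuousAt (fun q : ℂ × ℂ => q.1 - p.1) p := by fun_prop
        simpa [ContinuousAt] using this
      filter_upwards [hnb, hc.eventually hU] with q h1 h2 hq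
      refine ⟨0, q.1 - p.1, h2, ?_⟩
      ext1
      · simp
      · exact (h1 hq).symm
  · refine ⟨0, Fin.elim0, dec_branches_empty ?_⟩
    filter_upwards [hnb] with q h1 hq
    exact hp (h1 hq ▸ hq)

lemma dec_branches_fst (L : PeriodPair) (p : ℂ × ℂ) :
    ∃ (k : ℕ) (γ : Fin k → ℂ → ℂ × ℂ), IsBranches {q : ℂ × ℂ | q.1 ∈ L.lattice} p γ := by
  have hnb : ∀ᶠ q : ℂ × ℂ in 𝓝 p, q.1 ∈ L.lattice → q.1 = p.1 := by
    have := (continuous_fst.continuousAt (x := p)).eventually
      (L.compl_lattice_sdiff_singleton_mem_nhds p.1)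
    filter_upwards [this] with q hq hl
    by_contra hne
    exact hq ⟨hl, hne⟩
  by_cases hp : p.1 ∈ L.lattice
  · refine ⟨1, fun _ s => (p.1, p.2 + s), ⟨fun _ => ?_, fun _ => by simp, fun i j => ?_,
      fun _ => ?_, fun U hU => ?_⟩⟩
    · exact analyticAt_const.prod (analyticAt_const.add analyticAt_id)
    · refine Eventually.of_forall fun q hq => Or.inl ⟨Subsingleton.elim _ _, ?_⟩
      rw [Prod.mk.injEq] at hq
      exact add_left_cancel hq.2
    · exact Eventually.of_forall fun s => hp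
    · have hc : Tendsto (fun q : ℂ × ℂ => q.2 - p.2) (𝓝 p) (𝓝 0) := by
        have : ContinuousAt (fun q : ℂ × ℂ => q.2 - p.2) p := by fun_prop
        simpa [ContinuousAt] using this
      filter_upwards [hnb, hc.eventually hU] with q h1 h2 hq
      refine ⟨0, q.2 - p.2, h2, ?_⟩
      ext1
      · exact (h1 hq).symm
      · simp
  · refine ⟨0, Fin.elim0, dec_branches_empty ?_⟩
    filter_upwards [hnb] with q h1 hq
    exact hp (h1 hq ▸ hq)

/-- an analytic function with values in the lattice is locally constant -/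
lemma dec_slope_snd (L : PeriodPair) (p : ℂ × ℂ) : slope {q : ℂ × ℂ | q.2 ∈ L.lattice} p = 0 := by
  unfold slope
  split_ifs with h
  · obtain ⟨h1, h2, h3⟩ := h.choose_spec
    set g := h.choose
    have hnb : ∀ᶠ z in 𝓝 p.1, g z = g p.1 := by
      have := h1.continuousAt.eventually (L.compl_lattice_sdiff_singleton_mem_nhds (g p.1))
      filter_upwards [this, h3] with z hz hl
      by_contra hne
      exact hz ⟨hl, hne⟩
    have : g =ᶠ[𝓝 p.1] fun _ => g p.1 := hnb
    rw [this.deriv_eq]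
    simp
  · rfl

lemma dec_slope_fst (L : PeriodPair) (p : ℂ × ℂ) : slope {q : ℂ × ℂ | q.1 ∈ L.lattice} p = 0 := by
  unfold slope
  rw [dif_neg]
  rintro ⟨g, -, -, h3⟩
  have h1 : ∀ᶠ z in 𝓝 p.1, z = p.1 := by
    filter_upwards [L.compl_lattice_sdiff_singleton_mem_nhds p.1, h3] with z hz hl
    by_contra hne
    exact hz ⟨hl, hne⟩
  have h2 : ∀ᶠ z in 𝓝[≠] p.1, False := by
    filter_upwards [mem_nhdsWithin_of_mem_nhds h1, self_mem_nhdsWithin] with z hz hz'
    exact hz' hz
  exact h2.exists.elim fun _ h => h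

theorem exists_dec1 (L₁ L₂ : PeriodPair) (r : ℝ) :
    ∃ ξ : Chain, IsK1 L₁ L₂ ξ ∧ ξ.reg L₁ L₂ = (r, 0, 0) := by
  set A := |(conj L₁.ω₁ * L₁.ω₂).im| with hA
  have hA0 : A ≠ 0 := (dec_area_pos L₁).ne'
  set c : ℂ := ((Real.exp (r / A) : ℝ) : ℂ) with hc
  have hc0 : c ≠ 0 := by
    rw [hc]; exact_mod_cast (Real.exp_pos _).ne'
  have hlog : Real.log ‖c‖ = r / A := by
    rw [hc, Complex.norm_real, Real.norm_eq_abs, abs_of_pos (Real.exp_pos _), Real.log_exp]
  set Z : Set (ℂ × ℂ) := {q | q.2 ∈ L₂.lattice} with hZ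
  refine ⟨[⟨1, Z, fun _ => c⟩], dec_isK1 ?_ (dec_branches_snd L₂) hc0, ?_⟩
  · intro p hp l₁ _ l₂ h₂
    exact add_mem hp h₂
  · have e11 : Term.reg11 L₁ L₂ ⟨1, Z, fun _ => c⟩ = r := by
      unfold Term.reg11
      have hset : ∀ z : ℂ, {w | w ∈ par L₂ ∧ (z, w) ∈ Z} = {0} := by
        intro z
        ext w
        simp only [hZ, Set.mem_ofPred_eq, Set.mem_singleton_iff]
        exact dec_par_lattice L₂
      rw [dec_intE_const L₁ (v := r / A)]
      · rw [smul_eq_mul, ← hA]
        field_simp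
      · intro z
        simp only [hset, hlog]
        rw [finsum_mem_singleton]
    have e22 : Term.reg22 L₁ L₂ ⟨1, Z, fun _ => c⟩ = 0 := by
      unfold Term.reg22
      rw [dec_intE_const L₂ (v := (0 : ℝ))]
      · simp
      · intro w
        by_cases hw : w ∈ L₂.lattice
        · have hset : {z | z ∈ par L₁ ∧ (z, w) ∈ Z} = par L₁ := by
            ext z
            simp [hZ, hw]
          simp only [hset]
          exact dec_finsum_const (dec_par_infinite L₁) _
        · have hset : {z | z ∈ par L₁ ∧ (z, w) ∈ Z} = ∅ := by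
            ext z
            simp [hZ, hw]
          simp only [hset]
          exact finsum_mem_empty
    have e12 : Term.reg12 L₁ L₂ ⟨1, Z, fun _ => c⟩ = 0 := by
      unfold Term.reg12
      rw [dec_intE_const L₁ (v := (0 : ℂ))]
      · simp
      · intro z
        simp only [hZ, dec_slope_snd, map_zero, mul_zero]
        simp
    unfold Chain.reg
    simp [e11, e22, e12]

theorem exists_dec2 (L₁ L₂ : PeriodPair) (r : ℝ) :
    ∃ ξ : Chain, IsK1 L₁ L₂ ξ ∧ ξ.reg L₁ L₂ = (0, r, 0) := by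
  set A := |(conj L₂.ω₁ * L₂.ω₂).im| with hA
  have hA0 : A ≠ 0 := (dec_area_pos L₂).ne'
  set c : ℂ := ((Real.exp (r / A) : ℝ) : ℂ) with hc
  have hc0 : c ≠ 0 := by
    rw [hc]; exact_mod_cast (Real.exp_pos _).ne'
  have hlog : Real.log ‖c‖ = r / A := by
    rw [hc, Complex.norm_real, Real.norm_eq_abs, abs_of_pos (Real.exp_pos _), Real.log_exp]
  set Z : Set (ℂ × ℂ) := {q | q.1 ∈ L₁.lattice} with hZ
  refine ⟨[⟨1, Z, fun _ => c⟩], dec_isK1 ?_ (dec_branches_fst L₁) hc0, ?_⟩
  · intro p hp l₁ h₁ l₂ _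
    exact add_mem hp h₁
  · have e11 : Term.reg11 L₁ L₂ ⟨1, Z, fun _ => c⟩ = 0 := by
      unfold Term.reg11
      rw [dec_intE_const L₁ (v := (0 : ℝ))]
      · simp
      · intro z
        by_cases hz : z ∈ L₁.lattice
        · have hset : {w | w ∈ par L₂ ∧ (z, w) ∈ Z} = par L₂ := by
            ext w
            simp [hZ, hz]
          simp only [hset]
          exact dec_finsum_const (dec_par_infinite L₂) _
        · have hset : {w | w ∈ par L₂ ∧ (z, w) ∈ Z} = ∅ := by
            ext w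
            simp [hZ, hz]
          simp only [hset]
          exact finsum_mem_empty
    have e22 : Term.reg22 L₁ L₂ ⟨1, Z, fun _ => c⟩ = r := by
      unfold Term.reg22
      have hset : ∀ w : ℂ, {z | z ∈ par L₁ ∧ (z, w) ∈ Z} = {0} := by
        intro w
        ext z
        simp only [hZ, Set.mem_ofPred_eq, Set.mem_singleton_iff]
        exact dec_par_lattice L₁
      rw [dec_intE_const L₂ (v := r / A)]
      · rw [smul_eq_mul, ← hA]
        field_simp
      · intro z
        simp only [hset, hlog]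
        rw [finsum_mem_singleton]
    have e12 : Term.reg12 L₁ L₂ ⟨1, Z, fun _ => c⟩ = 0 := by
      unfold Term.reg12
      rw [dec_intE_const L₁ (v := (0 : ℂ))]
      · simp
      · intro z
        simp only [hZ, dec_slope_fst, map_zero, mul_zero]
        simp
    unfold Chain.reg
    simp [e11, e22, e12]

end Pool.Agent.Helper24.K1
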