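import Mathlib

/-!
# `K₁` of a product of two elliptic curves and Beilinson's real regulator: definitions

`L₁ L₂ : PeriodPair` are pairs of `ℝ`-linearly independent periods, `E₁ = ℂ / L₁.lattice` and
`E₂ = ℂ / L₂.lattice` the corresponding elliptic curves and `X = E₁ × E₂ = ℂ² / (L₁ × L₂)`.

`K₁(X)^(2) = H³_M(X, ℚ(2)) = CH²(X, 1)_ℚ` is the group of formal sums `∑ n_k (Z_k, f_k)` of curves
`Z_k ⊂ X` and non-zero rational functions `f_k` on (the normalisation of) `Z_k` with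
`∑ n_k div f_k = 0` on `X`, modulo tame symbols, tensored with `ℚ`.  A curve in `X` is described by
its inverse image in `ℂ²`, an `L₁ × L₂`-invariant analytic subset of pure dimension one, and the
points of its normalisation over `p` by the local branches at `p`.
-/

noncomputable section

namespace Pool.Agent.Helper24.K1

open Complex MeasureTheory Set Filter Topology
open scoped ComplexConjugate

/-- Near the point `p` the set `Z ⊂ ℂ²` is the union of `k` distinct irreducible germs of analytic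
curves, parametrised by the injective analytic germs `γ 0, …, γ (k - 1)` with `γ i 0 = p`
(the local branches of `Z` at `p`).  For `k = 0` it says that `p` is not in the closure of `Z`. -/
structure IsBranches (Z : Set (ℂ × ℂ)) (p : ℂ × ℂ) {k : ℕ} (γ : Fin k → ℂ → ℂ × ℂ) : Prop where
  analytic : ∀ i, AnalyticAt ℂ (γ i) 0
  base : ∀ i, γ i 0 = p
  inj : ∀ i j, ∀ᶠ q : ℂ × ℂ in 𝓝 (0, 0), γ i q.1 = γ j q.2 →
    (i = j ∧ q.1 = q.2) ∨ (q.1 = 0 ∧ q.2 = 0)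
  mem : ∀ i, ∀ᶠ s in 𝓝 (0 : ℂ), γ i s ∈ Z
  cover : ∀ U ∈ 𝓝 (0 : ℂ), ∀ᶠ q in 𝓝 p, q ∈ Z → ∃ i, ∃ s ∈ U, γ i s = q

/-- A term `n (Z, f)`: an integer, a curve and a function on it. -/
structure Term where
  n : ℤ
  Z : Set (ℂ × ℂ)
  f : ℂ × ℂ → ℂ

/-- `Z` and `f` are `L₁ × L₂`-periodic. -/
def Term.Periodic (L₁ L₂ : PeriodPair) (T : Term) : Prop :=
  ∀ p ∈ T.Z, ∀ l₁ ∈ L₁.lattice, ∀ l₂ ∈ L₂.lattice,
    p + (l₁, l₂) ∈ T.Z ∧ T.f (p + (l₁, l₂)) = T.f p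

/-- `Z` has finitely many branches at `p`, along each of them `f` is meromorphic and not identically
zero, and the multiplicity of `p` in `div f` (the sum of the orders of `f` along the branches of
`Z` at `p`) is `d`. -/
def Term.HasDiv (T : Term) (p : ℂ × ℂ) (d : ℤ) : Prop :=
  ∃ (k : ℕ) (γ : Fin k → ℂ → ℂ × ℂ), IsBranches T.Z p γ ∧
    (∀ i, MeromorphicAt (T.f ∘ γ i) 0 ∧ meromorphicOrderAt (T.f ∘ γ i) 0 ≠ ⊤) ∧
    d = ∑ i, (meromorphicOrderAt (T.f ∘ γ i) 0).untop₀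

/-- Formal finite sums `∑ n_k (Z_k, f_k)`. -/
abbrev Chain := List Term

/-- The multiplicity of `p` in `∑ n_k div f_k` is `b`. -/
inductive HasBdry : Chain → ℂ × ℂ → ℤ → Prop
  | nil (p : ℂ × ℂ) : HasBdry [] p 0
  | cons {T : Term} {ξ : Chain} {p : ℂ × ℂ} {d b : ℤ} :
      T.HasDiv p d → HasBdry ξ p b → HasBdry (T :: ξ) p (T.n * d + b)

/-- `ξ = ∑ n_k (Z_k, f_k)` is an element of `K₁(X)`: the curves and functions are
`L₁ × L₂`-periodic and `∑ n_k div f_k = 0`. -/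
structure IsK1 (L₁ L₂ : PeriodPair) (ξ : Chain) : Prop where
  periodic : ∀ T ∈ ξ, T.Periodic L₁ L₂
  bdry : ∀ p : ℂ × ℂ, HasBdry ξ p 0

/-- The slope `dw/dz` of the curve `Z` at the point `p = (z, w)`: the derivative at `z` of an
analytic function `g` with `g z = w` whose graph lies in `Z`. -/
def slope (Z : Set (ℂ × ℂ)) (p : ℂ × ℂ) : ℂ :=
  open Classical in
  if h : ∃ g : ℂ → ℂ, AnalyticAt ℂ g p.1 ∧ g p.1 = p.2 ∧ ∀ᶠ z in 𝓝 p.1, (z, g z) ∈ Z then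
    deriv h.choose p.1
  else 0

/-- The half open fundamental parallelogram `{x ω₁ + y ω₂ : 0 ≤ x, y < 1}`. -/
def par (L : PeriodPair) : Set ℂ :=
  {z | ∃ x ∈ Ico (0 : ℝ) 1, ∃ y ∈ Ico (0 : ℝ) 1, z = x * L.ω₁ + y * L.ω₂}

/-- The integral over `E = ℂ / L.lattice` of the `L.lattice`-periodic function `F` with respect to
Lebesgue measure, as integral over the parallelogram `{x ω₁ + y ω₂ : 0 ≤ x, y ≤ 1}`. -/
def intE {V : Type*} [NormedAddCommGroup V] [NormedSpace ℝ V] (L : PeriodPair) (F : ℂ → V) : V :=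
  |(conj L.ω₁ * L.ω₂).im| •
    ∫ p in Icc (0 : ℝ) 1 ×ˢ Icc (0 : ℝ) 1, F (p.1 * L.ω₁ + p.2 * L.ω₂)

/-- `∫_Z log|f| (i/2) dz ∧ dz̄`, computed with the first projection `Z → E₁`. -/
def Term.reg11 (L₁ L₂ : PeriodPair) (T : Term) : ℝ :=
  intE L₁ fun z => ∑ᶠ w ∈ {w | w ∈ par L₂ ∧ (z, w) ∈ T.Z}, Real.log ‖T.f (z, w)‖

/-- `∫_Z log|f| (i/2) dw ∧ dw̄`, computed with the second projection `Z → E₂`. -/
def Term.reg22 (L₁ L₂ : PeriodPair) (T : Term) : ℝ :=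
  intE L₂ fun w => ∑ᶠ z ∈ {z | z ∈ par L₁ ∧ (z, w) ∈ T.Z}, Real.log ‖T.f (z, w)‖

/-- `∫_Z log|f| (i/2) dz ∧ dw̄`, computed with the first projection `Z → E₁`. -/
def Term.reg12 (L₁ L₂ : PeriodPair) (T : Term) : ℂ :=
  intE L₁ fun z => ∑ᶠ w ∈ {w | w ∈ par L₂ ∧ (z, w) ∈ T.Z},
    (Real.log ‖T.f (z, w)‖ : ℂ) * conj (slope T.Z (z, w))

/-- The real regulator of `ξ` as a linear form on the real `(1,1)`-forms
`α (i/2) dz ∧ dz̄ + β (i/2) dw ∧ dw̄ + Re (c (i/2) dz ∧ dw̄)`. -/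
def Chain.reg (L₁ L₂ : PeriodPair) (ξ : Chain) : ℝ × ℝ × ℂ :=
  (ξ.map fun T => (T.n : ℝ) • (T.reg11 L₁ L₂, T.reg22 L₁ L₂, T.reg12 L₁ L₂)).sum

end Pool.Agent.Helper24.K1
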