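import Pool.Agent.Helper24.K1.Ell
import Pool.Agent.Helper24.K1.Loc
import Pool.Agent.Helper24.K1.LogM
import Pool.Agent.Helper24.K1.NullSets

/-! The fibres of `ZZ L L₂` over `ℂ / L` and the regulator of the main element. -/

noncomputable section

namespace Pool.Agent.Helper24.K1

open Complex MeasureTheory Set Filter Topology
open scoped ComplexConjugate PeriodPair

/-! ### Representatives modulo a lattice -/

lemma Fib.exists_rep (L : PeriodPair) (w : ℂ) : ∃ v ∈ par L, w - v ∈ L.lattice := by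
  have h := L.basis.sum_repr w
  rw [Fin.sum_univ_two, L.basis_zero, L.basis_one, real_smul, real_smul] at h
  obtain ⟨x, hx⟩ : ∃ x : ℝ, x = L.basis.repr w 0 := ⟨_, rfl⟩
  obtain ⟨y, hy⟩ : ∃ y : ℝ, y = L.basis.repr w 1 := ⟨_, rfl⟩
  rw [← hx, ← hy] at h
  refine ⟨(Int.fract x : ℝ) * L.ω₁ + (Int.fract y : ℝ) * L.ω₂,
    ⟨Int.fract x, ⟨Int.fract_nonneg x, Int.fract_lt_one x⟩, Int.fract y,
      ⟨Int.fract_nonneg y, Int.fract_lt_one y⟩, rfl⟩, ?_⟩
  rw [PeriodPair.mem_lattice]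
  refine ⟨⌊x⌋, ⌊y⌋, ?_⟩
  rw [← h]
  have h1 : (Int.fract x : ℝ) = x - ⌊x⌋ := rfl
  have h2 : (Int.fract y : ℝ) = y - ⌊y⌋ := rfl
  rw [h1, h2]
  push_cast
  ring

lemma Fib.rep_unique (L : PeriodPair) {v w : ℂ} (hv : v ∈ par L) (hw : w ∈ par L)
    (h : v - w ∈ L.lattice) : v = w := by
  obtain ⟨x, hx, y, hy, rfl⟩ := hv
  obtain ⟨x', hx', y', hy', rfl⟩ := hw
  obtain ⟨m, n, hmn⟩ := PeriodPair.mem_lattice.mp h
  have hi := LinearIndependent.pair_iff.mp L.indep (x - x' - m) (y - y' - n) (by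
    rw [real_smul, real_smul]
    push_cast
    linear_combination -hmn)
  obtain ⟨h1, h2⟩ := hi
  have hm : m = 0 := by
    have a1 : (m : ℝ) < 1 := by linarith [hx.1, hx.2, hx'.1, hx'.2]
    have a2 : (-1 : ℝ) < m := by linarith [hx.1, hx.2, hx'.1, hx'.2]
    have a3 : m < 1 := by exact_mod_cast a1
    have a4 : -1 < m := by exact_mod_cast a2
    omega
  have hn : n = 0 := by
    have a1 : (n : ℝ) < 1 := by linarith [hy.1, hy.2, hy'.1, hy'.2]
    have a2 : (-1 : ℝ) < n := by linarith [hy.1, hy.2, hy'.1, hy'.2]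
    have a3 : n < 1 := by exact_mod_cast a1
    have a4 : -1 < n := by exact_mod_cast a2
    omega
  rw [hm] at h1
  rw [hn] at h2
  have e1 : x = x' := by
    have : ((0 : ℤ) : ℝ) = 0 := by norm_num
    linarith
  have e2 : y = y' := by
    have : ((0 : ℤ) : ℝ) = 0 := by norm_num
    linarith
  rw [e1, e2]

/-! ### The slope -/

lemma Fib.xx_analyticAt (L : PeriodPair) {z : ℂ} (hz : z ∉ L.lattice) : AnalyticAt ℂ (xx L) z := by
  have h := L.analyticOnNhd_weierstrassP z hz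
  unfold xx
  exact (h.sub analyticAt_const).div_const

lemma Fib.hasDerivAt_xx (L : PeriodPair) {z : ℂ} (hz : z ∉ L.lattice) :
    HasDerivAt (xx L) (℘'[L] z / del L) z := by
  have h : HasDerivAt ℘[L] (℘'[L] z) z := by
    rw [← L.deriv_weierstrassP]
    exact (L.analyticOnNhd_weierstrassP z hz).differentiableAt.hasDerivAt
  unfold xx
  exact (h.sub_const _).div_const _

lemma Fib.eventually_notMem (L : PeriodPair) {z : ℂ} (hz : z ∉ L.lattice) :
    ∀ᶠ y in 𝓝 z, y ∉ L.lattice :=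
  L.isClosed_lattice.isOpen_compl.mem_nhds hz

lemma Fib.slope_eq (L L₂ : PeriodPair) {z w : ℂ} (hz : z ∉ L.lattice) (hw : w ∉ L₂.lattice)
    (hzw : xx L z = xx L₂ w) (hP : ℘'[L₂] w ≠ 0) :
    slope (ZZ L L₂) (z, w) = del L₂ / del L * ℘'[L] z / ℘'[L₂] w := by
  have hd := del_ne L
  have hd2 := del_ne L₂
  have hex : ∃ g : ℂ → ℂ, AnalyticAt ℂ g (z, w).1 ∧ g (z, w).1 = (z, w).2 ∧
      ∀ᶠ y in 𝓝 (z, w).1, (y, g y) ∈ ZZ L L₂ := by
    have hU : AnalyticAt ℂ (fun y => xx L₂ y - xx L z) w :=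
      (Fib.xx_analyticAt L₂ hw).sub analyticAt_const
    have hdU : deriv (fun y => xx L₂ y - xx L z) w = ℘'[L₂] w / del L₂ :=
      ((Fib.hasDerivAt_xx L₂ hw).sub_const _).deriv
    obtain ⟨V, hV⟩ := exists_LC hU (by rw [hzw, sub_self]) (by
      rw [hdU]; exact div_ne_zero hP hd2)
    have hs : Tendsto (fun y => xx L y - xx L z) (𝓝 z) (𝓝 0) := by
      have := (Fib.xx_analyticAt L hz).continuousAt.tendsto.sub_const (xx L z)
      rwa [sub_self] at this
    refine ⟨fun y => V (xx L y - xx L z), ?_, ?_, ?_⟩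
    · have h1 : AnalyticAt ℂ (fun y => xx L y - xx L z) z :=
        (Fib.xx_analyticAt L hz).sub analyticAt_const
      exact hV.anV.comp_of_eq h1 (sub_self _)
    · simp only [sub_self]
      exact hV.V0
    · have hc : Tendsto (fun y => V (xx L y - xx L z)) (𝓝 z) (𝓝 w) := by
        have := hV.anV.continuousAt.tendsto
        rw [hV.V0] at this
        exact this.comp hs
      filter_upwards [Fib.eventually_notMem L hz, hs.eventually hV.UV,
        hc.eventually (Fib.eventually_notMem L₂ hw)] with y h1 h2 h3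
      right
      refine ⟨h1, h3, ?_⟩
      simp only at h2 ⊢
      linear_combination -h2
  unfold slope
  rw [dif_pos hex]
  obtain ⟨g1, g2, g3⟩ := hex.choose_spec
  set g := hex.choose with hg
  simp only at g1 g2 g3 ⊢
  have hgd : HasDerivAt g (deriv g z) z := g1.differentiableAt.hasDerivAt
  have k1 : HasDerivAt (fun y => xx L₂ (g y)) (℘'[L₂] w / del L₂ * deriv g z) z := by
    have := Fib.hasDerivAt_xx L₂ hw
    rw [← g2] at this
    have h := this.comp z hgd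
    rw [g2] at h
    exact h
  have k2 : HasDerivAt (xx L) (℘'[L₂] w / del L₂ * deriv g z) z := by
    refine k1.congr_of_eventuallyEq ?_
    filter_upwards [Fib.eventually_notMem L hz, g3] with y h1 h2
    rcases h2 with h2 | h2
    · exact absurd h2.1 h1
    · exact h2.2.2
  have k3 := k2.unique (Fib.hasDerivAt_xx L hz)
  field_simp at k3 ⊢
  linear_combination k3

/-! ### The two points of the fibre -/

/-- the integrand of `reg12` at one point of the fibre -/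
lemma Fib.term_eq {L L₂ : PeriodPair} {κ : ℂ} (hκ : κ ^ 2 = (del L / del L₂) ^ 3) {z w : ℂ}
    (hz : z ∉ L.lattice) (hw : w ∉ L₂.lattice) (hzw : xx L z = xx L₂ w) (h0 : xx L z ≠ 0)
    (h1 : xx L z ≠ 1) (hl : xx L z ≠ lam L) (hl2 : xx L z ≠ lam L₂) :
    (Real.log ‖ff κ L L₂ (z, w)‖ : ℂ) * conj (slope (ZZ L L₂) (z, w)) =
      -conj (del L₂ / del L * κ) * gq (qq L (lam L₂) z) := by
  have hd := del_ne L
  have hd2 := del_ne L₂
  have e1 := dP_sq_xx L hz
  have e2 := dP_sq_xx L₂ hw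
  rw [← hzw] at e2
  have hP : ℘'[L] z ≠ 0 := by
    intro h
    rw [h] at e1
    have : 4 * del L ^ 3 * (xx L z * (xx L z - 1) * (xx L z - lam L)) ≠ 0 :=
      mul_ne_zero (mul_ne_zero (by norm_num) (pow_ne_zero 3 hd))
        (mul_ne_zero (mul_ne_zero h0 (sub_ne_zero.mpr h1)) (sub_ne_zero.mpr hl))
    apply this
    rw [← e1]
    norm_num
  have hP2 : ℘'[L₂] w ≠ 0 := by
    intro h
    rw [h] at e2
    have : 4 * del L₂ ^ 3 * (xx L z * (xx L z - 1) * (xx L z - lam L₂)) ≠ 0 :=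
      mul_ne_zero (mul_ne_zero (by norm_num) (pow_ne_zero 3 hd2))
        (mul_ne_zero (mul_ne_zero h0 (sub_ne_zero.mpr h1)) (sub_ne_zero.mpr hl2))
    apply this
    rw [← e2]
    norm_num
  have hκ0 : κ ≠ 0 := by
    intro h
    rw [h] at hκ
    have : (del L / del L₂) ^ 3 ≠ 0 := pow_ne_zero 3 (div_ne_zero hd hd2)
    apply this
    rw [← hκ]
    norm_num
  obtain ⟨t, ht⟩ : ∃ t, t = κ * ℘'[L₂] w / ℘'[L] z := ⟨_, rfl⟩
  have ht0 : t ≠ 0 := by
    rw [ht]
    exact div_ne_zero (mul_ne_zero hκ0 hP2) hP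
  have hts : t ^ 2 = qq L (lam L₂) z := by
    rw [ht, div_pow, mul_pow, e1, e2, hκ]
    unfold qq
    have a1 := sub_ne_zero.mpr h1
    have a2 := sub_ne_zero.mpr hl
    field_simp
  have hff : ff κ L L₂ (z, w) = (t - 1) / (t + 1) := by
    unfold ff
    simp only
    have b1 : κ * ℘'[L₂] w - ℘'[L] z = ℘'[L] z * (t - 1) := by
      rw [ht]; field_simp
    have b2 : κ * ℘'[L₂] w + ℘'[L] z = ℘'[L] z * (t + 1) := by
      rw [ht]; field_simp
    rw [b1, b2, mul_div_mul_left _ _ hP]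
  have hsl : slope (ZZ L L₂) (z, w) = del L₂ / del L * κ / t := by
    rw [Fib.slope_eq L L₂ hz hw hzw hP2, ht]
    field_simp
  rw [hff, hsl, gq_of_sq hts, map_div₀]
  unfold GG
  have hlog : Real.log ‖(t - 1) / (t + 1)‖ = -Real.log (‖t + 1‖ / ‖t - 1‖) := by
    rw [← Real.log_inv, inv_div, norm_div]
  rw [hlog]
  push_cast
  ring

lemma Fib.fibre_sum {L L₂ : PeriodPair} {κ : ℂ} (hκ : κ ^ 2 = (del L / del L₂) ^ 3) {z : ℂ}
    (hz : z ∉ L.lattice) (h0 : xx L z ≠ 0)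
    (h1 : xx L z ≠ 1) (hl : xx L z ≠ lam L) (hl2 : xx L z ≠ lam L₂) :
    ∑ᶠ w ∈ {w | w ∈ par L₂ ∧ (z, w) ∈ ZZ L L₂},
      (Real.log ‖ff κ L L₂ (z, w)‖ : ℂ) * conj (slope (ZZ L L₂) (z, w)) =
      -2 * conj (del L₂ / del L * κ) * gq (qq L (lam L₂) z) := by
  have hd2 := del_ne L₂
  obtain ⟨w₀, hw₀, hPw⟩ := P_surj L₂ (e1 L₂ + del L₂ * xx L z)
  have hzw : xx L z = xx L₂ w₀ := by
    unfold xx at hPw ⊢
    rw [hPw]
    field_simp
    ring
  have e2 := dP_sq_xx L₂ hw₀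
  rw [← hzw] at e2
  have hP2 : ℘'[L₂] w₀ ≠ 0 := by
    intro h
    rw [h] at e2
    have : 4 * del L₂ ^ 3 * (xx L z * (xx L z - 1) * (xx L z - lam L₂)) ≠ 0 :=
      mul_ne_zero (mul_ne_zero (by norm_num) (pow_ne_zero 3 hd2))
        (mul_ne_zero (mul_ne_zero h0 (sub_ne_zero.mpr h1)) (sub_ne_zero.mpr hl2))
    apply this
    rw [← e2]
    norm_num
  have h2w : 2 * w₀ ∉ L₂.lattice := fun h => hP2 ((dP_eq_zero_iff L₂ hw₀).mpr h)
  obtain ⟨v, hv, hvl⟩ := Fib.exists_rep L₂ w₀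
  obtain ⟨v', hv', hvl'⟩ := Fib.exists_rep L₂ (-w₀)
  have hvn : v ∉ L₂.lattice := by
    intro h
    apply hw₀
    have := L₂.lattice.add_mem hvl h
    simpa using this
  have hvn' : v' ∉ L₂.lattice := by
    intro h
    apply hw₀
    have := L₂.lattice.neg_mem (L₂.lattice.add_mem hvl' h)
    simpa using this
  have hset : {w | w ∈ par L₂ ∧ (z, w) ∈ ZZ L L₂} = {v, v'} := by
    ext w
    simp only [mem_ofPred_eq, mem_insert_iff, mem_singleton_iff]
    constructor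
    · rintro ⟨hw, hZ⟩
      rcases hZ with hZ | ⟨-, hwn, hx⟩
      · exact absurd hZ.1 hz
      · simp only at hwn hx
        have hPP : ℘[L₂] w = ℘[L₂] w₀ := by
          rw [hzw] at hx
          unfold xx at hx
          field_simp at hx
          linear_combination -hx
        rcases (P_eq_iff L₂ hwn hw₀).mp hPP with h | h
        · left
          apply Fib.rep_unique L₂ hw hv
          have := L₂.lattice.add_mem h hvl
          simpa using this
        · right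
          apply Fib.rep_unique L₂ hw hv'
          have := L₂.lattice.add_mem h hvl'
          have e : w + w₀ + (-w₀ - v') = w - v' := by ring
          rwa [e] at this
    · rintro (rfl | rfl)
      · refine ⟨hv, Or.inr ⟨hz, hvn, ?_⟩⟩
        simp only
        rw [hzw]
        unfold xx
        rw [(P_eq_iff L₂ hw₀ hvn).mpr (Or.inl hvl)]
      · refine ⟨hv', Or.inr ⟨hz, hvn', ?_⟩⟩
        simp only
        rw [hzw]
        unfold xx
        rw [(P_eq_iff L₂ hw₀ hvn').mpr (Or.inr ?_)]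
        have := L₂.lattice.neg_mem hvl'
        have e : -(-w₀ - w) = w₀ + w := by ring
        rwa [e] at this
  have hne : v ≠ v' := by
    rintro rfl
    apply h2w
    have := L₂.lattice.sub_mem hvl hvl'
    have e : w₀ - v - (-w₀ - v) = 2 * w₀ := by ring
    rwa [e] at this
  have hxv : xx L z = xx L₂ v := by
    rw [hzw]
    unfold xx
    rw [(P_eq_iff L₂ hw₀ hvn).mpr (Or.inl hvl)]
  have hxv' : xx L z = xx L₂ v' := by
    rw [hzw]
    unfold xx
    rw [(P_eq_iff L₂ hw₀ hvn').mpr (Or.inr ?_)]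
    have := L₂.lattice.neg_mem hvl'
    have e : -(-w₀ - v') = w₀ + v' := by ring
    rwa [e] at this
  rw [hset, finsum_mem_pair hne, Fib.term_eq hκ hz hvn hxv h0 h1 hl hl2,
    Fib.term_eq hκ hz hvn' hxv' h0 h1 hl hl2]
  ring

theorem reg12_main {L₁ L₂ L : PeriodPair} (hL : L₁.lattice ≤ L.lattice) {κ : ℂ}
    (hκ : κ ^ 2 = (del L / del L₂) ^ 3) (hne : lam L ≠ lam L₂) :
    (mainT κ L L₂).reg12 L₁ L₂ =
      -2 * conj (del L₂ / del L * κ) * intE L₁ (fun z => gq (qq L (lam L₂) z)) := by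
  have hd := del_ne L
  -- the countable set to be avoided
  have hcount : ∀ c : ℂ, {z | xx L z = c}.Countable := by
    intro c
    refine (countable_fiber L (e1 L + del L * c)).mono ?_
    intro z hz
    simp only [mem_ofPred_eq] at hz ⊢
    rw [← hz]
    unfold xx
    field_simp
    ring
  have hae : ∀ᵐ p : ℝ × ℝ, (p.1 * L₁.ω₁ + p.2 * L₁.ω₂ : ℂ) ∉
      ((L.lattice : Set ℂ) ∪ {z | xx L z = 0} ∪ {z | xx L z = 1} ∪ {z | xx L z = lam L} ∪
        {z | xx L z = lam L₂}) :=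
    ae_not_mem L₁ (((((countable_lattice L).union (hcount 0)).union (hcount 1)).union
      (hcount _)).union (hcount _))
  have key : ∫ p in Icc (0 : ℝ) 1 ×ˢ Icc (0 : ℝ) 1,
      ∑ᶠ w ∈ {w | w ∈ par L₂ ∧ ((p.1 * L₁.ω₁ + p.2 * L₁.ω₂ : ℂ), w) ∈ ZZ L L₂},
        (Real.log ‖ff κ L L₂ ((p.1 * L₁.ω₁ + p.2 * L₁.ω₂ : ℂ), w)‖ : ℂ) *
          conj (slope (ZZ L L₂) ((p.1 * L₁.ω₁ + p.2 * L₁.ω₂ : ℂ), w)) =
      ∫ p in Icc (0 : ℝ) 1 ×ˢ Icc (0 : ℝ) 1, -2 * conj (del L₂ / del L * κ) *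
        gq (qq L (lam L₂) (p.1 * L₁.ω₁ + p.2 * L₁.ω₂)) := by
    apply integral_congr_ae
    filter_upwards [ae_restrict_of_ae hae] with p hp
    simp only [mem_union, mem_ofPred_eq, SetLike.mem_coe, not_or] at hp
    obtain ⟨⟨⟨⟨p1, p2⟩, p3⟩, p4⟩, p5⟩ := hp
    exact Fib.fibre_sum hκ p1 p2 p3 p4 p5
  unfold Term.reg12 intE
  simp only [mainT]
  rw [key, integral_const_mul]
  rw [real_smul, real_smul]
  ring

end Pool.Agent.Helper24.K1
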