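import Pool.Agent.Helper24.K1.Ell

/-! Change of basis: a period pair with a Legendre parameter different from a given number. -/

noncomputable section

namespace Pool.Agent.Helper24.K1

open Complex MeasureTheory Set Filter Topology
open scoped ComplexConjugate PeriodPair

theorem P_congr {L L' : PeriodPair} (h : L.lattice = L'.lattice) (z : ℂ) : ℘[L] z = ℘[L'] z := by
  unfold PeriodPair.weierstrassP
  exact (Equiv.subtypeEquivRight (p := fun x => x ∈ L.lattice) (q := fun x => x ∈ L'.lattice)
    (fun x => by rw [h])).tsum_eq (fun l : L'.lattice => (1 / (z - (l : ℂ)) ^ 2 - 1 / (l : ℂ) ^ 2))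

def swapP (L : PeriodPair) : PeriodPair where
  ω₁ := L.ω₂
  ω₂ := L.ω₁
  indep := by
    have h := L.indep
    rw [LinearIndependent.pair_iff] at h ⊢
    intro s t hst
    obtain ⟨h1, h2⟩ := h t s (by rw [← hst]; ring)
    exact ⟨h2, h1⟩

def shearP (L : PeriodPair) : PeriodPair where
  ω₁ := L.ω₁
  ω₂ := L.ω₁ + L.ω₂
  indep := by
    have h := L.indep
    rw [LinearIndependent.pair_iff] at h ⊢
    intro s t hst
    obtain ⟨h1, h2⟩ := h (s + t) t (by rw [← hst]; simp only [Complex.real_smul]; push_cast; ring)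
    subst h2
    exact ⟨by simpa using h1, rfl⟩

theorem swapP_lattice (L : PeriodPair) : (swapP L).lattice = L.lattice := by
  ext z
  rw [PeriodPair.mem_lattice, PeriodPair.mem_lattice]
  constructor
  · rintro ⟨m, n, h⟩; exact ⟨n, m, by rw [← h]; simp only [swapP]; ring⟩
  · rintro ⟨m, n, h⟩; exact ⟨n, m, by rw [← h]; simp only [swapP]; ring⟩

theorem shearP_lattice (L : PeriodPair) : (shearP L).lattice = L.lattice := by
  ext z
  rw [PeriodPair.mem_lattice, PeriodPair.mem_lattice]
  constructor
  · rintro ⟨m, n, h⟩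
    exact ⟨m + n, n, by rw [← h]; simp only [shearP]; push_cast; ring⟩
  · rintro ⟨m, n, h⟩
    exact ⟨m - n, n, by rw [← h]; simp only [shearP]; push_cast; ring⟩

theorem lam_swapP (L : PeriodPair) : lam (swapP L) = 1 - lam L := by
  have h1 : e1 (swapP L) = e2 L := P_congr (swapP_lattice L) _
  have h2 : e2 (swapP L) = e1 L := P_congr (swapP_lattice L) _
  have h3 : e3 (swapP L) = e3 L := by
    unfold e3
    rw [P_congr (swapP_lattice L)]
    congr 1
    simp only [swapP]; ring
  have hd := del_ne L
  have hd' : del (swapP L) = -del L := by unfold del; rw [h1, h2]; ring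
  unfold lam
  rw [hd', h1, h3]
  have : del L = e2 L - e1 L := rfl
  field_simp
  rw [this]; ring

theorem lam_shearP (L : PeriodPair) : lam (shearP L) = (lam L)⁻¹ := by
  have h1 : e1 (shearP L) = e1 L := P_congr (shearP_lattice L) _
  have h2 : e2 (shearP L) = e3 L := P_congr (shearP_lattice L) _
  have h3 : e3 (shearP L) = e2 L := by
    unfold e3 e2
    rw [P_congr (shearP_lattice L)]
    have : ((shearP L).ω₁ + (shearP L).ω₂) / 2 = L.ω₂ / 2 + L.ω₁ := by
      simp only [shearP]; ring
    rw [this]
    exact L.weierstrassP_add_coe _ ⟨L.ω₁, L.ω₁_mem_lattice⟩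
  unfold lam del
  rw [h1, h2, h3, inv_div]

theorem exists_lam_ne (L : PeriodPair) (b : ℂ) : ∃ L' : PeriodPair, lam L' ≠ b := by
  by_cases h : lam L = b
  · by_cases h2 : 1 - lam L = lam L
    · refine ⟨shearP L, ?_⟩
      rw [lam_shearP, ← h]
      have : lam L = 1 / 2 := by linear_combination (-1 / 2) * h2
      rw [this]; norm_num
    · exact ⟨swapP L, by rw [lam_swapP, ← h]; exact h2⟩
  · exact ⟨L, h⟩

end Pool.Agent.Helper24.K1
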