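import Pool.Agent.Helper24.K1.ConP
import Pool.Agent.Helper24.K1.Ell

/-! Continuity of the half period values. -/

noncomputable section

namespace Pool.Agent.Helper24.K1

open Complex MeasureTheory Set Filter Topology
open scoped ComplexConjugate PeriodPair

theorem half_ne_int (m : ℤ) : ((1 : ℝ) / 2) ≠ m := by
  intro h
  have h2 : (1 : ℝ) = ((2 * m : ℤ) : ℝ) := by push_cast; linarith
  have h3 : (1 : ℤ) = 2 * m := by exact_mod_cast h2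
  omega

variable {Ln : ℕ → PeriodPair} {L : PeriodPair}

theorem e1_tendsto (h₁ : Tendsto (fun n => (Ln n).ω₁) atTop (𝓝 L.ω₁))
    (h₂ : Tendsto (fun n => (Ln n).ω₂) atTop (𝓝 L.ω₂)) :
    Tendsto (fun n => e1 (Ln n)) atTop (𝓝 (e1 L)) := by
  have h := P_tendsto h₁ h₂ (x := 1 / 2) (y := 0) (by
    rintro ⟨⟨m, hm⟩, -⟩; exact half_ne_int m hm)
  have e : ∀ M : PeriodPair, (((1 / 2 : ℝ) : ℂ) * M.ω₁ + ((0 : ℝ) : ℂ) * M.ω₂) = M.ω₁ / 2 := by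
    intro M; push_cast; ring
  simp only [e] at h
  exact h

theorem e2_tendsto (h₁ : Tendsto (fun n => (Ln n).ω₁) atTop (𝓝 L.ω₁))
    (h₂ : Tendsto (fun n => (Ln n).ω₂) atTop (𝓝 L.ω₂)) :
    Tendsto (fun n => e2 (Ln n)) atTop (𝓝 (e2 L)) := by
  have h := P_tendsto h₁ h₂ (x := 0) (y := 1 / 2) (by
    rintro ⟨-, ⟨m, hm⟩⟩; exact half_ne_int m hm)
  have e : ∀ M : PeriodPair, (((0 : ℝ) : ℂ) * M.ω₁ + ((1 / 2 : ℝ) : ℂ) * M.ω₂) = M.ω₂ / 2 := by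
    intro M; push_cast; ring
  simp only [e] at h
  exact h

theorem e3_tendsto (h₁ : Tendsto (fun n => (Ln n).ω₁) atTop (𝓝 L.ω₁))
    (h₂ : Tendsto (fun n => (Ln n).ω₂) atTop (𝓝 L.ω₂)) :
    Tendsto (fun n => e3 (Ln n)) atTop (𝓝 (e3 L)) := by
  have h := P_tendsto h₁ h₂ (x := 1 / 2) (y := 1 / 2) (by
    rintro ⟨-, ⟨m, hm⟩⟩; exact half_ne_int m hm)
  have e : ∀ M : PeriodPair, (((1 / 2 : ℝ) : ℂ) * M.ω₁ + ((1 / 2 : ℝ) : ℂ) * M.ω₂)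
      = (M.ω₁ + M.ω₂) / 2 := by
    intro M; push_cast; ring
  simp only [e] at h
  exact h

theorem del_tendsto (h₁ : Tendsto (fun n => (Ln n).ω₁) atTop (𝓝 L.ω₁))
    (h₂ : Tendsto (fun n => (Ln n).ω₂) atTop (𝓝 L.ω₂)) :
    Tendsto (fun n => del (Ln n)) atTop (𝓝 (del L)) :=
  (e2_tendsto h₁ h₂).sub (e1_tendsto h₁ h₂)

theorem lam_tendsto (h₁ : Tendsto (fun n => (Ln n).ω₁) atTop (𝓝 L.ω₁))
    (h₂ : Tendsto (fun n => (Ln n).ω₂) atTop (𝓝 L.ω₂)) :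
    Tendsto (fun n => lam (Ln n)) atTop (𝓝 (lam L)) :=
  ((e3_tendsto h₁ h₂).sub (e1_tendsto h₁ h₂)).div (del_tendsto h₁ h₂) (del_ne L)

end Pool.Agent.Helper24.K1
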