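import Pool.Agent.Helper24.K1.Sca

/-! Rational approximation of `c L` by superlattices of `L₁`. -/

noncomputable section

namespace Pool.Agent.Helper24.K1

open Complex MeasureTheory Set Filter Topology
open scoped ComplexConjugate PeriodPair

/-- real coordinates with respect to a period pair -/
theorem exists_coord (L : PeriodPair) (z : ℂ) : ∃ a b : ℝ, z = a * L.ω₁ + b * L.ω₂ := by
  refine ⟨L.basis.repr z 0, L.basis.repr z 1, ?_⟩
  have h := L.basis.sum_repr z
  rw [Fin.sum_univ_two] at h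
  simp only [PeriodPair.basis_zero, PeriodPair.basis_one, Complex.real_smul] at h
  exact h.symm

theorem indep_of_det (L : PeriodPair) {a b c d : ℝ} (h : a * d - b * c ≠ 0) :
    LinearIndependent ℝ ![(a * L.ω₁ + b * L.ω₂ : ℂ), (c * L.ω₁ + d * L.ω₂ : ℂ)] := by
  rw [LinearIndependent.pair_iff]
  intro s t hst
  have hi := L.indep
  rw [LinearIndependent.pair_iff] at hi
  obtain ⟨h1, h2⟩ := hi (s * a + t * c) (s * b + t * d) (by
    rw [← hst]
    simp only [Complex.real_smul]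
    push_cast
    ring)
  constructor
  · have : s * (a * d - b * c) = 0 := by linear_combination d * h1 - c * h2
    exact (mul_eq_zero.mp this).resolve_right h
  · have : t * (a * d - b * c) = 0 := by linear_combination a * h2 - b * h1
    exact (mul_eq_zero.mp this).resolve_right h

theorem det_ne_of_indep (L : PeriodPair) {a b c d : ℝ}
    (h : LinearIndependent ℝ ![(a * L.ω₁ + b * L.ω₂ : ℂ), (c * L.ω₁ + d * L.ω₂ : ℂ)]) :
    a * d - b * c ≠ 0 := by
  intro h0
  rw [LinearIndependent.pair_iff] at h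
  obtain ⟨h1, h2⟩ := h d (-b) (by
    simp only [Complex.real_smul]
    push_cast
    have e : ((a * d - b * c : ℝ) : ℂ) = 0 := by rw [h0]; norm_num
    push_cast at e
    linear_combination e * L.ω₁)
  obtain ⟨h3, h4⟩ := h (-c) a (by
    simp only [Complex.real_smul]
    push_cast
    have e : ((a * d - b * c : ℝ) : ℂ) = 0 := by rw [h0]; norm_num
    push_cast at e
    linear_combination e * L.ω₂)
  have hb : b = 0 := by linarith
  have hc : c = 0 := by linarith
  subst h1 h4 hb hc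
  have := (h 1 0 (by simp)).1
  norm_num at this

theorem tendsto_floor_div (a : ℝ) :
    Tendsto (fun n : ℕ => ((⌊(n : ℝ) * a⌋ : ℤ) : ℝ) / n) atTop (𝓝 a) := by
  have h : Tendsto (fun n : ℕ => ((⌊(n : ℝ) * a⌋ : ℤ) : ℝ) / n - a) atTop (𝓝 0) := by
    refine squeeze_zero_norm' (a := fun n : ℕ => 1 / (n : ℝ)) ?_ tendsto_one_div_atTop_nhds_zero_nat
    filter_upwards [eventually_gt_atTop 0] with n hn
    have hn' : (0 : ℝ) < n := by exact_mod_cast hn
    have e : ((⌊(n : ℝ) * a⌋ : ℤ) : ℝ) / n - a = -(Int.fract ((n : ℝ) * a)) / n := by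
      rw [← Int.self_sub_floor]
      field_simp
      ring
    rw [e, norm_div, norm_neg, Real.norm_eq_abs, Real.norm_eq_abs, abs_of_pos hn',
      abs_of_nonneg (Int.fract_nonneg _)]
    exact div_le_div_of_nonneg_right (Int.fract_lt_one _).le hn'.le
  have h2 := h.add_const a
  simpa using h2

theorem exists_seq (L₁ L : PeriodPair) {c : ℂ} (hc : c ≠ 0) :
    ∃ (Mn : ℕ → PeriodPair) (s : ℕ → ℝ),
      Tendsto (fun n => (Mn n).ω₁) atTop (𝓝 L.ω₁) ∧ Tendsto (fun n => (Mn n).ω₂) atTop (𝓝 L.ω₂) ∧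
      ∀ᶠ n in atTop, ∃ h : (s n : ℂ) * c ≠ 0, L₁.lattice ≤ (scale (Mn n) (s n * c) h).lattice := by
  classical
  obtain ⟨a, b, h1⟩ := exists_coord L₁ (c * L.ω₁)
  obtain ⟨a', b', h2⟩ := exists_coord L₁ (c * L.ω₂)
  have hdet : a * b' - b * a' ≠ 0 := by
    apply det_ne_of_indep L₁
    rw [← h1, ← h2]
    exact (scale L c hc).indep
  -- integer approximations
  set p : ℕ → ℤ := fun n => ⌊(n : ℝ) * a⌋ with hp
  set q : ℕ → ℤ := fun n => ⌊(n : ℝ) * b⌋ with hq
  set r : ℕ → ℤ := fun n => ⌊(n : ℝ) * a'⌋ with hr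
  set u : ℕ → ℤ := fun n => ⌊(n : ℝ) * b'⌋ with hu
  have tp := tendsto_floor_div a
  have tq := tendsto_floor_div b
  have tr := tendsto_floor_div a'
  have tu := tendsto_floor_div b'
  have hD : ∀ᶠ n : ℕ in atTop, (p n : ℝ) / n * (u n / n) - (q n : ℝ) / n * (r n / n) ≠ 0 :=
    ((tp.mul tu).sub (tq.mul tr)).eventually (isOpen_ne.mem_nhds hdet)
  -- the period pairs
  have hgood : ∀ n : ℕ, (0 < n ∧ (p n : ℝ) / n * (u n / n) - (q n : ℝ) / n * (r n / n) ≠ 0) →
      ∃ M : PeriodPair, M.ω₁ = (((p n : ℝ) / n : ℝ) * L₁.ω₁ + ((q n : ℝ) / n : ℝ) * L₁.ω₂) / c ∧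
        M.ω₂ = (((r n : ℝ) / n : ℝ) * L₁.ω₁ + ((u n : ℝ) / n : ℝ) * L₁.ω₂) / c := by
    rintro n ⟨hn, hne⟩
    have hli := indep_of_det L₁ hne
    have hc' : c⁻¹ ≠ 0 := inv_ne_zero hc
    refine ⟨scale ⟨_, _, hli⟩ c⁻¹ hc', ?_, ?_⟩
    · exact (div_eq_inv_mul _ _).symm
    · exact (div_eq_inv_mul _ _).symm
  have : Nonempty PeriodPair := ⟨L⟩
  choose! M hM using hgood
  let Mn : ℕ → PeriodPair := fun n =>
    if (0 < n ∧ (p n : ℝ) / n * (u n / n) - (q n : ℝ) / n * (r n / n) ≠ 0) then M n else L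
  have hev : ∀ᶠ n : ℕ in atTop,
      (0 < n ∧ (p n : ℝ) / n * (u n / n) - (q n : ℝ) / n * (r n / n) ≠ 0) :=
    (eventually_gt_atTop 0).and hD
  refine ⟨Mn, fun n => (n : ℝ) / ((p n * u n - q n * r n : ℤ) : ℝ), ?_, ?_, ?_⟩
  · have ht : Tendsto (fun n : ℕ =>
        (((p n : ℝ) / n : ℝ) * L₁.ω₁ + ((q n : ℝ) / n : ℝ) * L₁.ω₂ : ℂ) / c) atTop
        (𝓝 L.ω₁) := by
      have e : L.ω₁ = ((a : ℂ) * L₁.ω₁ + b * L₁.ω₂) / c := by
        rw [← h1]; field_simp
      rw [e]
      refine Tendsto.div_const (Tendsto.add (Tendsto.mul_const _ ?_) (Tendsto.mul_const _ ?_)) _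
      · exact (continuous_ofReal.tendsto _).comp tp
      · exact (continuous_ofReal.tendsto _).comp tq
    refine ht.congr' ?_
    filter_upwards [hev] with n hn
    simp only [Mn, if_pos hn]
    exact (hM n hn).1.symm
  · have ht : Tendsto (fun n : ℕ =>
        (((r n : ℝ) / n : ℝ) * L₁.ω₁ + ((u n : ℝ) / n : ℝ) * L₁.ω₂ : ℂ) / c) atTop
        (𝓝 L.ω₂) := by
      have e : L.ω₂ = ((a' : ℂ) * L₁.ω₁ + b' * L₁.ω₂) / c := by
        rw [← h2]; field_simp
      rw [e]
      refine Tendsto.div_const (Tendsto.add (Tendsto.mul_const _ ?_) (Tendsto.mul_const _ ?_)) _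
      · exact (continuous_ofReal.tendsto _).comp tr
      · exact (continuous_ofReal.tendsto _).comp tu
    refine ht.congr' ?_
    filter_upwards [hev] with n hn
    simp only [Mn, if_pos hn]
    exact (hM n hn).2.symm
  · filter_upwards [hev] with n hn
    have hn0 : (n : ℝ) ≠ 0 := by
      have := hn.1
      positivity
    have hDn : ((p n * u n - q n * r n : ℤ) : ℝ) ≠ 0 := by
      intro h0
      apply hn.2
      push_cast at h0
      field_simp
      linarith
    have hsn : (((n : ℝ) / ((p n * u n - q n * r n : ℤ) : ℝ) : ℝ) : ℂ) * c ≠ 0 := by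
      refine mul_ne_zero ?_ hc
      exact_mod_cast div_ne_zero hn0 hDn
    refine ⟨hsn, ?_⟩
    have hn0' : (n : ℂ) ≠ 0 := by exact_mod_cast hn0
    have hDn' : ((p n * u n - q n * r n : ℤ) : ℂ) ≠ 0 := by exact_mod_cast hDn
    have w1 : (scale (Mn n) (((n : ℝ) / ((p n * u n - q n * r n : ℤ) : ℝ) : ℝ) * c) hsn).ω₁
        = (p n * L₁.ω₁ + q n * L₁.ω₂) / ((p n * u n - q n * r n : ℤ) : ℂ) := by
      simp only [scale, Mn, if_pos hn]
      rw [(hM n hn).1]
      push_cast at hDn' ⊢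
      field_simp
    have w2 : (scale (Mn n) (((n : ℝ) / ((p n * u n - q n * r n : ℤ) : ℝ) : ℝ) * c) hsn).ω₂
        = (r n * L₁.ω₁ + u n * L₁.ω₂) / ((p n * u n - q n * r n : ℤ) : ℂ) := by
      simp only [scale, Mn, if_pos hn]
      rw [(hM n hn).2]
      push_cast at hDn' ⊢
      field_simp
    unfold PeriodPair.lattice at *
    rw [Submodule.span_le]
    rintro z hz
    have key : ∀ z, z ∈ (scale (Mn n) (((n : ℝ) / ((p n * u n - q n * r n : ℤ) : ℝ) : ℝ) * c) hsn).lattice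
        ↔ ∃ m k : ℤ, m * ((p n * L₁.ω₁ + q n * L₁.ω₂) / ((p n * u n - q n * r n : ℤ) : ℂ)) +
          k * ((r n * L₁.ω₁ + u n * L₁.ω₂) / ((p n * u n - q n * r n : ℤ) : ℂ)) = z := by
      intro z
      rw [PeriodPair.mem_lattice, w1, w2]
    have hz' : z = L₁.ω₁ ∨ z = L₁.ω₂ := by simpa using hz
    show z ∈ (scale (Mn n) (((n : ℝ) / ((p n * u n - q n * r n : ℤ) : ℝ) : ℝ) * c) hsn).lattice
    rw [key]
    rcases hz' with rfl | rfl
    · refine ⟨u n, -q n, ?_⟩
      rw [mul_div_assoc', mul_div_assoc', ← add_div, div_eq_iff hDn']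
      push_cast
      ring
    · refine ⟨-r n, p n, ?_⟩
      rw [mul_div_assoc', mul_div_assoc', ← add_div, div_eq_iff hDn']
      push_cast
      ring

end Pool.Agent.Helper24.K1
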