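import Pool.Agent.Helper24.K1.Avg
import Pool.Agent.Helper24.K1.Cyc
import Pool.Agent.Helper24.K1.Dec
import Pool.Agent.Helper24.K1.Fib
import Pool.Agent.Helper24.K1.Lam
import Pool.Agent.Helper24.K1.Lim
import Pool.Agent.Helper24.K1.Seq
import Pool.Agent.Helper24.K1.Tor

/-! # Final assembly -/

noncomputable section

namespace Pool.Agent.Helper24.K1

open Complex MeasureTheory Set Filter Topology
open scoped ComplexConjugate PeriodPair

/-! ### algebra of chains -/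

theorem HasBdry.append {ξ η : Chain} {p : ℂ × ℂ} {a b : ℤ} (h1 : HasBdry ξ p a)
    (h2 : HasBdry η p b) : HasBdry (ξ ++ η) p (a + b) := by
  induction h1 with
  | nil p => simpa using h2
  | cons hd _ ih =>
    rw [List.cons_append, add_assoc]
    exact HasBdry.cons hd (ih h2)

/-- multiply a chain by an integer -/
def smulChain (k : ℤ) (ξ : Chain) : Chain := ξ.map fun T => ⟨k * T.n, T.Z, T.f⟩

theorem HasBdry.smulChain {ξ : Chain} {p : ℂ × ℂ} {a : ℤ} (h : HasBdry ξ p a) (k : ℤ) :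
    HasBdry (smulChain k ξ) p (k * a) := by
  induction h with
  | nil p => simpa [K1.smulChain] using HasBdry.nil p
  | @cons T ξ p d b hd _ ih =>
    have : k * (T.n * d + b) = (k * T.n) * d + k * b := by ring
    rw [this]
    exact HasBdry.cons (T := ⟨k * T.n, T.Z, T.f⟩) hd ih

theorem IsK1.append {L₁ L₂ : PeriodPair} {ξ η : Chain} (h1 : IsK1 L₁ L₂ ξ) (h2 : IsK1 L₁ L₂ η) :
    IsK1 L₁ L₂ (ξ ++ η) where
  periodic T hT := by
    rcases List.mem_append.mp hT with h | h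
    · exact h1.periodic T h
    · exact h2.periodic T h
  bdry p := by simpa using (h1.bdry p).append (h2.bdry p)

theorem IsK1.smulChain {L₁ L₂ : PeriodPair} {ξ : Chain} (h1 : IsK1 L₁ L₂ ξ) (k : ℤ) :
    IsK1 L₁ L₂ (K1.smulChain k ξ) where
  periodic T hT := by
    simp only [K1.smulChain, List.mem_map] at hT
    obtain ⟨S, hS, rfl⟩ := hT
    exact h1.periodic S hS
  bdry p := by simpa using (h1.bdry p).smulChain k

theorem reg_append (L₁ L₂ : PeriodPair) (ξ η : Chain) :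
    Chain.reg L₁ L₂ (ξ ++ η) = ξ.reg L₁ L₂ + η.reg L₁ L₂ := by
  simp [Chain.reg]

theorem reg_smulChain (L₁ L₂ : PeriodPair) (k : ℤ) (ξ : Chain) :
    (smulChain k ξ).reg L₁ L₂ = (k : ℝ) • ξ.reg L₁ L₂ := by
  induction ξ with
  | nil => simp [smulChain, Chain.reg]
  | cons T ξ ih =>
    simp only [smulChain, Chain.reg, List.map_cons, List.sum_cons, List.map_map] at ih ⊢
    rw [ih, smul_add, smul_smul]
    congr 2
    push_cast
    rfl

theorem isK1_nil (L₁ L₂ : PeriodPair) : IsK1 L₁ L₂ [] := ⟨by simp, fun p => HasBdry.nil p⟩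

/-- the image of `K₁(X) ⊗ ℚ` under the real regulator -/
def image (L₁ L₂ : PeriodPair) : Submodule ℚ (ℝ × ℝ × ℂ) where
  carrier := {v | ∃ (ξ : Chain) (m : ℕ), IsK1 L₁ L₂ ξ ∧ 0 < m ∧ v = (m : ℝ)⁻¹ • ξ.reg L₁ L₂}
  zero_mem' := ⟨[], 1, isK1_nil L₁ L₂, one_pos, by simp [Chain.reg]⟩
  add_mem' := by
    rintro v v' ⟨ξ, m, hξ, hm, rfl⟩ ⟨ξ', m', hξ', hm', rfl⟩
    refine ⟨smulChain m' ξ ++ smulChain m ξ', m * m', (hξ.smulChain _).append (hξ'.smulChain _),
      Nat.mul_pos hm hm', ?_⟩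
    rw [reg_append, reg_smulChain, reg_smulChain, smul_add, smul_smul, smul_smul]
    have h1 : (m : ℝ) ≠ 0 := by positivity
    have h2 : (m' : ℝ) ≠ 0 := by positivity
    congr 2
    · push_cast; field_simp
    · push_cast; field_simp
  smul_mem' := by
    rintro q v ⟨ξ, m, hξ, hm, rfl⟩
    refine ⟨smulChain q.num ξ, q.den * m, hξ.smulChain _, Nat.mul_pos q.den_pos hm, ?_⟩
    rw [reg_smulChain, smul_smul, ← Rat.cast_smul_eq_qsmul ℝ q, smul_smul]
    congr 1
    have h1 : (m : ℝ) ≠ 0 := by positivity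
    have h2 : (q.den : ℝ) ≠ 0 := by exact_mod_cast q.den_ne_zero
    rw [Rat.cast_def]
    push_cast
    field_simp

section closure

variable {V : Type*} [NormedAddCommGroup V] [NormedSpace ℝ V] [Module ℚ V]
  [ContinuousConstSMul ℚ V] [IsScalarTower ℚ ℝ V]

/-- The closure of a rational subspace is a real subspace. -/
theorem real_smul_mem (W : Submodule ℚ V) (r : ℝ) {v : V} (hv : v ∈ W.topologicalClosure) :
    r • v ∈ W.topologicalClosure := by
  have hcl : IsClosed (W.topologicalClosure : Set V) := W.isClosed_topologicalClosure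
  have hpre : IsClosed ((fun r : ℝ => r • v) ⁻¹' (W.topologicalClosure : Set V)) :=
    hcl.preimage (by fun_prop)
  have hsub : Set.range ((↑) : ℚ → ℝ) ⊆ (fun r : ℝ => r • v) ⁻¹' (W.topologicalClosure : Set V) := by
    rintro _ ⟨q, rfl⟩
    simp only [mem_preimage, SetLike.mem_coe]
    rw [Rat.cast_smul_eq_qsmul]
    exact W.topologicalClosure.smul_mem q hv
  have := closure_minimal hsub hpre
  rw [Rat.isDenseEmbedding_coe_real.dense.closure_range] at this
  exact this (mem_univ r)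

end closure

/-! ### rotating the main element -/

theorem reg12_sq {L₁ L₂ L : PeriodPair} (hL : L₁.lattice ≤ L.lattice) {κ : ℂ}
    (hκ : κ ^ 2 = (del L / del L₂) ^ 3) (hne : lam L ≠ lam L₂) :
    ((mainT κ L L₂).reg12 L₁ L₂) ^ 2 =
      ((4 * |(conj L₁.ω₁ * L₁.ω₂).im| ^ 2 : ℝ) : ℂ) * (conj (del L / del L₂) *
        (AA L (lam L₂)) ^ 2) := by
  rw [reg12_main hL hκ hne]
  have h1 : intE L₁ (fun z => gq (qq L (lam L₂) z))
      = ((|(conj L₁.ω₁ * L₁.ω₂).im| : ℝ) : ℂ) * AA L (lam L₂) := by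
    have hav : avg L₁ (fun z => gq (qq L (lam L₂) z)) = AA L (lam L₂) := by
      apply avg_eq_avg hL
      · apply gq_measurable.comp
        unfold qq xx
        have := measurable_P L
        fun_prop
      · intro l hl z
        simp only [qq, xx]
        rw [show ℘[L] (z + l) = ℘[L] z from L.weierstrassP_add_coe z ⟨l, hl⟩]
    rw [← hav]
    simp only [intE, avg, Complex.real_smul]
  rw [h1]
  have h2 : (del L₂ / del L * κ) ^ 2 = del L / del L₂ := by
    rw [mul_pow, hκ]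
    have := del_ne L
    have := del_ne L₂
    field_simp
  have h3 : (conj (del L₂ / del L * κ)) ^ 2 = conj (del L / del L₂) := by
    rw [← map_pow, h2]
  generalize |(conj L₁.ω₁ * L₁.ω₂).im| = a at *
  calc (-2 * conj (del L₂ / del L * κ) * ((a : ℂ) * AA L (lam L₂))) ^ 2
      = 4 * (a : ℂ) ^ 2 * ((conj (del L₂ / del L * κ)) ^ 2 * (AA L (lam L₂)) ^ 2) := by ring
    _ = _ := by rw [h3]; push_cast; ring

theorem area_pos (L : PeriodPair) : 0 < |(conj L.ω₁ * L.ω₂).im| := by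
  rw [abs_pos]
  intro h
  have hind := L.indep
  rw [LinearIndependent.pair_iff] at hind
  have h1 : L.ω₁ ≠ 0 := by
    intro h0
    have := (hind 1 0 (by simp [h0])).1
    norm_num at this
  have h2 : (conj L.ω₁ * L.ω₂) = ((conj L.ω₁ * L.ω₂).re : ℂ) := by
    apply Complex.ext
    · simp
    · simp only [ofReal_im]; exact h
  have h3 : ((normSq L.ω₁ : ℝ) : ℂ) * L.ω₂ = ((conj L.ω₁ * L.ω₂).re : ℂ) * L.ω₁ := by
    rw [← h2, ← mul_conj]
    ring
  have := (hind (-(conj L.ω₁ * L.ω₂).re) (normSq L.ω₁) (by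
    rw [Complex.real_smul, Complex.real_smul, h3]
    push_cast
    ring)).2
  exact h1 (normSq_eq_zero.mp this)

theorem exists_rot (L₁ L₂ : PeriodPair) {v : ℂ} (hv : v ≠ 0) :
    ∃ (ξ : Chain), IsK1 L₁ L₂ ξ ∧ (v * (ξ.reg L₁ L₂).2.2).im ≠ 0 := by
  obtain ⟨L, hLb⟩ := exists_lam_ne L₂ (lam L₂)
  have hAne : AA L (lam L₂) ≠ 0 := by
    intro h0
    have := AA_re_pos hLb
    rw [h0] at this
    simp at this
  set Y : ℂ := conj (del L / del L₂) * (AA L (lam L₂)) ^ 2 with hY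
  have hYne : Y ≠ 0 := by
    rw [hY]
    refine mul_ne_zero ?_ (pow_ne_zero _ hAne)
    rw [map_ne_zero]
    exact div_ne_zero (del_ne L) (del_ne L₂)
  -- choose c of modulus one with v² c² Y < 0
  obtain ⟨c, hc0, hcn, hcY⟩ : ∃ c : ℂ, c ≠ 0 ∧ conj c * c = 1 ∧ (v ^ 2 * (c ^ 2 * Y)).re < 0 := by
    have hne : v ^ 2 * Y ≠ 0 := mul_ne_zero (pow_ne_zero _ hv) hYne
    obtain ⟨s, hs⟩ := IsAlgClosed.exists_pow_nat_eq (v ^ 2 * Y) (n := 2) (by norm_num)
    have hs0 : s ≠ 0 := by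
      rintro rfl
      apply hne
      rw [← hs]; norm_num
    have hn : (‖s‖ : ℂ) ≠ 0 := by
      exact_mod_cast norm_ne_zero_iff.mpr hs0
    have hcs : conj s * s = (‖s‖ : ℂ) ^ 2 := by
      rw [mul_comm, mul_conj, normSq_eq_norm_sq]; push_cast; ring
    refine ⟨I * (conj s / ‖s‖), ?_, ?_, ?_⟩
    · refine mul_ne_zero I_ne_zero (div_ne_zero ?_ hn)
      rwa [map_ne_zero]
    · simp only [map_mul, map_div₀, conj_I, conj_conj, conj_ofReal]
      field_simp
      rw [mul_comm] at hcs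
      linear_combination (-1) * (I ^ 2) * hcs + (-(‖s‖ : ℂ) ^ 2) * I_sq
    · have : v ^ 2 * ((I * (conj s / ‖s‖)) ^ 2 * Y) = ((-(‖s‖ ^ 2) : ℝ) : ℂ) := by
        have e1 : v ^ 2 * ((I * (conj s / ‖s‖)) ^ 2 * Y)
            = (v ^ 2 * Y) * (I ^ 2 * (conj s) ^ 2 / (‖s‖ : ℂ) ^ 2) := by ring
        rw [e1, ← hs, I_sq]
        have e2 : s ^ 2 * (-1 * (conj s) ^ 2 / (‖s‖ : ℂ) ^ 2)
            = -((conj s * s) ^ 2) / (‖s‖ : ℂ) ^ 2 := by ring
        rw [e2, hcs]
        push_cast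
        field_simp
      rw [this, ofReal_re]
      have : 0 < ‖s‖ := norm_pos_iff.mpr hs0
      nlinarith [sq_nonneg ‖s‖, pow_pos this 2]
  obtain ⟨Mn, s, h1, h2, h3⟩ := exists_seq L₁ L hc0
  -- limits
  have hA := AA_tendsto h1 h2 hLb
  have hd := del_tendsto h1 h2
  have hl := lam_tendsto h1 h2
  have hYn : Tendsto (fun n => (v ^ 2 * (c ^ 2 * (conj (del (Mn n) / del L₂) *
      (AA (Mn n) (lam L₂)) ^ 2))).re) atTop (𝓝 (v ^ 2 * (c ^ 2 * Y)).re) := by
    refine (continuous_re.tendsto _).comp ?_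
    refine Tendsto.const_mul _ (Tendsto.const_mul _ (Tendsto.mul ?_ (hA.pow 2)))
    exact (continuous_conj.tendsto _).comp (hd.div_const _)
  have hneg := hYn.eventually (gt_mem_nhds hcY)
  have hlne := hl.eventually (isOpen_ne.mem_nhds hLb)
  obtain ⟨n, ⟨hsc, hle⟩, hn1, hn2⟩ := (h3.and (hneg.and hlne)).exists
  have hlam : lam (scale (Mn n) (s n * c) hsc) ≠ lam L₂ := by rw [lam_scale]; exact hn2
  obtain ⟨κ, hκ⟩ := IsAlgClosed.exists_pow_nat_eq
    ((del (scale (Mn n) (s n * c) hsc) / del L₂) ^ 3) (n := 2) (by norm_num)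
  refine ⟨[mainT κ (scale (Mn n) (s n * c) hsc) L₂], isK1_main hle hκ hlam, ?_⟩
  have hreg : (Chain.reg L₁ L₂ [mainT κ (scale (Mn n) (s n * c) hsc) L₂]).2.2
      = (mainT κ (scale (Mn n) (s n * c) hsc) L₂).reg12 L₁ L₂ := by
    simp [Chain.reg, mainT]
  rw [hreg]
  intro him
  have hsq := reg12_sq hle hκ hlam
  rw [AA_scale, del_scale] at hsq
  set r := (mainT κ (scale (Mn n) (s n * c) hsc) L₂).reg12 L₁ L₂ with hr
  have hs0 : (s n : ℝ) ≠ 0 := by
    intro h0; apply hsc; rw [h0]; simp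
  -- (v r)² is a positive multiple of v² c² Y_n
  have key : (v * r) ^ 2 = ((4 * |(conj L₁.ω₁ * L₁.ω₂).im| ^ 2 / (s n) ^ 2 : ℝ) : ℂ) *
      (v ^ 2 * (c ^ 2 * (conj (del (Mn n) / del L₂) * (AA (Mn n) (lam L₂)) ^ 2))) := by
    rw [mul_pow, hsq]
    have hcc : conj c ≠ 0 := by rwa [map_ne_zero]
    have hc2 : c ^ 2 = ((conj c) ^ 2)⁻¹ := by
      exact eq_inv_of_mul_eq_one_left (by rw [← mul_pow, mul_comm c, hcn, one_pow])
    have hsc' : (s n : ℂ) ≠ 0 := by exact_mod_cast hs0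
    have hdL : conj (del L₂) ≠ 0 := by
      rw [map_ne_zero]; exact del_ne L₂
    rw [hc2]
    simp only [map_div₀, map_pow, map_mul, conj_ofReal]
    push_cast
    field_simp
  have hre : ((v * r) ^ 2).re < 0 := by
    rw [key, Complex.re_ofReal_mul]
    apply mul_neg_of_pos_of_neg _ hn1
    have := area_pos L₁
    positivity
  have hre2 : ((v * r) ^ 2).re = (v * r).re ^ 2 := by
    rw [pow_two, mul_re, him]; ring
  rw [hre2] at hre
  exact absurd hre (not_lt.mpr (sq_nonneg _))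

theorem closure_image (L₁ L₂ : PeriodPair) : (image L₁ L₂).topologicalClosure = ⊤ := by
  classical
  -- the closure as a real subspace
  let W : Submodule ℝ (ℝ × ℝ × ℂ) :=
    { carrier := (image L₁ L₂).topologicalClosure
      add_mem' := fun ha hb => (image L₁ L₂).topologicalClosure.add_mem ha hb
      zero_mem' := (image L₁ L₂).topologicalClosure.zero_mem
      smul_mem' := fun r v hv => real_smul_mem (image L₁ L₂) r hv }
  have hmem : ∀ ξ : Chain, IsK1 L₁ L₂ ξ → ξ.reg L₁ L₂ ∈ W := fun ξ hξ =>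
    (image L₁ L₂).le_topologicalClosure ⟨ξ, 1, hξ, one_pos, by simp⟩
  have hW1 : ∀ r : ℝ, ((r, 0, 0) : ℝ × ℝ × ℂ) ∈ W := fun r => by
    obtain ⟨ξ, hξ, h⟩ := exists_dec1 L₁ L₂ r
    rw [← h]; exact hmem ξ hξ
  have hW2 : ∀ r : ℝ, ((0, r, 0) : ℝ × ℝ × ℂ) ∈ W := fun r => by
    obtain ⟨ξ, hξ, h⟩ := exists_dec2 L₁ L₂ r
    rw [← h]; exact hmem ξ hξ
  -- third components
  have hW3 : ∀ ξ : Chain, IsK1 L₁ L₂ ξ → ((0, 0, (ξ.reg L₁ L₂).2.2) : ℝ × ℝ × ℂ) ∈ W := by
    intro ξ hξ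
    have h := W.sub_mem (W.sub_mem (hmem ξ hξ) (hW1 (ξ.reg L₁ L₂).1)) (hW2 (ξ.reg L₁ L₂).2.1)
    convert h using 1
    ext <;> simp
  have hspan : ∀ w : ℂ, ((0, 0, w) : ℝ × ℝ × ℂ) ∈ W := by
    obtain ⟨ξ, hξ, h1⟩ := exists_rot L₁ L₂ (v := 1) one_ne_zero
    rw [one_mul] at h1
    set a := (ξ.reg L₁ L₂).2.2 with ha
    have ha0 : a ≠ 0 := by rintro h; rw [h] at h1; simp at h1
    obtain ⟨η, hη, h2⟩ := exists_rot L₁ L₂ (v := conj a) (by rwa [map_ne_zero])
    set b := (η.reg L₁ L₂).2.2 with hb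
    intro w
    -- w = x a + y b with x y real
    have hdet : (conj a * b).im ≠ 0 := h2
    have hw : w = (((conj w * b).im / (conj a * b).im : ℝ) : ℂ) * a +
        (((conj a * w).im / (conj a * b).im : ℝ) : ℂ) * b := by
      have hd' : (((conj a * b).im : ℝ) : ℂ) ≠ 0 := by exact_mod_cast hdet
      have e : (((conj a * b).im : ℝ) : ℂ) * w =
          (((conj w * b).im : ℝ) : ℂ) * a + (((conj a * w).im : ℝ) : ℂ) * b := by
        apply Complex.ext
        · simp only [mul_re, add_re, ofReal_re, ofReal_im, conj_re, conj_im, mul_im]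
          ring
        · simp only [add_im, ofReal_re, ofReal_im, conj_re, conj_im, mul_im]
          ring
      rw [ofReal_div, ofReal_div, div_mul_eq_mul_div, div_mul_eq_mul_div, ← add_div, ← e,
        mul_div_cancel_left₀ _ hd']
    have h3 := W.add_mem (W.smul_mem ((conj w * b).im / (conj a * b).im) (hW3 ξ hξ))
      (W.smul_mem ((conj a * w).im / (conj a * b).im) (hW3 η hη))
    rw [← ha, ← hb] at h3
    have h4 : (((conj w * b).im / (conj a * b).im) • ((0, 0, a) : ℝ × ℝ × ℂ) +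
        ((conj a * w).im / (conj a * b).im) • ((0, 0, b) : ℝ × ℝ × ℂ)) = (0, 0, w) := by
      simp only [Prod.smul_mk, smul_zero, Prod.mk_add_mk, add_zero, Complex.real_smul, ← hw]
    rwa [h4] at h3
  rw [eq_top_iff]
  rintro ⟨x, y, w⟩ -
  have h := W.add_mem (W.add_mem (hW1 x) (hW2 y)) (hspan w)
  have h5 : ((x, 0, 0) : ℝ × ℝ × ℂ) + (0, y, 0) + (0, 0, w) = (x, y, w) := by simp
  rw [h5] at h
  exact h

theorem main_density (L₁ L₂ : PeriodPair) :
    Dense {v : ℝ × ℝ × ℂ | ∃ (ξ : Chain) (m : ℕ), IsK1 L₁ L₂ ξ ∧ 0 < m ∧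
      v = (m : ℝ)⁻¹ • ξ.reg L₁ L₂} := by
  have h := closure_image L₁ L₂
  have h2 : closure ((image L₁ L₂ : Submodule ℚ (ℝ × ℝ × ℂ)) : Set (ℝ × ℝ × ℂ)) = Set.univ := by
    rw [← Submodule.topologicalClosure_coe, h]
    rfl
  rw [dense_iff_closure_eq]
  exact h2

end Pool.Agent.Helper24.K1
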