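import Pool.Agent.Helper24.K1.Basic

/-! Local coordinates: definition. -/

noncomputable section

namespace Pool.Agent.Helper24.K1

open Filter Topology

/-- `U` is a local coordinate at `z₀` with local inverse `V`. -/
structure LC (z₀ : ℂ) (U V : ℂ → ℂ) : Prop where
  anU : AnalyticAt ℂ U z₀
  anV : AnalyticAt ℂ V 0
  U0 : U z₀ = 0
  V0 : V 0 = z₀
  UV : ∀ᶠ s in 𝓝 (0 : ℂ), U (V s) = s
  VU : ∀ᶠ z in 𝓝 z₀, V (U z) = z

end Pool.Agent.Helper24.K1
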