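import Pool.Agent.Helper24.K1.ScaDef

/-! Scaling of the period lattice. -/

noncomputable section

namespace Pool.Agent.Helper24.K1

open Complex MeasureTheory Set Filter Topology
open scoped ComplexConjugate PeriodPair

theorem mem_scale {L : PeriodPair} {c : ℂ} (hc : c ≠ 0) {z : ℂ} :
    c * z ∈ (scale L c hc).lattice ↔ z ∈ L.lattice := by
  rw [PeriodPair.mem_lattice, PeriodPair.mem_lattice]
  constructor
  · rintro ⟨m, n, h⟩
    refine ⟨m, n, ?_⟩
    have : c * (m * L.ω₁ + n * L.ω₂) = c * z := by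
      rw [← h]; simp only [scale]; ring
    exact mul_left_cancel₀ hc this
  · rintro ⟨m, n, h⟩
    refine ⟨m, n, ?_⟩
    rw [← h]; simp only [scale]; ring

/-- multiplication by `c` as an equivalence of the lattices -/
def scaleEquiv (L : PeriodPair) {c : ℂ} (hc : c ≠ 0) : L.lattice ≃ (scale L c hc).lattice where
  toFun l := ⟨c * l, (mem_scale hc).2 l.2⟩
  invFun l := ⟨c⁻¹ * l, by
    rw [← mem_scale hc, mul_inv_cancel_left₀ hc]; exact l.2⟩
  left_inv l := by
    ext; simp [hc]
  right_inv l := by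
    ext; simp [hc]

theorem P_scale (L : PeriodPair) {c : ℂ} (hc : c ≠ 0) (z : ℂ) :
    ℘[scale L c hc] (c * z) = ℘[L] z / c ^ 2 := by
  unfold PeriodPair.weierstrassP
  rw [← (scaleEquiv L hc).tsum_eq, ← tsum_div_const]
  apply tsum_congr
  intro l
  simp only [scaleEquiv, Equiv.coe_fn_mk]
  have h1 : c * z - c * (l : ℂ) = c * (z - l) := by ring
  rw [h1, mul_pow, mul_pow, sub_div, div_div, div_div, mul_comm (c ^ 2), mul_comm (c ^ 2)]

theorem e1_scale (L : PeriodPair) {c : ℂ} (hc : c ≠ 0) : e1 (scale L c hc) = e1 L / c ^ 2 := by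
  unfold e1
  rw [← P_scale L hc]
  congr 1
  simp only [scale]; ring

theorem e2_scale (L : PeriodPair) {c : ℂ} (hc : c ≠ 0) : e2 (scale L c hc) = e2 L / c ^ 2 := by
  unfold e2
  rw [← P_scale L hc]
  congr 1
  simp only [scale]; ring

theorem e3_scale (L : PeriodPair) {c : ℂ} (hc : c ≠ 0) : e3 (scale L c hc) = e3 L / c ^ 2 := by
  unfold e3
  rw [← P_scale L hc]
  congr 1
  simp only [scale]; ring

theorem del_scale (L : PeriodPair) {c : ℂ} (hc : c ≠ 0) : del (scale L c hc) = del L / c ^ 2 := by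
  unfold del
  rw [e1_scale, e2_scale, sub_div]

theorem lam_scale (L : PeriodPair) {c : ℂ} (hc : c ≠ 0) : lam (scale L c hc) = lam L := by
  unfold lam
  rw [e1_scale, e3_scale, del_scale, ← sub_div, div_div_div_cancel_right₀ (pow_ne_zero 2 hc)]

theorem xx_scale (L : PeriodPair) {c : ℂ} (hc : c ≠ 0) (z : ℂ) :
    xx (scale L c hc) (c * z) = xx L z := by
  unfold xx
  rw [P_scale, e1_scale, del_scale, ← sub_div, div_div_div_cancel_right₀ (pow_ne_zero 2 hc)]

theorem AA_scale (L : PeriodPair) {c : ℂ} (hc : c ≠ 0) (b : ℂ) : AA (scale L c hc) b = AA L b := by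
  unfold AA avg
  congr 1
  funext p
  have : (p.1 : ℂ) * (scale L c hc).ω₁ + (p.2 : ℂ) * (scale L c hc).ω₂
      = c * (p.1 * L.ω₁ + p.2 * L.ω₂) := by
    simp only [scale]; ring
  rw [this]
  simp only [qq]
  rw [xx_scale, lam_scale]

end Pool.Agent.Helper24.K1
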