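import Pool.Agent.Helper24.K1.Basic

/-! The scaled period pair. -/

noncomputable section

namespace Pool.Agent.Helper24.K1

/-- the period pair `(c ω₁, c ω₂)` -/
def scale (L : PeriodPair) (c : ℂ) (hc : c ≠ 0) : PeriodPair where
  ω₁ := c * L.ω₁
  ω₂ := c * L.ω₂
  indep := by
    have h := L.indep
    rw [LinearIndependent.pair_iff] at h ⊢
    intro s t hst
    apply h s t
    have : c * (s • L.ω₁ + t • L.ω₂) = 0 := by
      rw [← hst]
      simp only [Complex.real_smul]
      ring
    exact (mul_eq_zero.mp this).resolve_left hc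

end Pool.Agent.Helper24.K1
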